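import Pool.Agent.Q97.RD.De4

set_option autoImplicit false

open Filter MeasureTheory Metric Set Topology
open scoped ENNReal

namespace Q97.RF

open Q97.RB Q97.RD Q97.MM

noncomputable section

/-- **From cells to moments.** If a function is at least `δ λ^b` on half of each cell in which
`max |ζ|` on the line is more than `η λ`, where `λ` is the maximum over a large disc, then its
integral against the window is at least `c M`. -/
theorem cells_low {b a K : ℝ} (hb0 : 0 < b) (ha1 : 1 ≤ a) (hK1 : 1 ≤ K) :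
    ∃ η : ℝ, 0 < η ∧ ∀ δ : ℝ, 0 < δ → ∃ c : ℝ, 0 < c ∧ ∀ᶠ T : ℝ in atTop, ∀ U : ℝ, Adm T U →
      ∀ Φ : ℝ → ℝ, Measurable Φ → (∀ x, 0 ≤ Φ x) →
      (∀ u lam : ℝ, |u + a / Real.log T / 2 - T| ≤ 1 / 8 * (U * Real.log T) →
        (∀ z ∈ closedBall (pp (u + a / Real.log T / 2)) ((K + 1) * (a / Real.log T)),
          ‖riemannZeta z‖ ≤ lam) →
        (∃ x ∈ Icc u (u + a / Real.log T), η * lam < ‖riemannZeta (pp x)‖) →
        ENNReal.ofReal (1 / 2 * (a / Real.log T)) ≤
          volume {x ∈ Ico u (u + a / Real.log T) | δ * lam ^ b ≤ Φ x}) →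
      ENNReal.ofReal (c * MB b T U (1 / 2)) ≤ ∫⁻ x : ℝ, ENNReal.ofReal (Φ x * wt T U x) := by
  have hπ := Real.pi_pos
  have ha : 0 < a := by linarith
  have hK0 : 0 < K := by linarith
  obtain ⟨C₁, hC₁, hcells⟩ := zeta_cells hb0 ha (K := K + 1) (by positivity)
  set E := Real.exp (2 * a + a ^ 2) with hE
  have hE0 : 0 < E := Real.exp_pos _
  set η := (4 * (E * C₁))⁻¹ ^ b⁻¹ with hη
  have hη0 : 0 < η := by positivity
  have hηb : η ^ b = (4 * (E * C₁))⁻¹ := by
    rw [hη, ← Real.rpow_mul (by positivity), inv_mul_cancel₀ hb0.ne', Real.rpow_one]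
  refine ⟨η, hη0, fun δ hδ0 => ?_⟩
  obtain ⟨c₀, hc₀, hcM⟩ := HM_cmp hb0
  have hsm : Tendsto (fun T : ℝ => Real.pi / T ^ 3) atTop (𝓝 0) :=
    (tendsto_pow_atTop (n := 3) (α := ℝ) (by norm_num)).const_div_atTop _
  refine ⟨(2 * E ^ 2 / δ)⁻¹ * (1 / 2), by positivity, ?_⟩
  filter_upwards [hcells, hcM (1 / 8) (by norm_num) (by norm_num),
    hsm.eventually (gt_mem_nhds (show 0 < c₀ / 4 by positivity)), eventually_ge_atTop 3,
    Q97.BS.tail ⌈2 * b⌉₊ 3 (180 ^ b) (ϑ := 1 / 16) (by norm_num),
    Real.tendsto_log_atTop.eventually (eventually_ge_atTop (12 + 16 * a)),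
    (log_div_tendsto (2 * K * a)).eventually (gt_mem_nhds (show (0 : ℝ) < 1 / 4 by norm_num))]
    with T h1 h2 h3 hT h4 h6 h7 U h Φ hΦm hΦ0 hΦ
  have hT0 : 0 < T := by linarith
  have hL := h.log
  have hL0 : 0 < Real.log T := by linarith
  rw [abs_of_nonneg (by positivity)] at h7
  have hU := h.pos
  have hU1 := h.2.1
  obtain ⟨_, g5⟩ := h2 U h
  set L := Real.log T with hLd
  set M := MB b T U (1 / 2) with hM
  have hM0 : 0 < M := by linarith
  set hh := a / L with hhd
  have hh0 : 0 < hh := by positivity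
  have hhs : hh ≤ 1 / 16 := by
    rw [hhd, div_le_iff₀ hL0]
    linarith
  have hUL : U * L ≤ T := by
    have := h.2.2
    rwa [le_div_iff₀ (by linarith)] at this
  have hUL1 : 1 ≤ U * L := by nlinarith
  have hLUL : L ≤ U * L := by nlinarith
  have hhK : 2 * K * hh = 2 * K * a / L := by rw [hhd]; ring
  have hKK : (K + 1) * hh ≤ 2 * K * hh := by nlinarith
  -- the maxima
  have hex : ∀ j : ℤ, ∃ p : ℂ, ‖p - pp ((j : ℝ) * hh + hh / 2)‖ ≤ (K + 1) * hh ∧
      ∀ z ∈ closedBall (pp ((j : ℝ) * hh + hh / 2)) ((K + 1) * hh),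
        ‖riemannZeta z‖ ≤ ‖riemannZeta p‖ := by
    intro j
    have hcont : ContinuousOn (fun z => ‖riemannZeta z‖)
        (closedBall (pp ((j : ℝ) * hh + hh / 2)) ((K + 1) * hh)) := by
      refine ((zeta_diff_ball (pp_re ((j : ℝ) * hh + hh / 2)) (le_refl (1 / 4))).continuousOn.mono
        ?_).norm
      exact closedBall_subset_ball (by linarith)
    obtain ⟨p, hp, hmax⟩ := (isCompact_closedBall (pp ((j : ℝ) * hh + hh / 2))
      ((K + 1) * hh)).exists_isMaxOn ⟨_, mem_closedBall_self (by positivity)⟩ hcont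
    refine ⟨p, ?_, fun z hz => hmax hz⟩
    rwa [mem_closedBall, dist_eq_norm] at hp
  choose p hp hpm using hex
  have h9 := h1 U h p hp
  set near : Set ℤ := {j : ℤ | |(j : ℝ) * hh + hh / 2 - T| ≤ 1 / 8 * (U * L)} with hnear
  set s : ℤ → ℝ≥0∞ := near.indicator (fun j : ℤ => ENNReal.ofReal (hh *
    wt T U ((j : ℝ) * hh + hh / 2) * ‖riemannZeta (p j)‖ ^ b)) with hs
  set Ψ : ℝ → ℝ≥0∞ := fun x => ENNReal.ofReal (Φ x * wt T U x) with hΨ
  set tR : ℝ → ℝ≥0∞ := fun x => ENNReal.ofReal (Q97.BS.tR 3 T x) with htR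
  obtain ⟨t1, t2⟩ := Q97.BS.tR_int 3 hT0
  have htn : ∀ y, 0 ≤ Q97.BS.tR 3 T y := fun y => by unfold Q97.BS.tR; positivity
  set Cg : ℝ := 2 * E ^ 2 / δ with hCg
  have hCg0 : 0 < Cg := by positivity
  have hcell : ∀ j : ℤ, ∫⁻ x in Ij hh j, ENNReal.ofReal (zd b T U x) ≤
      ENNReal.ofReal (E * η ^ b) * s j + ENNReal.ofReal Cg * (∫⁻ x in Ij hh j, Ψ x) +
        ∫⁻ x in Ij hh j, tR x := by
    intro j
    set u := (j : ℝ) * hh with hu
    set cj := u + hh / 2 with hcj
    have hvol : volume (Ij hh j) = ENNReal.ofReal hh := by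
      unfold Ij
      rw [Real.volume_Ico]
      congr 1
      ring
    have hxc : ∀ x ∈ Icc u (u + hh), |x - cj| ≤ hh / 2 := fun x hx =>
      abs_le.mpr ⟨by linarith [hx.1], by linarith [hx.2]⟩
    by_cases hj : j ∈ near
    · have hj' : |cj - T| ≤ 1 / 8 * (U * L) := hj
      have hsj : s j = ENNReal.ofReal (hh * wt T U cj * ‖riemannZeta (p j)‖ ^ b) := by
        rw [hs, indicator_of_mem hj]
      refine le_trans ?_ le_self_add
      have hwc := wt_pos T U cj
      set lam := ‖riemannZeta (p j)‖ with hlam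
      have hlam0 : 0 ≤ lam := norm_nonneg _
      have hw1 : ∀ x ∈ Icc u (u + hh), wt T U x ≤ E * wt T U cj := by
        intro x hx
        have k1 : |x - cj| ≤ a / L := (hxc x hx).trans (by linarith)
        have k2 := wt_cmp' hU1 hL ha.le (hj'.trans (by linarith)) k1
        refine k2.trans ?_
        gcongr
        rw [hE]
        apply Real.exp_le_exp.mpr
        nlinarith
      have hw2 : ∀ x ∈ Icc u (u + hh), wt T U cj ≤ E * wt T U x := by
        intro x hx
        have k1 : |x - cj| ≤ a / L := (hxc x hx).trans (by linarith)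
        exact wt_cmp hU1 hL ha.le (hj'.trans (by linarith)) k1
      have hxb : ∀ x ∈ Icc u (u + hh), ‖riemannZeta (pp x)‖ ≤ lam := by
        intro x hx
        apply hpm j
        rw [mem_closedBall, dist_eq_norm, pp_sub_norm]
        refine (hxc x hx).trans ?_
        nlinarith
      by_cases hex : ∃ x ∈ Icc u (u + hh), η * lam < ‖riemannZeta (pp x)‖
      · refine le_trans ?_ le_add_self
        have hWv := hΦ u lam hj' (fun z hz => hpm j z hz) hex
        set W := {x ∈ Ico u (u + hh) | δ * lam ^ b ≤ Φ x} with hW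
        have hWm : MeasurableSet W := by
          have : W = Ico u (u + hh) ∩ {x | δ * lam ^ b ≤ Φ x} := by
            ext x
            simp [hW]
          rw [this]
          exact measurableSet_Ico.inter (measurableSet_le measurable_const hΦm)
        have k3 : ENNReal.ofReal (δ * lam ^ b * (wt T U cj / E) * (1 / 2 * hh)) ≤
            ∫⁻ x in Ij hh j, Ψ x := by
          calc ENNReal.ofReal (δ * lam ^ b * (wt T U cj / E) * (1 / 2 * hh))
              = ENNReal.ofReal (δ * lam ^ b * (wt T U cj / E)) *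
                ENNReal.ofReal (1 / 2 * hh) := ENNReal.ofReal_mul (by positivity)
            _ ≤ ENNReal.ofReal (δ * lam ^ b * (wt T U cj / E)) * volume W := by gcongr
            _ = ∫⁻ _ in W, ENNReal.ofReal (δ * lam ^ b * (wt T U cj / E)) :=
                (setLIntegral_const _ _).symm
            _ ≤ ∫⁻ x in W, Ψ x := by
                refine setLIntegral_mono' hWm fun x hx => ENNReal.ofReal_le_ofReal ?_
                have k4 : wt T U cj / E ≤ wt T U x := by
                  rw [div_le_iff₀ hE0, mul_comm]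
                  exact hw2 x (Ico_subset_Icc_self hx.1)
                have k5 : δ * lam ^ b ≤ Φ x := hx.2
                have k6 := hΦ0 x
                gcongr
            _ ≤ _ := lintegral_mono_set fun x hx => hx.1
        calc ∫⁻ x in Ij hh j, ENNReal.ofReal (zd b T U x)
            ≤ ∫⁻ _ in Ij hh j, ENNReal.ofReal (lam ^ b * (E * wt T U cj)) := by
              refine setLIntegral_mono' (Ij_meas hh j) fun x hx => ENNReal.ofReal_le_ofReal ?_
              have hx' := Ico_subset_Icc_self hx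
              unfold zd
              have hwx := wt_pos T U x
              have k6 : ‖riemannZeta (pp x)‖ ^ b ≤ lam ^ b :=
                Real.rpow_le_rpow (norm_nonneg _) (hxb x hx') hb0.le
              have k7 := hw1 x hx'
              gcongr
          _ = ENNReal.ofReal Cg *
                ENNReal.ofReal (δ * lam ^ b * (wt T U cj / E) * (1 / 2 * hh)) := by
              rw [setLIntegral_const, hvol, ← ENNReal.ofReal_mul (by positivity),
                ← ENNReal.ofReal_mul (by positivity)]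
              congr 1
              rw [hCg]
              field_simp
          _ ≤ _ := by gcongr
      · push Not at hex
        refine le_trans ?_ le_self_add
        rw [hsj, ← ENNReal.ofReal_mul (by positivity)]
        calc ∫⁻ x in Ij hh j, ENNReal.ofReal (zd b T U x)
            ≤ ∫⁻ _ in Ij hh j, ENNReal.ofReal ((η * lam) ^ b * (E * wt T U cj)) := by
              refine setLIntegral_mono' (Ij_meas hh j) fun x hx => ENNReal.ofReal_le_ofReal ?_
              have hx' := Ico_subset_Icc_self hx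
              unfold zd
              have hwx := wt_pos T U x
              have k6 : ‖riemannZeta (pp x)‖ ^ b ≤ (η * lam) ^ b :=
                Real.rpow_le_rpow (norm_nonneg _) (hex x hx') hb0.le
              have k7 := hw1 x hx'
              gcongr
          _ = _ := by
              rw [setLIntegral_const, hvol, ← ENNReal.ofReal_mul (by positivity),
                Real.mul_rpow hη0.le hlam0]
              congr 1
              ring
    · refine le_trans ?_ le_add_self
      have hj' : 1 / 8 * (U * L) < |cj - T| := by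
        rw [hnear, mem_ofPred_eq, not_le] at hj
        exact hj
      refine setLIntegral_mono' (Ij_meas hh j) fun x hx => ENNReal.ofReal_le_ofReal ?_
      have hx' := Ico_subset_Icc_self hx
      have k1 : 1 / 16 * (U * L) < |x - T| := by
        have k2 : |cj - T| ≤ |x - T| + hh / 2 := by
          calc |cj - T| = |(x - T) - (x - cj)| := by ring_nf
            _ ≤ _ := (abs_sub _ _).trans (add_le_add le_rfl (hxc x hx'))
        have k3 : hh / 2 ≤ 1 / 16 * (U * L) := by linarith
        linarith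
      refine le_trans ?_ (h4 U h x k1)
      have := zeta_rpow_bd hb0 (x := 1 / 2) (by norm_num) (by norm_num) x
      have hwx := wt_pos T U x
      unfold zd pp
      gcongr
  -- the sum over the intervals
  have hsum : ENNReal.ofReal M ≤ ENNReal.ofReal (E * η ^ b) * (∑' j : ℤ, s j) +
      ENNReal.ofReal Cg * (∫⁻ x, Ψ x) + ∫⁻ x, tR x := by
    rw [← zd_lint hb0 h]
    calc ∫⁻ x, ENNReal.ofReal (zd b T U x)
        = ∑' j : ℤ, ∫⁻ x in Ij hh j, ENNReal.ofReal (zd b T U x) := lint_grid hh0 _
      _ ≤ ∑' j : ℤ, (ENNReal.ofReal (E * η ^ b) * s j + ENNReal.ofReal Cg *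
          (∫⁻ x in Ij hh j, Ψ x) + ∫⁻ x in Ij hh j, tR x) := ENNReal.tsum_le_tsum hcell
      _ = _ := by
          rw [ENNReal.tsum_add, ENNReal.tsum_add, ENNReal.tsum_mul_left, ENNReal.tsum_mul_left,
            ← lint_grid hh0, ← lint_grid hh0]
  have htR' : ∫⁻ x, tR x ≤ ENNReal.ofReal (M / 4) := by
    rw [htR, ← ofReal_integral_eq_lintegral_ofReal t1 (Eventually.of_forall htn)]
    apply ENNReal.ofReal_le_ofReal
    linarith
  have hsj' : ENNReal.ofReal (E * η ^ b) * (∑' j : ℤ, s j) ≤ ENNReal.ofReal (M / 4) := by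
    calc ENNReal.ofReal (E * η ^ b) * (∑' j : ℤ, s j)
        ≤ ENNReal.ofReal (E * η ^ b) * ENNReal.ofReal (C₁ * M) := by gcongr
      _ = ENNReal.ofReal (M / 4) := by
          rw [← ENNReal.ofReal_mul (by positivity), hηb]
          congr 1
          field_simp
  have h10 : ENNReal.ofReal (M / 2) ≤ ENNReal.ofReal Cg * ∫⁻ x, Ψ x := by
    have e1 : ENNReal.ofReal M = ENNReal.ofReal (M / 2) + ENNReal.ofReal (M / 2) := by
      rw [← ENNReal.ofReal_add (by positivity) (by positivity)]
      congr 1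
      ring
    have e2 : ENNReal.ofReal (M / 2) + ENNReal.ofReal (M / 2) ≤
        ENNReal.ofReal Cg * (∫⁻ x, Ψ x) + ENNReal.ofReal (M / 2) := by
      rw [← e1]
      calc ENNReal.ofReal M ≤ ENNReal.ofReal (E * η ^ b) * (∑' j : ℤ, s j) +
            ENNReal.ofReal Cg * (∫⁻ x, Ψ x) + ∫⁻ x, tR x := hsum
        _ ≤ ENNReal.ofReal (M / 4) + ENNReal.ofReal Cg * (∫⁻ x, Ψ x) + ENNReal.ofReal (M / 4) := by
            gcongr
        _ = _ := by
            have e3 : ENNReal.ofReal (M / 2) = ENNReal.ofReal (M / 4) + ENNReal.ofReal (M / 4) := by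
              rw [← ENNReal.ofReal_add (by positivity) (by positivity)]
              congr 1
              ring
            rw [e3]
            ring
    exact (ENNReal.add_le_add_iff_right ENNReal.ofReal_ne_top).mp e2
  calc ENNReal.ofReal ((2 * E ^ 2 / δ)⁻¹ * (1 / 2) * M)
      = ENNReal.ofReal Cg⁻¹ * ENNReal.ofReal (M / 2) := by
        rw [← ENNReal.ofReal_mul (by positivity)]
        congr 1
        rw [hCg]
        ring
    _ ≤ ENNReal.ofReal Cg⁻¹ * (ENNReal.ofReal Cg * ∫⁻ x, Ψ x) := by gcongr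
    _ = ∫⁻ x, Ψ x := by
        rw [← mul_assoc, ← ENNReal.ofReal_mul (by positivity), inv_mul_cancel₀ hCg0.ne',
          ENNReal.ofReal_one, one_mul]

end

end Q97.RF
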