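import Pool.Agent.Q97.RF.Op

set_option autoImplicit false

open Filter Metric Set Topology Polynomial
open scoped Nat ComplexConjugate

namespace Q97.RF

noncomputable section

/-- the reflected function -/
def rf (f : ℂ → ℂ) (z : ℂ) : ℂ := conj (f (-conj z))

/-- `P(-x)` with conjugate coefficients -/
def reflp (P : ℂ[X]) : ℂ[X] := (P.map (starRingEnd ℂ)).comp (-X)

/-- the polynomial `conj P(-1 - x)` -/
def dual (P : ℂ[X]) : ℂ[X] := (reflp P).comp (X + 1)

theorem deriv_rf (f : ℂ → ℂ) : deriv (rf f) = fun z => -rf (deriv f) z := by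
  have h1 : rf f = conj ∘ (fun x => f (-x)) ∘ conj := rfl
  rw [h1, deriv_conj_conj]
  funext z
  simp only [Function.comp_apply, rf]
  rw [deriv_comp_neg, map_neg]

theorem id_rf (f : ℂ → ℂ) (k : ℕ) :
    iteratedDeriv k (rf f) = fun z => (-1) ^ k * rf (iteratedDeriv k f) z := by
  induction k with
  | zero =>
    funext z
    simp
  | succ k ih =>
    rw [iteratedDeriv_succ, ih]
    funext z
    rw [deriv_const_mul_field, deriv_rf, iteratedDeriv_succ]
    ring

theorem reflp_monomial (k : ℕ) (a : ℂ) : reflp (monomial k a) = monomial k (conj a * (-1) ^ k) := by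
  unfold reflp
  rw [map_monomial, monomial_comp, neg_pow, ← C_mul_X_pow_eq_monomial, C_mul, C_pow, C_neg, C_1]
  ring

theorem op_rf (f : ℂ → ℂ) (P : ℂ[X]) (z : ℂ) :
    op (reflp P) (rf f) z = conj (op P f (-conj z)) := by
  induction P using Polynomial.induction_on' with
  | add p q hp hq =>
    have h1 : reflp (p + q) = reflp p + reflp q := by
      unfold reflp
      rw [Polynomial.map_add, add_comp]
    rw [h1, op_add, op_add, map_add, hp, hq]
  | monomial k a =>
    rw [reflp_monomial, op_monomial, op_monomial, id_rf, map_mul]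
    simp only [rf]
    have : ((-1 : ℂ)) ^ k * (-1) ^ k = 1 := by
      rw [← mul_pow]
      norm_num
    linear_combination (conj a * conj (iteratedDeriv k f (-conj z))) * this

theorem neg_conj_mem {z : ℂ} {r : ℝ} (hz : z ∈ closedBall (0 : ℂ) r) :
    -conj z ∈ closedBall (0 : ℂ) r := by
  rw [mem_closedBall_zero_iff] at hz ⊢
  rwa [norm_neg, Complex.norm_conj]

theorem dual_roots (P : ℂ[X]) (x : ℂ) : (dual P).eval x = conj (P.eval (-1 - conj x)) := by
  unfold dual reflp
  rw [eval_comp, eval_comp]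
  simp only [eval_add, eval_X, eval_one, eval_neg]
  rw [eval_map, ← Complex.conj_conj (-(x + 1)), eval₂_at_apply]
  congr 2
  simp only [map_neg, map_add, map_one]
  ring

theorem coprime_dual {P : ℂ[X]}
    (h : ∀ μ ν : ℂ, P.eval μ = 0 → P.eval ν = 0 → μ + conj ν ≠ -1) : IsCoprime P (dual P) := by
  refine (Polynomial.isCoprime_iff_aeval_ne_zero_of_isAlgClosed ℂ ℂ P (dual P)).mpr fun x => ?_
  by_contra hx
  push Not at hx
  obtain ⟨h1, h2⟩ := hx
  rw [coe_aeval_eq_eval, dual_roots, map_eq_zero] at h2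
  refine h x _ h1 h2 ?_
  simp

/-- **Lower bound for `P(D) f`** for functions with a functional equation. -/
theorem key_abs {P : ℂ[X]} (hP0 : P ≠ 0) (hP : IsCoprime P (dual P)) {a : ℝ} (ha : 3 ≤ a) :
    ∃ C ε : ℝ, 0 < C ∧ 0 < ε ∧ ∀ (f η : ℂ → ℂ) (u : ℂ) (H : ℝ),
      AnalyticOnNhd ℂ f (closedBall 0 a) → AnalyticOnNhd ℂ η (closedBall 0 3) → ‖u‖ = 1 →
      (∀ z ∈ closedBall (0 : ℂ) 3, conj (f (-conj z)) = u * (Complex.exp z * ((1 + η z) * f z))) →
      (∀ z ∈ closedBall (0 : ℂ) 3, ‖η z‖ ≤ ε) →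
      (∀ z ∈ closedBall (0 : ℂ) a, ‖op P f z‖ ≤ H) →
      ∀ z ∈ closedBall (0 : ℂ) a, ‖f z‖ ≤ C * H := by
  obtain ⟨A, B, hAB⟩ := hP
  have hlc : P.leadingCoeff ≠ 0 := leadingCoeff_ne_zero.mpr hP0
  have hlc0 : 0 < ‖P.leadingCoeff‖ := norm_pos_iff.mpr hlc
  obtain ⟨G, hG, hgrow⟩ := grow P.roots (r := 1) (R := 3) one_pos (by norm_num)
  obtain ⟨G', hG', hgrow'⟩ := grow P.roots (r := 1) (R := a) one_pos (by linarith)
  have hsp : P = C P.leadingCoeff * (P.roots.map fun μ => X - C μ).prod :=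
    (IsAlgClosed.splits P).eq_prod_roots
  set R := reflp P with hR
  set nA := nm A 1 with hnA
  set nB := nm B 1 with hnB
  set nR := nm R 1 with hnR
  have hnA0 : 0 ≤ nA := nm_nonneg A one_pos
  have hnB0 : 0 ≤ nB := nm_nonneg B one_pos
  have hnR0 : 0 ≤ nR := nm_nonneg R one_pos
  set E₂ := Real.exp 2 with hE₂
  set E₃ := Real.exp 3 with hE₃
  have hE₂0 : 0 < E₂ := Real.exp_pos _
  have hE₃0 : 0 < E₃ := Real.exp_pos _
  set K := nB * (E₂ * (nR * E₃)) * G with hK
  have hK0 : 0 ≤ K := by positivity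
  set l := ‖P.leadingCoeff‖⁻¹ with hl
  have hl0 : 0 < l := by positivity
  set K₁ := nA + nB * E₂ with hK₁
  have hK₁0 : 0 ≤ K₁ := by positivity
  refine ⟨G' * (2 * K₁ + 2 * l), 1 / (2 * (K + 1)), by positivity, by positivity,
    fun f η u H hf hη hu hfe hε hH z hz => ?_⟩
  set ε := 1 / (2 * (K + 1)) with hεd
  have hε0 : 0 < ε := by positivity
  have hKε : K * ε ≤ 1 / 2 := by
    rw [hεd, mul_one_div, div_le_iff₀ (by positivity)]
    linarith
  have hopP : ∀ z ∈ closedBall (0 : ℂ) a,
      ‖op (P.roots.map fun μ => X - C μ).prod f z‖ ≤ l * H := by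
    intro y hy
    have h1 := hH y hy
    rw [hsp, op_mul (hf y hy), op_C, norm_mul] at h1
    rw [hl, inv_mul_eq_div, le_div_iff₀ hlc0, mul_comm]
    exact h1
  have hs3 : closedBall (0 : ℂ) 3 ⊆ closedBall (0 : ℂ) a := closedBall_subset_closedBall ha
  -- the maximum on the unit disc
  obtain ⟨z₁, hz₁, hmax⟩ := (isCompact_closedBall (0 : ℂ) 1).exists_isMaxOn
    ⟨0, mem_closedBall_self zero_le_one⟩ (f := fun z => ‖f z‖) (by
      refine ((hf.mono ?_).continuousOn).norm
      exact closedBall_subset_closedBall (by linarith))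
  set M := ‖f z₁‖ with hM
  have hM0 : 0 ≤ M := norm_nonneg _
  have hmax' : ∀ z ∈ closedBall (0 : ℂ) 1, ‖f z‖ ≤ M := fun z hz => hmax hz
  have hH0 : 0 ≤ H := (norm_nonneg _).trans (hH 0 (mem_closedBall_self (by linarith)))
  have h3 : ∀ z ∈ closedBall (0 : ℂ) 3, ‖f z‖ ≤ G * (M + l * H) :=
    hgrow f M (l * H) (hf.mono hs3) hmax' fun y hy => hopP y (hs3 hy)
  set M₃ := G * (M + l * H) with hM₃
  have hM₃0 : 0 ≤ M₃ := by positivity
  -- the dual operator
  have hdual : ∀ y ∈ closedBall (0 : ℂ) 2, ‖op (dual P) f y‖ ≤ E₂ * (H + nR * (E₃ * ε * M₃)) := by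
    intro y hy
    have hy2 := hy
    rw [mem_closedBall_zero_iff] at hy2
    have hya : y ∈ closedBall (0 : ℂ) a := closedBall_subset_closedBall (by linarith) hy
    have hfa := hf y hya
    have hηa := hη y (closedBall_subset_closedBall (by norm_num) hy)
    have hexpa : AnalyticAt ℂ (fun z => Complex.exp z * f z) y :=
      (Complex.differentiable_exp.analyticAt y).mul hfa
    have hloc : rf f =ᶠ[𝓝 y] (fun z => u * (Complex.exp z * f z)) +
        (fun z => u * (Complex.exp z * (η z * f z))) := by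
      have hnb : ball (0 : ℂ) 3 ∈ 𝓝 y := isOpen_ball.mem_nhds (by
        rw [mem_ball_zero_iff]
        linarith)
      filter_upwards [hnb] with x hx
      have := hfe x (ball_subset_closedBall hx)
      change conj (f (-conj x)) = _
      rw [this, Pi.add_apply]
      ring
    have hE1 : ∀ x : ℂ, ‖x‖ ≤ 3 → ‖Complex.exp x‖ ≤ E₃ := fun x hx =>
      (Complex.norm_exp_le_exp_norm _).trans (Real.exp_le_exp.mpr hx)
    have hsub1 : closedBall y 1 ⊆ closedBall (0 : ℂ) 3 := by
      intro x hx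
      rw [mem_closedBall, dist_eq_norm] at hx
      rw [mem_closedBall_zero_iff]
      calc ‖x‖ = ‖(x - y) + y‖ := by ring_nf
        _ ≤ 1 + 2 := (norm_add_le _ _).trans (add_le_add hx hy2)
        _ = 3 := by norm_num
    have hg2 : AnalyticOnNhd ℂ (fun z => u * (Complex.exp z * (η z * f z))) (closedBall y 1) := by
      intro x hx
      have hx3 := hsub1 hx
      exact analyticAt_const.mul ((Complex.differentiable_exp.analyticAt x).mul
        ((hη x hx3).mul (hf x (hs3 hx3))))
    have e1 : op R (rf f) y = u * (Complex.exp y * op (dual P) f y) +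
        op R (fun z => u * (Complex.exp z * (η z * f z))) y := by
      have hca : AnalyticAt ℂ (fun z => u * (Complex.exp z * f z)) y := analyticAt_const.mul hexpa
      rw [op_congr hloc, op_add_fun hca (hg2 y (mem_closedBall_self zero_le_one)),
        op_cmul hexpa, op_exp R hfa]
      rfl
    have e2 : ‖op R (rf f) y‖ ≤ H := by
      rw [hR, op_rf, Complex.norm_conj]
      exact hH _ (neg_conj_mem hya)
    have e3 : ‖op R (fun z => u * (Complex.exp z * (η z * f z))) y‖ ≤ nR * (E₃ * ε * M₃) := by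
      refine op_le one_pos R hg2 fun x hx => ?_
      have hx3 := hsub1 hx
      rw [norm_mul, norm_mul, norm_mul, hu, one_mul, mul_assoc]
      have hx3' := hx3
      rw [mem_closedBall_zero_iff] at hx3'
      have k1 := hE1 x hx3'
      have k2 := hε x hx3
      have k3 := h3 x hx3
      gcongr
    have e4 : ‖Complex.exp y * op (dual P) f y‖ ≤ H + nR * (E₃ * ε * M₃) := by
      have e5 : u * (Complex.exp y * op (dual P) f y) = op R (rf f) y -
          op R (fun z => u * (Complex.exp z * (η z * f z))) y := by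
        rw [e1]
        ring
      have e6 := congrArg norm e5
      rw [norm_mul, hu, one_mul] at e6
      rw [e6]
      exact (norm_sub_le _ _).trans (add_le_add e2 e3)
    have e7 : op (dual P) f y = Complex.exp (-y) * (Complex.exp y * op (dual P) f y) := by
      rw [← mul_assoc, ← Complex.exp_add, neg_add_cancel, Complex.exp_zero, one_mul]
    rw [e7, norm_mul]
    refine mul_le_mul ?_ e4 (norm_nonneg _) hE₂0.le
    refine (Complex.norm_exp_le_exp_norm _).trans (Real.exp_le_exp.mpr ?_)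
    rwa [norm_neg]
  -- Bezout
  have hbez : M ≤ nA * H + nB * (E₂ * (H + nR * (E₃ * ε * M₃))) := by
    have hz1' := hz₁
    rw [mem_closedBall_zero_iff] at hz1'
    have hza : z₁ ∈ closedBall (0 : ℂ) a := closedBall_subset_closedBall (by linarith) hz₁
    have hfa := hf z₁ hza
    have hsub2 : closedBall z₁ 1 ⊆ closedBall (0 : ℂ) 2 := by
      intro x hx
      rw [mem_closedBall, dist_eq_norm] at hx
      rw [mem_closedBall_zero_iff]
      calc ‖x‖ = ‖(x - z₁) + z₁‖ := by ring_nf
        _ ≤ 1 + 1 := (norm_add_le _ _).trans (add_le_add hx hz1')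
        _ = 2 := by norm_num
    have hsub3 : closedBall (0 : ℂ) 2 ⊆ closedBall (0 : ℂ) a :=
      closedBall_subset_closedBall (by linarith)
    have e1 : f z₁ = op A (op P f) z₁ + op B (op (dual P) f) z₁ := by
      rw [← op_mul hfa, ← op_mul hfa, ← op_add, hAB, op_one]
    have e2 : ‖op A (op P f) z₁‖ ≤ nA * H :=
      op_le one_pos A (fun x hx => op_analytic (hf x (hsub3 (hsub2 hx))) P)
        fun x hx => hH x (hsub3 (hsub2 hx))
    have e3 : ‖op B (op (dual P) f) z₁‖ ≤ nB * (E₂ * (H + nR * (E₃ * ε * M₃))) :=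
      op_le one_pos B (fun x hx => op_analytic (hf x (hsub3 (hsub2 hx))) (dual P))
        fun x hx => hdual x (hsub2 hx)
    calc M = ‖op A (op P f) z₁ + op B (op (dual P) f) z₁‖ := by rw [← e1]
      _ ≤ _ := (norm_add_le _ _).trans (add_le_add e2 e3)
  have hMle : M ≤ (2 * K₁ + l) * H := by
    have e1 : nA * H + nB * (E₂ * (H + nR * (E₃ * ε * M₃))) = K₁ * H + K * ε * (M + l * H) := by
      rw [hK₁, hK, hM₃]
      ring
    rw [e1] at hbez
    have e2 : K * ε * (M + l * H) ≤ 1 / 2 * (M + l * H) := by gcongr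
    linarith
  have h5 := hgrow' f M (l * H) hf hmax' hopP z hz
  calc ‖f z‖ ≤ G' * (M + l * H) := h5
    _ ≤ G' * ((2 * K₁ + l) * H + l * H) := by gcongr
    _ = _ := by ring

end

end Q97.RF
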