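import Pool.Agent.Q97.RF.Fe

set_option autoImplicit false

open Filter Metric Set Topology Polynomial Complex
open scoped Nat ComplexConjugate

namespace Q97.RF

open Q97.RB Q97.RD Q97.MM

noncomputable section

/-- **Lower bound for `P(D) f`** for functions with a functional equation. -/
theorem key_any {P : ℂ[X]} (hP0 : P ≠ 0) (hP : IsCoprime P (dual P)) {a : ℝ} (ha0 : 0 < a) :
    ∃ C ε : ℝ, 0 < C ∧ 0 < ε ∧ ∀ (f η : ℂ → ℂ) (u : ℂ) (H : ℝ),
      AnalyticOnNhd ℂ f (closedBall 0 a) → AnalyticOnNhd ℂ η (closedBall 0 3) → ‖u‖ = 1 →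
      (∀ z ∈ closedBall (0 : ℂ) 3, conj (f (-conj z)) = u * (Complex.exp z * ((1 + η z) * f z))) →
      (∀ z ∈ closedBall (0 : ℂ) 3, ‖η z‖ ≤ ε) →
      (∀ z ∈ closedBall (0 : ℂ) a, ‖op P f z‖ ≤ H) →
      ∀ z ∈ closedBall (0 : ℂ) a, ‖f z‖ ≤ C * H := by
  obtain ⟨A, B, hAB⟩ := hP
  obtain ⟨r, hr, hr1, hra⟩ : ∃ r : ℝ, 0 < r ∧ r ≤ 1 ∧ 3 * r ≤ a :=
    ⟨min 1 (a / 3), by positivity, min_le_left _ _, by
      have := min_le_right 1 (a / 3)
      linarith⟩
  have hlc : P.leadingCoeff ≠ 0 := leadingCoeff_ne_zero.mpr hP0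
  have hlc0 : 0 < ‖P.leadingCoeff‖ := norm_pos_iff.mpr hlc
  obtain ⟨G, hG, hgrow⟩ := grow P.roots (r := r) (R := 3 * r) hr (by linarith)
  obtain ⟨G', hG', hgrow'⟩ := grow P.roots (r := r) (R := a) hr (by linarith)
  have hsp : P = C P.leadingCoeff * (P.roots.map fun μ => X - C μ).prod :=
    (IsAlgClosed.splits P).eq_prod_roots
  set R := reflp P with hR
  set nA := nm A r with hnA
  set nB := nm B r with hnB
  set nR := nm R r with hnR
  have hnA0 : 0 ≤ nA := nm_nonneg A hr
  have hnB0 : 0 ≤ nB := nm_nonneg B hr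
  have hnR0 : 0 ≤ nR := nm_nonneg R hr
  set E₂ := Real.exp 2 with hE₂
  set E₃ := Real.exp 3 with hE₃
  have hE₂0 : 0 < E₂ := Real.exp_pos _
  have hE₃0 : 0 < E₃ := Real.exp_pos _
  set K := nB * (E₂ * (nR * E₃)) * G with hK
  have hK0 : 0 ≤ K := by positivity
  set l := ‖P.leadingCoeff‖⁻¹ with hl
  have hl0 : 0 < l := by positivity
  set K₁ := nA + nB * E₂ with hK₁
  have hK₁0 : 0 ≤ K₁ := by positivity
  refine ⟨G' * (2 * K₁ + 2 * l), 1 / (2 * (K + 1)), by positivity, by positivity,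
    fun f η u H hf hη hu hfe hε hH z hz => ?_⟩
  set ε := 1 / (2 * (K + 1)) with hεd
  have hε0 : 0 < ε := by positivity
  have hKε : K * ε ≤ 1 / 2 := by
    rw [hεd, mul_one_div, div_le_iff₀ (by positivity)]
    linarith
  have hopP : ∀ z ∈ closedBall (0 : ℂ) a,
      ‖op (P.roots.map fun μ => X - C μ).prod f z‖ ≤ l * H := by
    intro y hy
    have h1 := hH y hy
    rw [hsp, op_mul (hf y hy), op_C, norm_mul] at h1
    rw [hl, inv_mul_eq_div, le_div_iff₀ hlc0, mul_comm]
    exact h1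
  have hs3 : closedBall (0 : ℂ) (3 * r) ⊆ closedBall (0 : ℂ) a := closedBall_subset_closedBall hra
  have hs33 : closedBall (0 : ℂ) (3 * r) ⊆ closedBall (0 : ℂ) 3 :=
    closedBall_subset_closedBall (by linarith)
  -- the maximum on the unit disc
  obtain ⟨z₁, hz₁, hmax⟩ := (isCompact_closedBall (0 : ℂ) r).exists_isMaxOn
    ⟨0, mem_closedBall_self hr.le⟩ (f := fun z => ‖f z‖) (by
      refine ((hf.mono ?_).continuousOn).norm
      exact closedBall_subset_closedBall (by linarith))
  set M := ‖f z₁‖ with hM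
  have hM0 : 0 ≤ M := norm_nonneg _
  have hmax' : ∀ z ∈ closedBall (0 : ℂ) r, ‖f z‖ ≤ M := fun z hz => hmax hz
  have hH0 : 0 ≤ H := (norm_nonneg _).trans (hH 0 (mem_closedBall_self (by linarith)))
  have h3 : ∀ z ∈ closedBall (0 : ℂ) (3 * r), ‖f z‖ ≤ G * (M + l * H) :=
    hgrow f M (l * H) (hf.mono hs3) hmax' fun y hy => hopP y (hs3 hy)
  set M₃ := G * (M + l * H) with hM₃
  have hM₃0 : 0 ≤ M₃ := by positivity
  -- the dual operator
  have hdual : ∀ y ∈ closedBall (0 : ℂ) (2 * r), ‖op (dual P) f y‖ ≤ E₂ * (H + nR * (E₃ * ε * M₃)) := by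
    intro y hy
    have hy2 := hy
    rw [mem_closedBall_zero_iff] at hy2
    have hya : y ∈ closedBall (0 : ℂ) a := closedBall_subset_closedBall (by linarith) hy
    have hfa := hf y hya
    have hηa := hη y (closedBall_subset_closedBall (by linarith) hy)
    have hexpa : AnalyticAt ℂ (fun z => Complex.exp z * f z) y :=
      (Complex.differentiable_exp.analyticAt y).mul hfa
    have hloc : rf f =ᶠ[𝓝 y] (fun z => u * (Complex.exp z * f z)) +
        (fun z => u * (Complex.exp z * (η z * f z))) := by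
      have hnb : ball (0 : ℂ) 3 ∈ 𝓝 y := isOpen_ball.mem_nhds (by
        rw [mem_ball_zero_iff]
        linarith)
      filter_upwards [hnb] with x hx
      have := hfe x (ball_subset_closedBall hx)
      change conj (f (-conj x)) = _
      rw [this, Pi.add_apply]
      ring
    have hE1 : ∀ x : ℂ, ‖x‖ ≤ 3 → ‖Complex.exp x‖ ≤ E₃ := fun x hx =>
      (Complex.norm_exp_le_exp_norm _).trans (Real.exp_le_exp.mpr hx)
    have hsub1 : closedBall y r ⊆ closedBall (0 : ℂ) (3 * r) := by
      intro x hx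
      rw [mem_closedBall, dist_eq_norm] at hx
      rw [mem_closedBall_zero_iff]
      calc ‖x‖ = ‖(x - y) + y‖ := by ring_nf
        _ ≤ r + 2 * r := (norm_add_le _ _).trans (add_le_add hx hy2)
        _ = 3 * r := by ring
    have hg2 : AnalyticOnNhd ℂ (fun z => u * (Complex.exp z * (η z * f z))) (closedBall y r) := by
      intro x hx
      have hx3 := hsub1 hx
      exact analyticAt_const.mul ((Complex.differentiable_exp.analyticAt x).mul
        ((hη x (hs33 hx3)).mul (hf x (hs3 hx3))))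
    have e1 : op R (rf f) y = u * (Complex.exp y * op (dual P) f y) +
        op R (fun z => u * (Complex.exp z * (η z * f z))) y := by
      have hca : AnalyticAt ℂ (fun z => u * (Complex.exp z * f z)) y := analyticAt_const.mul hexpa
      rw [op_congr hloc, op_add_fun hca (hg2 y (mem_closedBall_self hr.le)),
        op_cmul hexpa, op_exp R hfa]
      rfl
    have e2 : ‖op R (rf f) y‖ ≤ H := by
      rw [hR, op_rf, Complex.norm_conj]
      exact hH _ (neg_conj_mem hya)
    have e3 : ‖op R (fun z => u * (Complex.exp z * (η z * f z))) y‖ ≤ nR * (E₃ * ε * M₃) := by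
      refine op_le hr R hg2 fun x hx => ?_
      have hx3 := hsub1 hx
      rw [norm_mul, norm_mul, norm_mul, hu, one_mul, mul_assoc]
      have hx3' := hs33 hx3
      rw [mem_closedBall_zero_iff] at hx3'
      have k1 := hE1 x hx3'
      have k2 := hε x (hs33 hx3)
      have k3 := h3 x hx3
      gcongr
    have e4 : ‖Complex.exp y * op (dual P) f y‖ ≤ H + nR * (E₃ * ε * M₃) := by
      have e5 : u * (Complex.exp y * op (dual P) f y) = op R (rf f) y -
          op R (fun z => u * (Complex.exp z * (η z * f z))) y := by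
        rw [e1]
        ring
      have e6 := congrArg norm e5
      rw [norm_mul, hu, one_mul] at e6
      rw [e6]
      exact (norm_sub_le _ _).trans (add_le_add e2 e3)
    have e7 : op (dual P) f y = Complex.exp (-y) * (Complex.exp y * op (dual P) f y) := by
      rw [← mul_assoc, ← Complex.exp_add, neg_add_cancel, Complex.exp_zero, one_mul]
    rw [e7, norm_mul]
    refine mul_le_mul ?_ e4 (norm_nonneg _) hE₂0.le
    refine (Complex.norm_exp_le_exp_norm _).trans (Real.exp_le_exp.mpr ?_)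
    rw [norm_neg]
    linarith
  -- Bezout
  have hbez : M ≤ nA * H + nB * (E₂ * (H + nR * (E₃ * ε * M₃))) := by
    have hz1' := hz₁
    rw [mem_closedBall_zero_iff] at hz1'
    have hza : z₁ ∈ closedBall (0 : ℂ) a := closedBall_subset_closedBall (by linarith) hz₁
    have hfa := hf z₁ hza
    have hsub2 : closedBall z₁ r ⊆ closedBall (0 : ℂ) (2 * r) := by
      intro x hx
      rw [mem_closedBall, dist_eq_norm] at hx
      rw [mem_closedBall_zero_iff]
      calc ‖x‖ = ‖(x - z₁) + z₁‖ := by ring_nf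
        _ ≤ r + r := (norm_add_le _ _).trans (add_le_add hx hz1')
        _ = 2 * r := by ring
    have hsub3 : closedBall (0 : ℂ) (2 * r) ⊆ closedBall (0 : ℂ) a :=
      closedBall_subset_closedBall (by linarith)
    have e1 : f z₁ = op A (op P f) z₁ + op B (op (dual P) f) z₁ := by
      rw [← op_mul hfa, ← op_mul hfa, ← op_add, hAB, op_one]
    have e2 : ‖op A (op P f) z₁‖ ≤ nA * H :=
      op_le hr A (fun x hx => op_analytic (hf x (hsub3 (hsub2 hx))) P)
        fun x hx => hH x (hsub3 (hsub2 hx))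
    have e3 : ‖op B (op (dual P) f) z₁‖ ≤ nB * (E₂ * (H + nR * (E₃ * ε * M₃))) :=
      op_le hr B (fun x hx => op_analytic (hf x (hsub3 (hsub2 hx))) (dual P))
        fun x hx => hdual x (hsub2 hx)
    calc M = ‖op A (op P f) z₁ + op B (op (dual P) f) z₁‖ := by rw [← e1]
      _ ≤ _ := (norm_add_le _ _).trans (add_le_add e2 e3)
  have hMle : M ≤ (2 * K₁ + l) * H := by
    have e1 : nA * H + nB * (E₂ * (H + nR * (E₃ * ε * M₃))) = K₁ * H + K * ε * (M + l * H) := by
      rw [hK₁, hK, hM₃]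
      ring
    rw [e1] at hbez
    have e2 : K * ε * (M + l * H) ≤ 1 / 2 * (M + l * H) := by gcongr
    linarith
  have h5 := hgrow' f M (l * H) hf hmax' hopP z hz
  calc ‖f z‖ ≤ G' * (M + l * H) := h5
    _ ≤ G' * ((2 * K₁ + l) * H + l * H) := by gcongr
    _ = _ := by ring

/-- **Lower bound for `P(D / log T) ζ`** in discs of radius `a / log T`. -/
theorem bigP' {P : ℂ[X]} (hP0 : P ≠ 0)
    (hP : ∀ μ ν : ℂ, P.eval μ = 0 → P.eval ν = 0 → μ + conj ν ≠ -1) {a : ℝ} (ha : 0 < a) :
    ∃ C : ℝ, 0 < C ∧ ∀ᶠ T : ℝ in atTop, ∀ t : ℝ, |t - T| ≤ 1 / 4 * T → ∀ H : ℝ,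
      (∀ s : ℂ, ‖s - pp t‖ ≤ a / Real.log T → ‖dz P (Real.log T) s‖ ≤ H) →
      ∀ s : ℂ, ‖s - pp t‖ ≤ a / Real.log T → ‖riemannZeta s‖ ≤ C * H := by
  obtain ⟨C, ε, hC, hε, hkey⟩ := key_any hP0 (coprime_dual hP) ha
  refine ⟨C, hC, ?_⟩
  filter_upwards [ya_der, ya_small hε, eventually_ge_atTop 24,
    Real.tendsto_log_atTop.eventually (eventually_ge_atTop (16 + 8 * a))]
    with T hd hs hT hL t ht H hH s hsa
  set L := Real.log T with hLd
  have hL0 : 0 < L := by linarith
  have hLne : (L : ℂ) ≠ 0 := by exact_mod_cast hL0.ne'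
  have hnorm : ∀ z : ℂ, ‖(L : ℂ)⁻¹ * z‖ = ‖z‖ / L := by
    intro z
    rw [norm_mul, norm_inv, Complex.norm_real, Real.norm_of_nonneg hL0.le, inv_mul_eq_div]
  set f : ℂ → ℂ := fun z => riemannZeta (pp t + (L : ℂ)⁻¹ * z) with hf
  have hfa : AnalyticOnNhd ℂ f (closedBall 0 a) := by
    have h1 : DifferentiableOn ℂ f (ball 0 (a + 1)) := by
      intro z hz
      rw [mem_ball_zero_iff] at hz
      have h2 : pp t + (L : ℂ)⁻¹ * z ∈ ball (pp t) (1 / 4) := by
        rw [mem_ball, dist_eq_norm, add_sub_cancel_left, hnorm, div_lt_iff₀ hL0]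
        linarith
      have h3 : DifferentiableAt ℂ riemannZeta (pp t + (L : ℂ)⁻¹ * z) :=
        (zeta_diff_ball (pp_re t) (le_refl (1 / 4))).differentiableAt (isOpen_ball.mem_nhds h2)
      exact (DifferentiableAt.comp (f := fun z : ℂ => pp t + (L : ℂ)⁻¹ * z) z h3
        (by fun_prop)).differentiableWithinAt
    refine (h1.analyticOnNhd isOpen_ball).mono ?_
    exact closedBall_subset_ball (by linarith)
  have hya : AnalyticOnNhd ℂ (fun z => ya t L z - 1) (closedBall 0 3) := by
    have h1 : DifferentiableOn ℂ (fun z => ya t L z - 1) (ball 0 4) := by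
      intro z hz
      rw [mem_ball_zero_iff] at hz
      exact ((hd t ht z hz.le).1.differentiableAt.sub_const 1).differentiableWithinAt
    exact (h1.analyticOnNhd isOpen_ball).mono (closedBall_subset_ball (by norm_num))
  have hu := XX_pp t
  have hu0 : H345.XX (pp t) ≠ 0 := by
    rw [← norm_pos_iff, hu]
    exact one_pos
  have hfe : ∀ z ∈ closedBall (0 : ℂ) 3, conj (f (-conj z)) =
      H345.XX (pp t) * (Complex.exp z * ((1 + (ya t L z - 1)) * f z)) := by
    intro z hz
    rw [mem_closedBall_zero_iff] at hz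
    obtain ⟨g1, g2, _⟩ := near_geo (t := t) (L := L) (by linarith) hT ht (z := z) (by linarith)
    have h1 : (1 : ℂ) - (pp t + (L : ℂ)⁻¹ * z) = conj (pp t + (L : ℂ)⁻¹ * (-conj z)) := by
      unfold pp
      simp only [map_add, map_mul, map_neg, map_inv₀, Complex.conj_ofReal, Complex.conj_I,
        Complex.conj_conj]
      push_cast
      ring
    have h2 : pp t + (L : ℂ)⁻¹ * z ≠ 1 := by
      intro h
      rw [h, one_re] at g2
      linarith
    have h3 : conj (f (-conj z)) = riemannZeta (1 - (pp t + (L : ℂ)⁻¹ * z)) := by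
      rw [h1, riemannZeta_conj]
    rw [h3, fe_any (by linarith) h2]
    unfold ya
    have h4 : Complex.exp z * Complex.exp (-z) = 1 := by
      rw [← Complex.exp_add, add_neg_cancel, Complex.exp_zero]
    have h5 : H345.XX (pp t) * (Complex.exp z * ((1 + (H345.XX (pp t + (L : ℂ)⁻¹ * z) *
        Complex.exp (-z) / H345.XX (pp t) - 1)) * f z)) =
        (Complex.exp z * Complex.exp (-z)) * H345.XX (pp t + (L : ℂ)⁻¹ * z) * f z := by
      field_simp
      ring
    rw [h5, h4, one_mul]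
  have hop : ∀ z ∈ closedBall (0 : ℂ) a, ‖op P f z‖ ≤ H := by
    intro z hz
    rw [mem_closedBall_zero_iff] at hz
    rw [hf, op_scale]
    apply hH
    rw [add_sub_cancel_left, hnorm]
    gcongr
  have hsz : s = pp t + (L : ℂ)⁻¹ * ((L : ℂ) * (s - pp t)) := by
    field_simp
    ring
  have hfin := hkey f (fun z => ya t L z - 1) (H345.XX (pp t)) H hfa hya hu hfe (hs t ht) hop
    ((L : ℂ) * (s - pp t)) (by
      rw [mem_closedBall_zero_iff, norm_mul, Complex.norm_real, Real.norm_of_nonneg hL0.le]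
      rwa [le_div_iff₀ hL0, mul_comm] at hsa)
  rw [hsz]
  exact hfin

end

end Q97.RF
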