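import Pool.Agent.Q97.RF.Dl
import Pool.Agent.Q97.RD.De4

set_option autoImplicit false

open Filter Metric Set Topology Polynomial Complex
open scoped Nat ComplexConjugate

namespace Q97.RF

open Q97.RB Q97.RD Q97.MM

noncomputable section

/-- the function `P(D/L) ζ` -/
def dz (P : ℂ[X]) (L : ℝ) (s : ℂ) : ℂ := P.sum fun k a => a * iteratedDeriv k riemannZeta s / L ^ k

theorem id_scale (f : ℂ → ℂ) (c l : ℂ) (k : ℕ) :
    iteratedDeriv k (fun z => f (c + l * z)) = fun z => l ^ k * iteratedDeriv k f (c + l * z) := by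
  induction k with
  | zero =>
    funext z
    simp
  | succ k ih =>
    rw [iteratedDeriv_succ, ih]
    funext z
    have h2 : deriv (fun z => iteratedDeriv k f (c + l * z)) z =
        l • deriv (fun y => iteratedDeriv k f (c + y)) (l * z) :=
      deriv_comp_mul_left l (fun y => iteratedDeriv k f (c + y)) z
    have h3 : deriv (fun y => iteratedDeriv k f (c + y)) (l * z) =
        deriv (iteratedDeriv k f) (c + l * z) := deriv_comp_const_add _ _ _
    rw [deriv_const_mul_field, h2, h3, smul_eq_mul, iteratedDeriv_succ, pow_succ]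
    ring

theorem op_scale (P : ℂ[X]) {L : ℝ} (c z : ℂ) :
    op P (fun z => riemannZeta (c + (L : ℂ)⁻¹ * z)) z = dz P L (c + (L : ℂ)⁻¹ * z) := by
  unfold op dz Polynomial.sum
  refine Finset.sum_congr rfl fun k _ => ?_
  have h := congrFun (id_scale riemannZeta c ((L : ℂ)⁻¹) k) z
  change P.coeff k * iteratedDeriv k (fun z => riemannZeta (c + (L : ℂ)⁻¹ * z)) z =
    P.coeff k * iteratedDeriv k riemannZeta (c + (L : ℂ)⁻¹ * z) / (L : ℂ) ^ k
  rw [h, inv_pow]
  ring

theorem fe_any {s : ℂ} (hs : 0 < s.re) (hs1 : s ≠ 1) :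
    riemannZeta (1 - s) = H345.XX s * riemannZeta s := by
  apply H345.zeta_fe s _ hs1
  intro n h
  rw [h] at hs
  simp only [neg_re, natCast_re] at hs
  have : (0 : ℝ) ≤ n := Nat.cast_nonneg n
  linarith

theorem L2_near : ∀ᶠ T : ℝ in atTop, ∀ s : ℂ, 0 < s.re → s.re ≤ 1 → |s.im - T| ≤ 1 / 2 * T →
    1 ≤ s.im ∧ ‖H345.Chi.L2 s - (Real.log T : ℂ)‖ ≤ 6 := by
  filter_upwards [eventually_ge_atTop 24] with T hT s h0 h1 hy
  have hT0 : 0 < T := by linarith
  have hy' := abs_le.mp hy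
  have hy1 : 1 / 2 * T ≤ s.im := by nlinarith
  have hy2 : s.im ≤ 3 / 2 * T := by nlinarith
  have hy12 : 12 ≤ s.im := by linarith
  have hy0 : 0 < s.im := by linarith
  refine ⟨by linarith, ?_⟩
  have h2 := H345.Chi.L2_close h0 (by linarith) hy12
  have h3 : 14 / s.im ≤ 7 / 6 := by
    rw [div_le_iff₀ hy0]
    linarith
  have hπ := Real.pi_pos
  have hπ4 := Real.pi_le_four
  have hπ3 := Real.pi_gt_three
  have h4 : Real.log (s.im / (2 * Real.pi)) ≤ Real.log T := by
    apply Real.log_le_log (by positivity)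
    rw [div_le_iff₀ (by positivity)]
    nlinarith
  have h5 : Real.log T - 3 ≤ Real.log (s.im / (2 * Real.pi)) := by
    have h6 : Real.log (T * (1 / 16)) ≤ Real.log (s.im / (2 * Real.pi)) := by
      apply Real.log_le_log (by positivity)
      rw [le_div_iff₀ (by positivity)]
      nlinarith
    have h7 : Real.log (T * (1 / 16)) = Real.log T + Real.log (1 / 16) :=
      Real.log_mul hT0.ne' (by norm_num)
    have h8 : -3 ≤ Real.log (1 / 16 : ℝ) := by
      rw [Real.le_log_iff_exp_le (by norm_num), Real.exp_neg]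
      have h9 : (16 : ℝ) ≤ Real.exp 3 := by
        have := Real.sum_le_exp_of_nonneg (show (0 : ℝ) ≤ 3 by norm_num) 6
        simp only [Finset.sum_range_succ, Finset.sum_range_zero, Nat.factorial] at this
        norm_num at this
        linarith
      rw [inv_le_comm₀ (Real.exp_pos _) (by norm_num)]
      norm_num
      linarith
    linarith
  have h6 : ‖((Real.log (s.im / (2 * Real.pi)) : ℝ) : ℂ) - (Real.log T : ℂ)‖ ≤ 3 := by
    rw [← ofReal_sub, Complex.norm_real, Real.norm_eq_abs, abs_le]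
    constructor <;> linarith
  calc ‖H345.Chi.L2 s - (Real.log T : ℂ)‖
      = ‖(H345.Chi.L2 s - (Real.log (s.im / (2 * Real.pi)) : ℂ)) +
        (((Real.log (s.im / (2 * Real.pi)) : ℝ) : ℂ) - (Real.log T : ℂ))‖ := by ring_nf
    _ ≤ 7 / 6 + 3 := (norm_add_le _ _).trans (add_le_add (h2.trans h3) h6)
    _ ≤ 6 := by norm_num

/-- the factor of the functional equation near the line, rescaled -/
def ya (t L : ℝ) (z : ℂ) : ℂ :=
  H345.XX (pp t + (L : ℂ)⁻¹ * z) * Complex.exp (-z) / H345.XX (pp t)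

theorem XX_pp (t : ℝ) : ‖H345.XX (pp t)‖ = 1 := by
  have h := H345.norm_XX_half t
  have : pp t = 1 / 2 + (t : ℂ) * I := by
    unfold pp
    norm_num
  rwa [this]

theorem near_geo {t L T : ℝ} (hL : 16 ≤ L) (hT : 24 ≤ T) (ht : |t - T| ≤ 1 / 4 * T) {z : ℂ}
    (hz : ‖z‖ ≤ 4) : 1 / 4 ≤ (pp t + (L : ℂ)⁻¹ * z).re ∧ (pp t + (L : ℂ)⁻¹ * z).re ≤ 3 / 4 ∧
      |(pp t + (L : ℂ)⁻¹ * z).im - T| ≤ 1 / 2 * T := by
  have hL0 : 0 < L := by linarith
  have h1 : ‖(L : ℂ)⁻¹ * z‖ ≤ 1 / 4 := by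
    rw [norm_mul, norm_inv, Complex.norm_real, Real.norm_of_nonneg hL0.le, inv_mul_eq_div,
      div_le_iff₀ hL0]
    linarith
  have h2 := (Complex.abs_re_le_norm _).trans h1
  have h3 := (Complex.abs_im_le_norm _).trans h1
  rw [add_re, add_im, pp_re, pp_im]
  have h2' := abs_le.mp h2
  refine ⟨by linarith, by linarith, ?_⟩
  calc |t + ((L : ℂ)⁻¹ * z).im - T| = |(t - T) + ((L : ℂ)⁻¹ * z).im| := by ring_nf
    _ ≤ 1 / 4 * T + 1 / 4 := (abs_add_le _ _).trans (add_le_add ht h3)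
    _ ≤ _ := by linarith

theorem ya_der : ∀ᶠ T : ℝ in atTop, ∀ t : ℝ, |t - T| ≤ 1 / 4 * T → ∀ z : ℂ, ‖z‖ ≤ 4 →
    HasDerivAt (ya t (Real.log T))
      (ya t (Real.log T) z * (H345.Chi.L2 (pp t + ((Real.log T : ℝ) : ℂ)⁻¹ * z) *
        ((Real.log T : ℝ) : ℂ)⁻¹ - 1)) z ∧
      ‖H345.Chi.L2 (pp t + ((Real.log T : ℝ) : ℂ)⁻¹ * z) * ((Real.log T : ℝ) : ℂ)⁻¹ - 1‖ ≤
        6 / Real.log T := by
  filter_upwards [L2_near, eventually_ge_atTop 24,
    Real.tendsto_log_atTop.eventually (eventually_ge_atTop 16)] with T h1 hT hL t ht z hz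
  set L := Real.log T with hLd
  have hL0 : 0 < L := by linarith
  obtain ⟨g1, g2, g3⟩ := near_geo hL hT ht hz
  obtain ⟨k1, k2⟩ := h1 (pp t + (L : ℂ)⁻¹ * z) (by linarith) (by linarith) g3
  have hLne : (L : ℂ) ≠ 0 := by exact_mod_cast hL0.ne'
  constructor
  · have d1 := H345.Chi.hasDerivAt_XX (s := pp t + (L : ℂ)⁻¹ * z) (by linarith) k1
    have d2 : HasDerivAt (fun z : ℂ => pp t + (L : ℂ)⁻¹ * z) ((L : ℂ)⁻¹) z := by
      have := ((hasDerivAt_id z).const_mul ((L : ℂ)⁻¹)).const_add (pp t)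
      simpa using this
    have d3 := HasDerivAt.comp (h₂ := H345.XX) z d1 d2
    have d4 : HasDerivAt (fun z : ℂ => Complex.exp (-z)) (Complex.exp (-z) * (-1)) z :=
      ((hasDerivAt_id z).neg).cexp
    have d5 := (d3.mul d4).div_const (H345.XX (pp t))
    refine d5.congr_deriv ?_
    simp only [ya, Function.comp_apply]
    ring
  · have e1 : H345.Chi.L2 (pp t + (L : ℂ)⁻¹ * z) * (L : ℂ)⁻¹ - 1 =
        (H345.Chi.L2 (pp t + (L : ℂ)⁻¹ * z) - (L : ℂ)) * (L : ℂ)⁻¹ := by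
      field_simp
    rw [e1, norm_mul, norm_inv, Complex.norm_real, Real.norm_of_nonneg hL0.le,
      ← div_eq_mul_inv]
    gcongr

theorem ya_small {ε : ℝ} (hε : 0 < ε) : ∀ᶠ T : ℝ in atTop, ∀ t : ℝ, |t - T| ≤ 1 / 4 * T →
    ∀ z ∈ closedBall (0 : ℂ) 3, ‖ya t (Real.log T) z - 1‖ ≤ ε := by
  filter_upwards [ya_der, Real.tendsto_log_atTop.eventually (eventually_ge_atTop (36 + 36 / ε))]
    with T h1 hL t ht z hz
  set L := Real.log T with hLd
  have h36 : 0 < 36 / ε := by positivity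
  have hL0 : 0 < L := by linarith
  have hder : ∀ y ∈ closedBall (0 : ℂ) 3, HasDerivWithinAt (ya t L)
      (ya t L y * (H345.Chi.L2 (pp t + (L : ℂ)⁻¹ * y) * (L : ℂ)⁻¹ - 1)) (closedBall 0 3) y := by
    intro y hy
    rw [mem_closedBall_zero_iff] at hy
    exact (h1 t ht y (by linarith)).1.hasDerivWithinAt
  have hcont : ContinuousOn (fun y => ‖ya t L y‖) (closedBall 0 3) :=
    ContinuousOn.norm fun y hy => (hder y hy).continuousWithinAt
  obtain ⟨y₀, hy₀, hmax⟩ := (isCompact_closedBall (0 : ℂ) 3).exists_isMaxOn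
    ⟨0, mem_closedBall_self (by norm_num)⟩ hcont
  set m := ‖ya t L y₀‖ with hm
  have hm0 : 0 ≤ m := norm_nonneg _
  have hmax' : ∀ y ∈ closedBall (0 : ℂ) 3, ‖ya t L y‖ ≤ m := fun y hy => hmax hy
  have hbd : ∀ y ∈ closedBall (0 : ℂ) 3,
      ‖ya t L y * (H345.Chi.L2 (pp t + (L : ℂ)⁻¹ * y) * (L : ℂ)⁻¹ - 1)‖ ≤ m * (6 / L) := by
    intro y hy
    have hy' := hy
    rw [mem_closedBall_zero_iff] at hy'
    rw [norm_mul]
    have k1 := (h1 t ht y (by linarith)).2
    have k2 := hmax' y hy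
    gcongr
  have h0 : ya t L 0 = 1 := by
    unfold ya
    rw [mul_zero, add_zero, neg_zero, Complex.exp_zero, mul_one, div_self]
    rw [← norm_pos_iff, XX_pp]
    exact one_pos
  have hmv : ∀ y ∈ closedBall (0 : ℂ) 3, ‖ya t L y - 1‖ ≤ m * (6 / L) * 3 := by
    intro y hy
    have e4 := (convex_closedBall (0 : ℂ) 3).norm_image_sub_le_of_norm_hasDerivWithin_le hder hbd
      (mem_closedBall_self (by norm_num)) hy
    rw [h0, sub_zero] at e4
    rw [mem_closedBall_zero_iff] at hy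
    exact e4.trans (by gcongr)
  have h18 : 18 / L ≤ 1 / 2 := by
    rw [div_le_iff₀ hL0]
    linarith
  have hm2 : m ≤ 2 := by
    have e1 := hmv y₀ hy₀
    have e2 : m ≤ 1 + ‖ya t L y₀ - 1‖ := by
      have := norm_add_le (ya t L y₀ - 1) 1
      rw [sub_add_cancel, norm_one] at this
      linarith
    have e3 : m * (6 / L) * 3 = m * (18 / L) := by ring
    have e4 : m * (18 / L) ≤ m * (1 / 2) := by gcongr
    linarith
  calc ‖ya t L z - 1‖ ≤ m * (6 / L) * 3 := hmv z hz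
    _ ≤ 2 * (6 / L) * 3 := by gcongr
    _ = 36 / L := by ring
    _ ≤ ε := by
      rw [div_le_iff₀ hL0]
      have : 36 = ε * (36 / ε) := by field_simp
      nlinarith

/-- **Lower bound for `P(D / log T) ζ`** in discs of radius `a / log T`. -/
theorem bigP {P : ℂ[X]} (hP0 : P ≠ 0)
    (hP : ∀ μ ν : ℂ, P.eval μ = 0 → P.eval ν = 0 → μ + conj ν ≠ -1) {a : ℝ} (ha : 3 ≤ a) :
    ∃ C : ℝ, 0 < C ∧ ∀ᶠ T : ℝ in atTop, ∀ t : ℝ, |t - T| ≤ 1 / 4 * T → ∀ H : ℝ,
      (∀ s : ℂ, ‖s - pp t‖ ≤ a / Real.log T → ‖dz P (Real.log T) s‖ ≤ H) →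
      ∀ s : ℂ, ‖s - pp t‖ ≤ a / Real.log T → ‖riemannZeta s‖ ≤ C * H := by
  obtain ⟨C, ε, hC, hε, hkey⟩ := key_abs hP0 (coprime_dual hP) ha
  refine ⟨C, hC, ?_⟩
  filter_upwards [ya_der, ya_small hε, eventually_ge_atTop 24,
    Real.tendsto_log_atTop.eventually (eventually_ge_atTop (16 + 8 * a))]
    with T hd hs hT hL t ht H hH s hsa
  set L := Real.log T with hLd
  have hL0 : 0 < L := by linarith
  have hLne : (L : ℂ) ≠ 0 := by exact_mod_cast hL0.ne'
  have hnorm : ∀ z : ℂ, ‖(L : ℂ)⁻¹ * z‖ = ‖z‖ / L := by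
    intro z
    rw [norm_mul, norm_inv, Complex.norm_real, Real.norm_of_nonneg hL0.le, inv_mul_eq_div]
  set f : ℂ → ℂ := fun z => riemannZeta (pp t + (L : ℂ)⁻¹ * z) with hf
  have hfa : AnalyticOnNhd ℂ f (closedBall 0 a) := by
    have h1 : DifferentiableOn ℂ f (ball 0 (a + 1)) := by
      intro z hz
      rw [mem_ball_zero_iff] at hz
      have h2 : pp t + (L : ℂ)⁻¹ * z ∈ ball (pp t) (1 / 4) := by
        rw [mem_ball, dist_eq_norm, add_sub_cancel_left, hnorm, div_lt_iff₀ hL0]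
        linarith
      have h3 : DifferentiableAt ℂ riemannZeta (pp t + (L : ℂ)⁻¹ * z) :=
        (zeta_diff_ball (pp_re t) (le_refl (1 / 4))).differentiableAt (isOpen_ball.mem_nhds h2)
      exact (DifferentiableAt.comp (f := fun z : ℂ => pp t + (L : ℂ)⁻¹ * z) z h3
        (by fun_prop)).differentiableWithinAt
    refine (h1.analyticOnNhd isOpen_ball).mono ?_
    exact closedBall_subset_ball (by linarith)
  have hya : AnalyticOnNhd ℂ (fun z => ya t L z - 1) (closedBall 0 3) := by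
    have h1 : DifferentiableOn ℂ (fun z => ya t L z - 1) (ball 0 4) := by
      intro z hz
      rw [mem_ball_zero_iff] at hz
      exact ((hd t ht z hz.le).1.differentiableAt.sub_const 1).differentiableWithinAt
    exact (h1.analyticOnNhd isOpen_ball).mono (closedBall_subset_ball (by norm_num))
  have hu := XX_pp t
  have hu0 : H345.XX (pp t) ≠ 0 := by
    rw [← norm_pos_iff, hu]
    exact one_pos
  have hfe : ∀ z ∈ closedBall (0 : ℂ) 3, conj (f (-conj z)) =
      H345.XX (pp t) * (Complex.exp z * ((1 + (ya t L z - 1)) * f z)) := by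
    intro z hz
    rw [mem_closedBall_zero_iff] at hz
    obtain ⟨g1, g2, _⟩ := near_geo (t := t) (L := L) (by linarith) hT ht (z := z) (by linarith)
    have h1 : (1 : ℂ) - (pp t + (L : ℂ)⁻¹ * z) = conj (pp t + (L : ℂ)⁻¹ * (-conj z)) := by
      unfold pp
      simp only [map_add, map_mul, map_neg, map_inv₀, Complex.conj_ofReal, Complex.conj_I,
        Complex.conj_conj]
      push_cast
      ring
    have h2 : pp t + (L : ℂ)⁻¹ * z ≠ 1 := by
      intro h
      rw [h, one_re] at g2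
      linarith
    have h3 : conj (f (-conj z)) = riemannZeta (1 - (pp t + (L : ℂ)⁻¹ * z)) := by
      rw [h1, riemannZeta_conj]
    rw [h3, fe_any (by linarith) h2]
    unfold ya
    have h4 : Complex.exp z * Complex.exp (-z) = 1 := by
      rw [← Complex.exp_add, add_neg_cancel, Complex.exp_zero]
    have h5 : H345.XX (pp t) * (Complex.exp z * ((1 + (H345.XX (pp t + (L : ℂ)⁻¹ * z) *
        Complex.exp (-z) / H345.XX (pp t) - 1)) * f z)) =
        (Complex.exp z * Complex.exp (-z)) * H345.XX (pp t + (L : ℂ)⁻¹ * z) * f z := by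
      field_simp
      ring
    rw [h5, h4, one_mul]
  have hop : ∀ z ∈ closedBall (0 : ℂ) a, ‖op P f z‖ ≤ H := by
    intro z hz
    rw [mem_closedBall_zero_iff] at hz
    rw [hf, op_scale]
    apply hH
    rw [add_sub_cancel_left, hnorm]
    gcongr
  have hsz : s = pp t + (L : ℂ)⁻¹ * ((L : ℂ) * (s - pp t)) := by
    field_simp
    ring
  have hfin := hkey f (fun z => ya t L z - 1) (H345.XX (pp t)) H hfa hya hu hfe (hs t ht) hop
    ((L : ℂ) * (s - pp t)) (by
      rw [mem_closedBall_zero_iff, norm_mul, Complex.norm_real, Real.norm_of_nonneg hL0.le]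
      rwa [le_div_iff₀ hL0, mul_comm] at hsa)
  rw [hsz]
  exact hfin

end

end Q97.RF
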