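import Pool.Agent.H370R2.Local

set_option autoImplicit false

open Complex Filter Topology Set MeasureTheory Metric

namespace Q97.RF

open H370.Loc

noncomputable section

/-- positive part of `log (r / |x|)` -/
def lp (r x : ℝ) : ℝ := max 0 (Real.log (r / |x|))

theorem lp_nonneg (r x : ℝ) : 0 ≤ lp r x := le_max_left _ _

theorem zero_free_low {g : ℂ → ℂ} {c : ℂ} {r r1 B : ℝ} (hr1 : 0 < r1) (h1r : r1 < r) (hB : 0 ≤ B)
    (hg : AnalyticOnNhd ℂ g (closedBall c r)) (hg0 : ∀ z ∈ closedBall c r, g z ≠ 0)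
    (hb : ∀ z ∈ closedBall c r, ‖g z‖ ≤ Real.exp B * ‖g c‖) {w : ℂ} (hw : w ∈ closedBall c r1) :
    ‖g c‖ * Real.exp (-(2 * (B + 1) * r1 / (r - r1))) ≤ ‖g w‖ := by
  have hr : 0 < r := hr1.trans h1r
  have hcr : c ∈ ball c r := mem_ball_self hr
  have hd : DifferentiableOn ℂ (logDeriv g) (ball c r) := by
    intro w hw
    have hw' := ball_subset_closedBall hw
    have h1 : AnalyticAt ℂ (logDeriv g) w := (hg w hw').deriv.div (hg w hw') (hg0 w hw')
    exact h1.differentiableAt.differentiableWithinAt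
  obtain ⟨h, hhc, hh⟩ := hd.isExactOn_ball.with_val_at c 0
  -- g = g c * exp h
  have hconst : ∀ w ∈ ball c r, g w * cexp (-h w) = g c := by
    intro w hw
    have hderiv : ∀ x ∈ ball c r, HasDerivAt (fun y => g y * cexp (-h y)) 0 x := by
      intro x hx
      have hx' := ball_subset_closedBall hx
      have e1 : HasDerivAt g (deriv g x) x := (hg x hx').differentiableAt.hasDerivAt
      have e2 : HasDerivAt (fun y => cexp (-h y)) (cexp (-h x) * (-(logDeriv g x))) x :=
        ((hh x hx).neg).cexp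
      have e3 : HasDerivAt (fun y => g y * cexp (-h y))
          (deriv g x * cexp (-h x) + g x * (cexp (-h x) * (-(logDeriv g x)))) x := e1.mul e2
      have e4 : deriv g x * cexp (-h x) + g x * (cexp (-h x) * (-(logDeriv g x))) = 0 := by
        have := hg0 x hx'
        rw [logDeriv_apply]
        field_simp
        ring
      rwa [e4] at e3
    have hcv : Convex ℝ (ball c r) := convex_ball c r
    have := hcv.is_const_of_fderivWithin_eq_zero (𝕜 := ℂ) (f := fun y => g y * cexp (-h y))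
      (fun x hx => (hderiv x hx).differentiableAt.differentiableWithinAt)
      (fun x hx => by
        have h5 := (hderiv x hx).hasFDerivAt.hasFDerivWithinAt (s := ball c r)
        rw [h5.fderivWithin (isOpen_ball.uniqueDiffWithinAt hx)]
        ext; simp) hw hcr
    simp only [hhc, neg_zero, Complex.exp_zero, mul_one] at this
    exact this
  have hgc : 0 < ‖g c‖ := norm_pos_iff.2 (hg0 c (mem_closedBall_self hr.le))
  have hre : ∀ w ∈ ball c r, (h w).re ≤ B + 1 := by
    intro w hw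
    have h1 := hconst w hw
    have h2 : ‖g w‖ * Real.exp (-(h w).re) = ‖g c‖ := by
      rw [← h1, norm_mul, Complex.norm_exp]
      simp
    have h3 := hb w (ball_subset_closedBall hw)
    have h4 : ‖g c‖ ≤ Real.exp B * ‖g c‖ * Real.exp (-(h w).re) := by
      calc ‖g c‖ = ‖g w‖ * Real.exp (-(h w).re) := h2.symm
        _ ≤ _ := mul_le_mul_of_nonneg_right h3 (Real.exp_pos _).le
    have h5 : 1 ≤ Real.exp B * Real.exp (-(h w).re) := by
      by_contra hcon
      push Not at hcon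
      nlinarith
    rw [← Real.exp_add, Real.one_le_exp_iff] at h5
    linarith
  -- bound on h
  have hbound : ∀ w ∈ closedBall c r1, ‖h w‖ ≤ 2 * (B + 1) * r1 / (r - r1) := by
    intro w hw
    have hw1 : ‖w - c‖ ≤ r1 := by rwa [mem_closedBall, dist_eq_norm] at hw
    have hw2 : w - c ∈ ball (0 : ℂ) r := by rw [mem_ball_zero_iff]; linarith
    have hmap : ∀ x : ℂ, x ∈ ball (0 : ℂ) r → c + x ∈ ball c r := by
      intro x hx
      rw [mem_ball_zero_iff] at hx
      rw [mem_ball, dist_eq_norm, add_sub_cancel_left]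
      exact hx
    have hbc := Complex.borelCaratheodory_zero (f := fun x => h (c + x)) (M := B + 1) (R := r)
      (z := w - c) (by linarith)
      (fun x hx => by
        have h1 := (hh (c + x) (hmap x hx)).differentiableAt
        have h2 : DifferentiableAt ℂ (fun y : ℂ => c + y) x := by fun_prop
        exact (DifferentiableAt.comp (g := h) (f := fun y : ℂ => c + y) x h1 h2).differentiableWithinAt)
      (fun x hx => hre (c + x) (hmap x hx)) hr hw2 (by simp [hhc])
    simp only [add_sub_cancel] at hbc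
    refine hbc.trans ?_
    have h6 : 0 < r - r1 := by linarith
    have h7 : r - r1 ≤ r - ‖w - c‖ := by linarith
    exact div_le_div₀ (by positivity) (by gcongr) h6 h7
  have hwb : w ∈ ball c r := closedBall_subset_ball h1r hw
  have h1 := hconst w hwb
  have h2 : ‖g w‖ * Real.exp (-(h w).re) = ‖g c‖ := by
    rw [← h1, norm_mul, Complex.norm_exp]
    simp
  have h3 : -(2 * (B + 1) * r1 / (r - r1)) ≤ (h w).re := by
    have := (Complex.abs_re_le_norm (h w)).trans (hbound w hw)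
    exact (abs_le.mp this).1
  calc ‖g c‖ * Real.exp (-(2 * (B + 1) * r1 / (r - r1)))
      ≤ ‖g c‖ * Real.exp ((h w).re) := by gcongr
    _ = ‖g w‖ * (Real.exp (-(h w).re) * Real.exp ((h w).re)) := by rw [← h2]; ring
    _ = ‖g w‖ := by rw [← Real.exp_add, neg_add_cancel, Real.exp_zero, mul_one]

theorem Pf_low {s : Multiset ℂ} {z : ℂ} {r : ℝ} (hr : 0 < r) (h : ∀ ρ ∈ s, z.im ≠ ρ.im) :
    r ^ (Multiset.card s) * Real.exp (-((s.map fun ρ => lp r (z.im - ρ.im)).sum)) ≤ ‖Pf s z‖ := by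
  induction s using Multiset.induction_on with
  | empty => simp [Pf_zero]
  | cons ρ s ih =>
    rw [Pf_cons, Multiset.card_cons, pow_succ, norm_mul, Multiset.map_cons, Multiset.sum_cons,
      neg_add, Real.exp_add]
    have h1 := ih fun ρ' h' => h ρ' (Multiset.mem_cons_of_mem h')
    have h2 : z.im - ρ.im ≠ 0 := sub_ne_zero.mpr (h ρ (Multiset.mem_cons_self ρ s))
    have h3 : 0 < |z.im - ρ.im| := abs_pos.mpr h2
    have h4 : r * Real.exp (-(lp r (z.im - ρ.im))) ≤ ‖z - ρ‖ := by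
      have h5 : |z.im - ρ.im| ≤ ‖z - ρ‖ := by
        rw [← Complex.sub_im]
        exact Complex.abs_im_le_norm _
      refine le_trans ?_ h5
      have h6 : Real.log (r / |z.im - ρ.im|) ≤ lp r (z.im - ρ.im) := le_max_right _ _
      calc r * Real.exp (-(lp r (z.im - ρ.im)))
          ≤ r * Real.exp (-(Real.log (r / |z.im - ρ.im|))) := by gcongr
        _ = |z.im - ρ.im| := by
            rw [Real.exp_neg, Real.exp_log (by positivity)]
            field_simp
    calc r ^ Multiset.card s * r * (Real.exp (-(lp r (z.im - ρ.im))) *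
          Real.exp (-((s.map fun ρ => lp r (z.im - ρ.im)).sum)))
        = (r * Real.exp (-(lp r (z.im - ρ.im)))) * (r ^ Multiset.card s *
          Real.exp (-((s.map fun ρ => lp r (z.im - ρ.im)).sum))) := by ring
      _ ≤ _ := mul_le_mul h4 h1 (by positivity) (norm_nonneg _)

/-- **A lower bound for an analytic function** in terms of the ordinates of its zeros. -/
theorem low_point {g : ℂ → ℂ} {c : ℂ} {ρ Λ : ℝ} (hρ : 0 < ρ)
    (hg : AnalyticOnNhd ℂ g (closedBall c (8 * ρ))) (hc : g c ≠ 0)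
    (hΛ : ∀ z ∈ closedBall c (8 * ρ), ‖g z‖ ≤ Λ) :
    ∃ s : Multiset ℝ, (Multiset.card s : ℝ) ≤ Real.log (Λ / ‖g c‖) / Real.log 2 ∧
      ∀ z ∈ closedBall c (2 * ρ), z.im ∉ s → g z ≠ 0 ∧
        Real.log (Λ / ‖g z‖) ≤ (s.map fun γ => lp (4 * ρ) (z.im - γ)).sum +
          3 * (Real.log (Λ / ‖g c‖) + 1) := by
  have hFc : 0 < ‖g c‖ := norm_pos_iff.mpr hc
  set κ : ℂ := ((‖g c‖⁻¹ : ℝ) : ℂ) with hκ
  have hκn : ‖κ‖ = ‖g c‖⁻¹ := by
    rw [hκ, Complex.norm_real, Real.norm_eq_abs, abs_of_pos (by positivity)]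
  have hκ0 : κ ≠ 0 := by
    rw [← norm_pos_iff, hκn]
    positivity
  have hc8 : c ∈ closedBall c (8 * ρ) := mem_closedBall_self (by positivity)
  have hFM : ‖g c‖ ≤ Λ := hΛ c hc8
  set M := Λ / ‖g c‖ with hM
  have hM1 : 1 ≤ M := by
    rw [hM, le_div_iff₀ hFc]
    linarith
  have hn1 : ‖κ * g c‖ = 1 := by
    rw [norm_mul, hκn, inv_mul_cancel₀ hFc.ne']
  set f : ℂ → ℂ := fun z => κ * g z with hf
  have hfa : AnalyticOnNhd ℂ f (closedBall c (8 * ρ)) := fun z hz => analyticAt_const.mul (hg z hz)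
  have hfc : f c ≠ 0 := mul_ne_zero hκ0 hc
  have hfM : ∀ z ∈ closedBall c (8 * ρ), ‖f z‖ ≤ M := by
    intro z hz
    simp only [hf, norm_mul, hκn]
    rw [inv_mul_le_iff₀ hFc, hM, mul_div_cancel₀ _ hFc.ne']
    exact hΛ z hz
  obtain ⟨s, G, hs, hG, hfG, hG0, hcard⟩ := extract (r := 4 * ρ) (R := 8 * ρ) (by positivity)
    (by linarith) hM1 hfa hfc hfM
  have hRr : 8 * ρ / (4 * ρ) = 2 := by
    field_simp
    norm_num
  have hfc1 : ‖f c‖ = 1 := hn1
  rw [hRr, hfc1, div_one] at hcard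
  set n := Multiset.card s with hn
  have hlogM : 0 ≤ Real.log M := Real.log_nonneg hM1
  have hGball : ∀ w ∈ closedBall c (8 * ρ), ‖G w‖ ≤ M / (4 * ρ) ^ n := by
    intro w hw
    refine Complex.norm_le_of_forall_mem_frontier_norm_le (U := ball c (8 * ρ)) isBounded_ball ?_ ?_ ?_
    · apply DifferentiableOn.diffContOnCl
      rw [closure_ball c (by positivity)]
      exact fun x hx => (hG x hx).differentiableAt.differentiableWithinAt
    · intro x hx
      rw [frontier_ball c (by positivity)] at hx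
      have h1 : (4 * ρ) ^ n ≤ ‖Pf s x‖ := Pf_norm_ge (by positivity) fun ρ' hρ' => by
        have h2 := (hs ρ' hρ').1
        rw [mem_closedBall, dist_eq_norm] at h2
        rw [mem_sphere, dist_eq_norm] at hx
        have h3 : ‖x - c‖ ≤ ‖x - ρ'‖ + ‖ρ' - c‖ := by
          calc ‖x - c‖ = ‖(x - ρ') + (ρ' - c)‖ := by congr 1; ring
            _ ≤ _ := norm_add_le _ _
        linarith
      rw [le_div_iff₀ (by positivity)]
      calc ‖G x‖ * (4 * ρ) ^ n ≤ ‖G x‖ * ‖Pf s x‖ := mul_le_mul_of_nonneg_left h1 (norm_nonneg _)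
        _ = ‖f x‖ := by rw [hfG x, norm_mul, mul_comm]
        _ ≤ M := hfM x (sphere_subset_closedBall hx)
    · rwa [closure_ball c (by positivity)]
  have hGc : 1 / (4 * ρ) ^ n ≤ ‖G c‖ := by
    rw [div_le_iff₀ (by positivity)]
    have h1 : ‖Pf s c‖ ≤ (4 * ρ) ^ n := Pf_norm_le fun ρ' hρ' => by
      have h2 := (hs ρ' hρ').1
      rw [mem_closedBall, dist_eq_norm, norm_sub_rev] at h2
      exact h2
    calc (1 : ℝ) = ‖f c‖ := hfc1.symm
      _ = ‖G c‖ * ‖Pf s c‖ := by rw [hfG c, norm_mul, mul_comm]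
      _ ≤ ‖G c‖ * (4 * ρ) ^ n := mul_le_mul_of_nonneg_left h1 (norm_nonneg _)
  have hM0 : 0 < M := by linarith
  have hgb : ∀ w ∈ closedBall c (4 * ρ), ‖G w‖ ≤ Real.exp (Real.log M) * ‖G c‖ := by
    intro w hw
    refine (hGball w (closedBall_subset_closedBall (by linarith) hw)).trans ?_
    rw [Real.exp_log hM0]
    calc M / (4 * ρ) ^ n = M * (1 / (4 * ρ) ^ n) := by ring
      _ ≤ _ := mul_le_mul_of_nonneg_left hGc hM0.le
  refine ⟨s.map Complex.im, by rw [Multiset.card_map]; exact hcard, fun z hz him => ?_⟩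
  have him' : ∀ ρ' ∈ s, z.im ≠ ρ'.im := fun ρ' hρ' he =>
    him (Multiset.mem_map.mpr ⟨ρ', hρ', he.symm⟩)
  have hlow := zero_free_low (r := 4 * ρ) (r1 := 2 * ρ) (by positivity) (by linarith) hlogM
    (hG.mono (closedBall_subset_closedBall (by linarith))) hG0 hgb hz
  have hrr : 2 * (Real.log M + 1) * (2 * ρ) / (4 * ρ - 2 * ρ) = 2 * (Real.log M + 1) := by
    have : 4 * ρ - 2 * ρ = 2 * ρ := by ring
    rw [this]
    field_simp
  rw [hrr] at hlow
  have hP := Pf_low (s := s) (z := z) (r := 4 * ρ) (by positivity) him'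
  rw [Multiset.map_map]
  set S := (s.map fun ρ' => lp (4 * ρ) (z.im - ρ'.im)).sum with hS
  have hSeq : (Multiset.map ((fun γ => lp (4 * ρ) (z.im - γ)) ∘ Complex.im) s).sum = S := rfl
  rw [hSeq]
  have hflow : Real.exp (-(S + 2 * (Real.log M + 1))) ≤ ‖f z‖ := by
    calc Real.exp (-(S + 2 * (Real.log M + 1)))
        = ((4 * ρ) ^ n * Real.exp (-S)) * (1 / (4 * ρ) ^ n *
          Real.exp (-(2 * (Real.log M + 1)))) := by
          rw [neg_add, Real.exp_add]
          field_simp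
      _ ≤ ‖Pf s z‖ * (‖G c‖ * Real.exp (-(2 * (Real.log M + 1)))) := by
          refine mul_le_mul hP ?_ (by positivity) (norm_nonneg _)
          gcongr
      _ ≤ ‖Pf s z‖ * ‖G z‖ := by gcongr
      _ = ‖f z‖ := by rw [hfG z, norm_mul]
  have hfz0 : 0 < ‖f z‖ := lt_of_lt_of_le (Real.exp_pos _) hflow
  have hgz : g z ≠ 0 := by
    intro h0
    simp only [hf, h0, mul_zero, norm_zero, lt_irrefl] at hfz0
  refine ⟨hgz, ?_⟩
  have hgz0 : 0 < ‖g z‖ := norm_pos_iff.mpr hgz
  have e1 : Λ / ‖g z‖ = M / ‖f z‖ := by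
    simp only [hf, norm_mul, hκn, hM]
    field_simp
  rw [e1, Real.log_div hM0.ne' hfz0.ne']
  have e2 : -(S + 2 * (Real.log M + 1)) ≤ Real.log ‖f z‖ := by
    rw [Real.le_log_iff_exp_le hfz0]
    exact hflow
  linarith

end

end Q97.RF
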