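import Pool.Agent.Q97.RF.Lg
import Pool.Agent.Q97.RD.Ld

set_option autoImplicit false

open Filter Topology Set MeasureTheory Metric
open scoped ENNReal

namespace Q97.RF

open Q97.RD

noncomputable section

theorem lp_meas (r : ℝ) : Measurable (lp r) := by
  unfold lp
  fun_prop

theorem lp_int {q : ℝ} (hq : 1 ≤ q) : ∃ C : ℝ, 0 < C ∧ ∀ r γ : ℝ, 0 < r →
    ∫⁻ t : ℝ, ENNReal.ofReal (lp r (t - γ)) ^ q ≤ ENNReal.ofReal (C * r) := by
  obtain ⟨C, hC, hpe⟩ := pow_exp (q := q) (η := 1 / 2) (by linarith) (by norm_num)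
  set e := Real.exp (-(1 / 2)) with he
  have he0 : 0 < e := Real.exp_pos _
  have he1 : e < 1 := by
    rw [he, Real.exp_lt_one_iff]
    norm_num
  refine ⟨2 * C * (1 - e)⁻¹, by
    have : 0 < 1 - e := by linarith
    positivity, fun r γ hr => ?_⟩
  have hpt : ∀ t : ℝ, ENNReal.ofReal (lp r (t - γ)) ^ q ≤ ∑' k : ℕ,
      (closedBall γ (r * Real.exp (-(k : ℝ)))).indicator
        (fun _ => ENNReal.ofReal (((k : ℝ) + 1) ^ q)) t := by
    intro t
    by_cases h0 : lp r (t - γ) = 0
    · rw [h0, ENNReal.ofReal_zero, ENNReal.zero_rpow_of_pos (by linarith)]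
      exact zero_le
    · have hpos : 0 < lp r (t - γ) := lt_of_le_of_ne (lp_nonneg _ _) (Ne.symm h0)
      have hlog : lp r (t - γ) = Real.log (r / |t - γ|) := by
        unfold lp at hpos ⊢
        rcases max_choice 0 (Real.log (r / |t - γ|)) with h | h
        · rw [h] at hpos
          exact absurd hpos (lt_irrefl _)
        · exact h
      have hx : 0 < |t - γ| := by
        rcases eq_or_lt_of_le (abs_nonneg (t - γ)) with h | h
        · rw [hlog, ← h, div_zero, Real.log_zero] at hpos
          exact absurd hpos (lt_irrefl _)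
        · exact h
      set k := ⌊lp r (t - γ)⌋₊ with hk
      have k1 : (k : ℝ) ≤ lp r (t - γ) := Nat.floor_le hpos.le
      have k2 : lp r (t - γ) < k + 1 := Nat.lt_floor_add_one _
      have hmem : t ∈ closedBall γ (r * Real.exp (-(k : ℝ))) := by
        rw [mem_closedBall, Real.dist_eq]
        rw [hlog, Real.le_log_iff_exp_le (by positivity), le_div_iff₀ hx] at k1
        rw [Real.exp_neg, ← div_eq_mul_inv, le_div_iff₀ (Real.exp_pos _), mul_comm]
        exact k1
      refine le_trans ?_ (ENNReal.le_tsum k)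
      rw [indicator_of_mem hmem, ENNReal.ofReal_rpow_of_nonneg (lp_nonneg _ _) (by linarith)]
      apply ENNReal.ofReal_le_ofReal
      exact Real.rpow_le_rpow (lp_nonneg _ _) k2.le (by linarith)
  calc ∫⁻ t : ℝ, ENNReal.ofReal (lp r (t - γ)) ^ q
      ≤ ∫⁻ t : ℝ, ∑' k : ℕ, (closedBall γ (r * Real.exp (-(k : ℝ)))).indicator
        (fun _ => ENNReal.ofReal (((k : ℝ) + 1) ^ q)) t := lintegral_mono hpt
    _ = ∑' k : ℕ, ∫⁻ t : ℝ, (closedBall γ (r * Real.exp (-(k : ℝ)))).indicator
        (fun _ => ENNReal.ofReal (((k : ℝ) + 1) ^ q)) t :=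
        lintegral_tsum fun k => (measurable_const.indicator measurableSet_closedBall).aemeasurable
    _ ≤ ∑' k : ℕ, ENNReal.ofReal (2 * C * r) * ENNReal.ofReal e ^ k := by
        refine ENNReal.tsum_le_tsum fun k => ?_
        rw [lintegral_indicator_const measurableSet_closedBall, Real.volume_closedBall,
          ← ENNReal.ofReal_mul (by positivity), ← ENNReal.ofReal_pow he0.le,
          ← ENNReal.ofReal_mul (by positivity)]
        apply ENNReal.ofReal_le_ofReal
        have h1 := hpe k (Nat.cast_nonneg k)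
        have h2 : Real.exp (1 / 2 * (k : ℝ)) * Real.exp (-(k : ℝ)) = e ^ k := by
          rw [he, ← Real.exp_add, ← Real.exp_nat_mul]
          congr 1
          ring
        calc ((k : ℝ) + 1) ^ q * (2 * (r * Real.exp (-(k : ℝ))))
            ≤ (C * Real.exp (1 / 2 * (k : ℝ))) * (2 * (r * Real.exp (-(k : ℝ)))) := by gcongr
          _ = 2 * C * r * (Real.exp (1 / 2 * (k : ℝ)) * Real.exp (-(k : ℝ))) := by ring
          _ = _ := by rw [h2]
    _ = _ := by
        rw [ENNReal.tsum_mul_left, ENNReal.tsum_geometric, ← ENNReal.ofReal_one,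
          ← ENNReal.ofReal_sub _ he0.le, ← ENNReal.ofReal_inv_of_pos (by linarith),
          ← ENNReal.ofReal_mul (by positivity)]
        congr 1
        ring

/-- Minkowski's inequality for sums of logarithms. -/
theorem lp_sum {q : ℝ} (hq : 1 ≤ q) {C : ℝ} (hC : ∀ r γ : ℝ, 0 < r →
    ∫⁻ t : ℝ, ENNReal.ofReal (lp r (t - γ)) ^ q ≤ ENNReal.ofReal (C * r)) {r D K y : ℝ}
    (hr : 0 < r) (hK : 0 ≤ K) (hD : C * r ≤ D) {I : Set ℝ} (hI : volume I ≤ ENNReal.ofReal D)
    (s : Multiset ℝ) :
    ∫⁻ t in I, ENNReal.ofReal ((s.map fun γ => lp r (t + y - γ)).sum + K) ^ q ≤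
      ENNReal.ofReal (((Multiset.card s : ℝ) + K)) ^ q * ENNReal.ofReal D := by
  have hq0 : 0 < q := by linarith
  have hmeas : ∀ s : Multiset ℝ, Measurable fun t : ℝ => (s.map fun γ => lp r (t + y - γ)).sum := by
    intro s
    induction s using Multiset.induction_on with
    | empty => simp
    | cons γ s ih =>
      simp only [Multiset.map_cons, Multiset.sum_cons]
      exact ((lp_meas r).comp (by fun_prop)).add ih
  have hnn : ∀ (s : Multiset ℝ) (t : ℝ), 0 ≤ (s.map fun γ => lp r (t + y - γ)).sum := by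
    intro s t
    refine Multiset.sum_nonneg fun x hx => ?_
    obtain ⟨γ, _, rfl⟩ := Multiset.mem_map.mp hx
    exact lp_nonneg _ _
  have key : ∀ s : Multiset ℝ,
      (∫⁻ t in I, ENNReal.ofReal ((s.map fun γ => lp r (t + y - γ)).sum + K) ^ q) ^ (1 / q) ≤
        ENNReal.ofReal (((Multiset.card s : ℝ) + K)) * ENNReal.ofReal D ^ (1 / q) := by
    intro s
    induction s using Multiset.induction_on with
    | empty =>
      simp only [Multiset.map_zero, Multiset.sum_zero, Multiset.card_zero, Nat.cast_zero, zero_add]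
      rw [setLIntegral_const, ENNReal.mul_rpow_of_nonneg _ _ (by positivity), ← ENNReal.rpow_mul,
        mul_one_div_cancel hq0.ne', ENNReal.rpow_one]
      gcongr
    | cons γ s ih =>
      have e1 : ∀ t : ℝ, ENNReal.ofReal (((γ ::ₘ s).map fun γ => lp r (t + y - γ)).sum + K) =
          ((fun t => ENNReal.ofReal (lp r (t + y - γ))) +
            (fun t => ENNReal.ofReal ((s.map fun γ => lp r (t + y - γ)).sum + K))) t := by
        intro t
        rw [Multiset.map_cons, Multiset.sum_cons, add_assoc, Pi.add_apply,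
          ENNReal.ofReal_add (lp_nonneg _ _) (add_nonneg (hnn s t) hK)]
      simp only [e1]
      have hm1 : Measurable fun t : ℝ => ENNReal.ofReal (lp r (t + y - γ)) :=
        ((lp_meas r).comp (by fun_prop)).ennreal_ofReal
      have hm2 : Measurable fun t : ℝ =>
          ENNReal.ofReal ((s.map fun γ => lp r (t + y - γ)).sum + K) :=
        ((hmeas s).add_const K).ennreal_ofReal
      refine (ENNReal.lintegral_Lp_add_le hm1.aemeasurable hm2.aemeasurable hq).trans ?_
      have h2 : (∫⁻ t in I, ENNReal.ofReal (lp r (t + y - γ)) ^ q) ≤ ENNReal.ofReal D := by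
        calc ∫⁻ t in I, ENNReal.ofReal (lp r (t + y - γ)) ^ q
            ≤ ∫⁻ t, ENNReal.ofReal (lp r (t + y - γ)) ^ q := setLIntegral_le_lintegral _ _
          _ = ∫⁻ t, ENNReal.ofReal (lp r (t - (γ - y))) ^ q := by
              congr 1
              funext t
              congr 3
              ring
          _ ≤ ENNReal.ofReal (C * r) := hC r (γ - y) hr
          _ ≤ _ := ENNReal.ofReal_le_ofReal hD
      calc _ ≤ ENNReal.ofReal D ^ (1 / q) +
            ENNReal.ofReal (((Multiset.card s : ℝ) + K)) * ENNReal.ofReal D ^ (1 / q) := by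
            gcongr
        _ = _ := by
            rw [Multiset.card_cons, Nat.cast_add, Nat.cast_one]
            have : (Multiset.card s : ℝ) + 1 + K = 1 + ((Multiset.card s : ℝ) + K) := by ring
            rw [this, ENNReal.ofReal_add zero_le_one (by positivity), ENNReal.ofReal_one, add_mul,
              one_mul]
  have h3 := ENNReal.rpow_le_rpow (key s) hq0.le
  rw [← ENNReal.rpow_mul, one_div_mul_cancel hq0.ne', ENNReal.rpow_one,
    ENNReal.mul_rpow_of_nonneg _ _ hq0.le, ← ENNReal.rpow_mul, one_div_mul_cancel hq0.ne',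
    ENNReal.rpow_one] at h3
  exact h3

end

end Q97.RF
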