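import Pool.Agent.Q97.RF.Lz
import Pool.Agent.Q97.RF.Fe

set_option autoImplicit false

open Filter MeasureTheory Metric Set Topology Polynomial
open scoped ENNReal Nat ComplexConjugate

namespace Q97.RF

open Q97.RB Q97.RD Q97.MM

noncomputable section

theorem dz_analytic (P : ℂ[X]) (L t : ℝ) : AnalyticOnNhd ℂ (dz P L) (ball (pp t) (1 / 4)) := by
  have h1 : AnalyticOnNhd ℂ riemannZeta (ball (pp t) (1 / 4)) :=
    (zeta_diff_ball (pp_re t) le_rfl).analyticOnNhd isOpen_ball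
  intro z hz
  have h2 : ∀ k, AnalyticAt ℂ (iteratedDeriv k riemannZeta) z := id_analytic (h1 z hz)
  have h3 : dz P L = fun s => ∑ k ∈ P.support, P.coeff k * iteratedDeriv k riemannZeta s / (L : ℂ) ^ k := by
    funext s
    rfl
  rw [h3]
  exact Finset.analyticAt_fun_sum _ fun k _ => (analyticAt_const.mul (h2 k)).div_const

theorem dz_le (P : ℂ[X]) {L t M : ℝ} (hL : 0 < L) {y : ℂ} (hy : closedBall y (1 / L) ⊆ ball (pp t) (1 / 4))
    (hM : ∀ x ∈ closedBall y (1 / L), ‖riemannZeta x‖ ≤ M) : ‖dz P L y‖ ≤ nm P 1 * M := by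
  have hL1 : 0 < 1 / L := by positivity
  have hdc : DiffContOnCl ℂ riemannZeta (ball y (1 / L)) :=
    (zeta_diff_ball (pp_re t) (le_refl (1 / 4))).diffContOnCl_ball hy
  unfold dz nm Polynomial.sum
  rw [Finset.sum_mul]
  refine (norm_sum_le _ _).trans (Finset.sum_le_sum fun k _ => ?_)
  have h3 := Complex.norm_iteratedDeriv_le_of_forall_mem_sphere_norm_le k
    hL1 hdc (fun x hx => hM x (sphere_subset_closedBall hx))
  rw [norm_div, norm_mul, norm_pow, Complex.norm_real, Real.norm_of_nonneg hL.le,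
    div_le_iff₀ (by positivity)]
  calc ‖P.coeff k‖ * ‖iteratedDeriv k riemannZeta y‖
      ≤ ‖P.coeff k‖ * (k ! * M / (1 / L) ^ k) := by gcongr
    _ = ‖P.coeff k‖ * (k ! / 1 ^ k) * M * L ^ k := by
        rw [one_div, inv_pow]
        field_simp
        ring

/-- The number of zeros of `P(D/log T) ζ` near a point of the line is controlled by the growth
of zeta. -/
theorem zeros_P {P : ℂ[X]} (hP0 : P ≠ 0)
    (hP : ∀ μ ν : ℂ, P.eval μ = 0 → P.eval ν = 0 → μ + conj ν ≠ -1) {A R q : ℝ} (hA : 0 ≤ A)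
    (hR : 0 < R) (hq : 0 ≤ q) :
    ∃ C R₂ : ℝ, 0 < C ∧ 0 < R₂ ∧ ∀ᶠ T : ℝ in atTop, ∀ t : ℝ,
      |t - T| ≤ 1 / 4 * T → ∃ p : ℂ, ‖p - pp t‖ ≤ R₂ / Real.log T ∧
        (∀ z : ℂ, ‖z - pp t‖ ≤ R₂ / Real.log T → ‖riemannZeta z‖ ≤ ‖riemannZeta p‖) ∧
        ∀ w : ℂ, ‖w - pp t‖ ≤ A / Real.log T → riemannZeta w ≠ 0 →
          {ρ : ℂ | ρ ∈ closedBall (pp t) (R / Real.log T) ∧
            analyticOrderNatAt (dz P (Real.log T)) ρ ≠ 0}.Finite ∧
          Real.exp (q * cnt (dz P (Real.log T)) (pp t) (R / Real.log T)) *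
            ‖riemannZeta w‖ ≤ C * ‖riemannZeta p‖ := by
  set a := 3 + A with ha'
  have ha3 : 3 ≤ a := by linarith
  have ha0 : 0 < a := by linarith
  obtain ⟨c₀, hc₀, hbig⟩ := bigP hP0 hP ha3
  have hE1 : 1 ≤ Real.exp q := Real.one_le_exp hq
  have hnm := nm_nonneg P one_pos
  set R₁ := (R + 2 * a) * Real.exp q with hR₁
  have hR₁0 : 0 < R₁ := by positivity
  set R₂ := R₁ + 2 * a + 1 with hR₂
  have hR₂0 : 0 < R₂ := by positivity
  refine ⟨c₀ * (nm P 1 + 1), R₂, by positivity, hR₂0, ?_⟩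
  filter_upwards [(log_div_tendsto R₂).eventually (gt_mem_nhds (show (0 : ℝ) < 1 / 8 by norm_num)),
    eventually_ge_atTop 3, hbig,
    Real.tendsto_log_atTop.eventually (eventually_ge_atTop 1)]
    with T h2 hT h5 hL t ht
  have hT0 : 0 < T := by linarith
  have hL0 : 0 < Real.log T := by linarith
  rw [abs_of_nonneg (by positivity)] at h2
  set L := Real.log T with hLd
  have hL1 : 0 < 1 / L := by positivity
  have hR₂e : R₂ / L = R₁ / L + 2 * (a / L) + 1 / L := by rw [hR₂]; ring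
  have haL : 0 < a / L := by positivity
  have hR1L : 0 < R₁ / L := by positivity
  -- the maximum of zeta
  have hcont : ContinuousOn (fun z => ‖riemannZeta z‖) (closedBall (pp t) (R₂ / L)) := by
    refine ((zeta_diff_ball (pp_re t) (le_refl (1 / 4))).continuousOn.mono ?_).norm
    exact closedBall_subset_ball (by linarith)
  obtain ⟨p, hp, hmax⟩ := (isCompact_closedBall (pp t) (R₂ / L)).exists_isMaxOn
    ⟨_, mem_closedBall_self (by positivity)⟩ hcont
  have hmax' : ∀ z : ℂ, ‖z - pp t‖ ≤ R₂ / L → ‖riemannZeta z‖ ≤ ‖riemannZeta p‖ := fun z hz =>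
    hmax (by rw [mem_closedBall, dist_eq_norm]; exact hz)
  refine ⟨p, by rwa [mem_closedBall, dist_eq_norm] at hp, hmax', fun w hw hw0 => ?_⟩
  -- the point at which the function is large
  set g := dz P L with hg
  have hgcont : ContinuousOn (fun z => ‖g z‖) (closedBall (pp t) (a / L)) := by
    refine ((dz_analytic P L t).continuousOn.mono ?_).norm
    exact closedBall_subset_ball (by linarith)
  obtain ⟨z, hz, hgmax⟩ := (isCompact_closedBall (pp t) (a / L)).exists_isMaxOn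
    ⟨_, mem_closedBall_self (by positivity)⟩ hgcont
  rw [mem_closedBall, dist_eq_norm] at hz
  have hgz : ‖riemannZeta w‖ ≤ c₀ * ‖g z‖ := by
    refine h5 t ht ‖g z‖ (fun s hs => ?_) w (hw.trans ?_)
    · exact hgmax (by rw [mem_closedBall, dist_eq_norm]; exact hs)
    · gcongr
      linarith
  have hw0' : 0 < ‖riemannZeta w‖ := norm_pos_iff.mpr hw0
  have hgz0 : g z ≠ 0 := by
    rw [← norm_pos_iff]
    by_contra h
    push Not at h
    have : c₀ * ‖g z‖ ≤ 0 := mul_nonpos_of_nonneg_of_nonpos hc₀.le h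
    linarith
  set r := (R + 2 * a) / L with hr
  have hr0 : 0 < r := by positivity
  have hrR : r * Real.exp q = R₁ / L := by rw [hr, hR₁]; ring
  have hsub : closedBall z (r * Real.exp q) ⊆ ball (pp t) (1 / 4) := by
    rw [hrR]
    intro y hy
    rw [mem_closedBall, dist_eq_norm] at hy
    rw [mem_ball, dist_eq_norm]
    calc ‖y - pp t‖ = ‖(y - z) + (z - pp t)‖ := by ring_nf
      _ ≤ R₁ / L + a / L := (norm_add_le _ _).trans (add_le_add hy hz)
      _ < 1 / 4 := by linarith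
  have hAg : AnalyticOnNhd ℂ g (closedBall z (r * Real.exp q)) := (dz_analytic P L t).mono hsub
  have hΛ : ∀ y ∈ sphere z (r * Real.exp q), ‖g y‖ ≤ nm P 1 * ‖riemannZeta p‖ := by
    intro y hy
    rw [mem_sphere, dist_eq_norm, hrR] at hy
    have hyt : ‖y - pp t‖ ≤ R₁ / L + a / L := by
      calc ‖y - pp t‖ = ‖(y - z) + (z - pp t)‖ := by ring_nf
        _ ≤ R₁ / L + a / L := (norm_add_le _ _).trans (add_le_add hy.le hz)
    have hin : ∀ x ∈ closedBall y (1 / L), ‖x - pp t‖ ≤ R₂ / L := by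
      intro x hx
      rw [mem_closedBall, dist_eq_norm] at hx
      calc ‖x - pp t‖ = ‖(x - y) + (y - pp t)‖ := by ring_nf
        _ ≤ 1 / L + (R₁ / L + a / L) := (norm_add_le _ _).trans (add_le_add hx hyt)
        _ ≤ R₂ / L := by rw [hR₂e]; linarith
    refine dz_le P (t := t) hL0 (fun x hx => ?_) (fun x hx => hmax' x (hin x hx))
    rw [mem_ball, dist_eq_norm]
    linarith [hin x hx]
  have hcnt := cnt_le hr0 hq hAg hgz0 hΛ
  have hfinz := fin_supp' hAg (by positivity) hgz0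
  have hrle : r ≤ r * Real.exp q := le_mul_of_one_le_right hr0.le hE1
  have hfinr : {ρ : ℂ | ρ ∈ closedBall z r ∧ analyticOrderNatAt g ρ ≠ 0}.Finite :=
    hfinz.subset fun ρ hρ => ⟨closedBall_subset_closedBall hrle hρ.1, hρ.2⟩
  have hsub2 : closedBall (pp t) (R / L) ⊆ closedBall z r := by
    apply closedBall_subset_closedBall'
    rw [dist_comm, dist_eq_norm, hr, add_div]
    have : 2 * a / L = 2 * (a / L) := by ring
    rw [this]
    linarith
  have hmono := cnt_mono hsub2 hfinr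
  refine ⟨hfinr.subset fun ρ hρ => ⟨hsub2 hρ.1, hρ.2⟩, ?_⟩
  have hmono' : (cnt g (pp t) (R / L) : ℝ) ≤ cnt g z r := by exact_mod_cast hmono
  calc Real.exp (q * cnt g (pp t) (R / L)) * ‖riemannZeta w‖
      ≤ Real.exp (q * cnt g z r) * (c₀ * ‖g z‖) := by gcongr
    _ = c₀ * (Real.exp (q * cnt g z r) * ‖g z‖) := by ring
    _ ≤ c₀ * (nm P 1 * ‖riemannZeta p‖) := by gcongr
    _ ≤ c₀ * ((nm P 1 + 1) * ‖riemannZeta p‖) := by
        have := norm_nonneg (riemannZeta p)
        gcongr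
        linarith
    _ = _ := by ring

end

end Q97.RF
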