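import Pool.Agent.Q97.RF.Cl
import Pool.Agent.Q97.RF.Nz

set_option autoImplicit false

open Filter MeasureTheory Metric Set Topology Polynomial
open scoped ENNReal Nat ComplexConjugate

namespace Q97.RF

open Q97.RB Q97.RD Q97.MM

noncomputable section

/-- The condition on the polynomials: nonzero, and no two roots with `μ + conj ν = -1`. -/
def Good (P : ℂ[X]) : Prop :=
  P ≠ 0 ∧ ∀ μ ν : ℂ, P.eval μ = 0 → P.eval ν = 0 → μ + conj ν ≠ -1

/-- In an interval which matters, `P(D/log T) ζ` is small on a small set only. -/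
theorem small_P {P : ℂ[X]} (hP : Good P) {γ η a K : ℝ} (hγ : 0 < γ) (hγ1 : γ ≤ 1) (hη : 0 < η)
    (ha : 2 ≤ a) (hK : 96 * Real.exp 1 / γ ≤ K) :
    ∃ δ : ℝ, 0 < δ ∧ ∀ᶠ T : ℝ in atTop, ∀ (u lam : ℝ) (w : ℂ),
      |u + a / Real.log T / 2 - T| ≤ 1 / 4 * T →
      (∀ z ∈ closedBall (pp (u + a / Real.log T / 2)) ((K + 1) * (a / Real.log T)),
        ‖riemannZeta z‖ ≤ lam) → ‖w‖ ≤ a / Real.log T / 4 →
      (∃ x ∈ Icc u (u + a / Real.log T), η * lam < ‖riemannZeta (pp x)‖) →
      volume {x ∈ Icc u (u + a / Real.log T) | ‖dz P (Real.log T) (pp x + w)‖ ≤ δ * lam} <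
        ENNReal.ofReal (γ * (a / Real.log T)) := by
  have he1 : 1 ≤ Real.exp 1 := Real.one_le_exp (by norm_num)
  set Q := 24 * Real.exp 1 / γ with hQ
  have hQ0 : 0 < Q := by positivity
  have hK1 : 96 ≤ K := by
    refine le_trans ?_ hK
    rw [le_div_iff₀ hγ]
    nlinarith
  obtain ⟨C, hC, hbig⟩ := bigP hP.1 hP.2 (a := 2 * a) (by linarith)
  set ε := η / C with hε
  have hε0 : 0 < ε := by positivity
  have hnm := nm_nonneg P one_pos
  obtain ⟨N, hN0, hN⟩ : ∃ N : ℕ, 0 < N ∧ 4 / 2 ^ N ≤ ε / 2 / (nm P 1 + 1) := by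
    have h1 : Tendsto (fun n : ℕ => 4 * (1 / 2 : ℝ) ^ n) atTop (𝓝 (4 * 0)) :=
      (tendsto_pow_atTop_nhds_zero_of_lt_one (by norm_num) (by norm_num)).const_mul 4
    rw [mul_zero] at h1
    obtain ⟨N, hN⟩ := ((h1.eventually (gt_mem_nhds (show 0 < ε / 2 / (nm P 1 + 1) by
      positivity))).and (eventually_gt_atTop 0)).exists
    refine ⟨N, hN.2, ?_⟩
    have := hN.1.le
    rwa [one_div_pow, mul_one_div] at this
  set δ := ε / 2 / Q ^ N with hδ
  have hδ0 : 0 < δ := by positivity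
  refine ⟨δ, hδ0, ?_⟩
  filter_upwards [hbig, Real.tendsto_log_atTop.eventually (eventually_ge_atTop 1),
    (log_div_tendsto (2 * K * a)).eventually (gt_mem_nhds (show (0 : ℝ) < 1 / 4 by norm_num))]
    with T k1 hL k2 u lam w hu hlam hw hex
  set L := Real.log T with hLd
  have hL0 : 0 < L := by linarith
  have hK0 : 0 < K := by linarith
  have ha0 : 0 < a := by linarith
  rw [abs_of_nonneg (by positivity)] at k2
  set h := a / L with hh'
  have hh : 0 < h := by positivity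
  set c := pp (u + h / 2) with hc
  obtain ⟨x0, hx0, hx0'⟩ := hex
  have hlam0 : 0 ≤ lam := (norm_nonneg _).trans (hlam _ (mem_closedBall_self (by positivity)))
  by_contra hcon
  push Not at hcon
  have hRb : (K + 1) * h < 2 * K * h := by nlinarith
  have h2K : 2 * K * h < 1 / 4 := by
    calc 2 * K * h = 2 * K * a / L := by rw [hh']; ring
      _ < _ := k2
  have hg : DifferentiableOn ℂ (dz P L) (ball c (2 * K * h)) :=
    ((dz_analytic P L (u + h / 2)).differentiableOn).mono (ball_subset_ball h2K.le)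
  have hLh : 1 / L ≤ h := by
    rw [hh']
    gcongr
    linarith
  have hgb : ∀ z ∈ sphere c (K * h), ‖dz P L z‖ ≤ nm P 1 * lam := by
    intro z hz
    rw [mem_sphere, dist_eq_norm] at hz
    have hsub : closedBall z (1 / L) ⊆ closedBall c ((K + 1) * h) := by
      apply closedBall_subset_closedBall'
      rw [dist_eq_norm, hz]
      linarith
    exact dz_le P (t := u + h / 2) hL0 (hsub.trans (closedBall_subset_ball (by linarith)))
      (fun x hx => hlam x (hsub hx))
  have hsmall : ∀ y : ℂ, ‖y - c‖ ≤ 2 * h → ‖dz P L y‖ ≤ ε * lam := by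
    intro y hy
    have h1 := remez3 (u := u) (h := h) (γ := γ) (K := K) (R₁ := 2 * K * h) hh hγ hγ1 hK
      (by nlinarith) hg hgb hw
      (S := {x ∈ Icc u (u + h) | ‖dz P L (pp x + w)‖ ≤ δ * lam})
      (fun x hx => hx.1) hcon (fun x hx => hx.2) hN0 (y := y) hy
    refine h1.trans ?_
    have h2 : Q ^ N * (δ * lam) = ε / 2 * lam := by
      rw [hδ]
      field_simp
    have h3 : 4 / 2 ^ N * (nm P 1 * lam) ≤ ε / 2 * lam := by
      have h4 : 4 / 2 ^ N * (nm P 1 + 1) ≤ ε / 2 := by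
        rwa [le_div_iff₀ (by positivity)] at hN
      have h5 : 0 ≤ 4 / (2 : ℝ) ^ N := by positivity
      calc 4 / 2 ^ N * (nm P 1 * lam) ≤ 4 / 2 ^ N * ((nm P 1 + 1) * lam) := by
            gcongr
            linarith
        _ = (4 / 2 ^ N * (nm P 1 + 1)) * lam := by ring
        _ ≤ _ := by gcongr
    rw [h2]
    linarith
  have h6 : 2 * a / L = 2 * h := by rw [hh']; ring
  have hfin := k1 (u + h / 2) hu (ε * lam) (fun s hs => hsmall s (by rw [← h6]; exact hs))
    (pp x0) (by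
      rw [h6, pp_sub_norm]
      have : |x0 - (u + h / 2)| ≤ h / 2 := abs_le.mpr ⟨by linarith [hx0.1], by linarith [hx0.2]⟩
      linarith)
  have h7 : C * (ε * lam) = η * lam := by
    rw [hε]
    field_simp
  linarith

/-- Several functions `P_i(D/log T) ζ` at shifted points are large at the same time on half of
each interval that matters. -/
theorem cell_P {n : ℕ} (hn : 0 < n) {P : Fin n → ℂ[X]} (hP : ∀ i, Good (P i)) {η a K : ℝ}
    (hη : 0 < η) (ha : 2 ≤ a) (hK : 192 * Real.exp 1 * n ≤ K) :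
    ∃ δ : ℝ, 0 < δ ∧ ∀ᶠ T : ℝ in atTop, ∀ (u lam : ℝ) (w : Fin n → ℂ),
      |u + a / Real.log T / 2 - T| ≤ 1 / 4 * T →
      (∀ z ∈ closedBall (pp (u + a / Real.log T / 2)) ((K + 1) * (a / Real.log T)),
        ‖riemannZeta z‖ ≤ lam) → (∀ i, ‖w i‖ ≤ a / Real.log T / 4) →
      (∃ x ∈ Icc u (u + a / Real.log T), η * lam < ‖riemannZeta (pp x)‖) →
      ENNReal.ofReal (1 / 2 * (a / Real.log T)) ≤ volume {x ∈ Ico u (u + a / Real.log T) |
        ∀ i, δ * lam < ‖dz (P i) (Real.log T) (pp x + w i)‖} := by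
  have he1 : 1 ≤ Real.exp 1 := Real.one_le_exp (by norm_num)
  have hn' : (1 : ℝ) ≤ n := by exact_mod_cast hn
  have hn0 : (0 : ℝ) < n := by linarith
  have : Nonempty (Fin n) := ⟨⟨0, hn⟩⟩
  have hγ1 : (1 : ℝ) / (2 * n) ≤ 1 := by
    rw [div_le_one (by positivity)]
    linarith
  have hK' : 96 * Real.exp 1 / (1 / (2 * n)) ≤ K := by
    refine le_trans (le_of_eq ?_) hK
    field_simp
    ring
  have hsm := fun i => small_P (hP i) (γ := 1 / (2 * n)) (η := η) (a := a) (K := K)
    (by positivity) hγ1 hη ha hK'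
  choose δ hδ0 hδ using hsm
  obtain ⟨i0, _, hi0⟩ := Finset.exists_min_image Finset.univ δ Finset.univ_nonempty
  refine ⟨δ i0, hδ0 i0, ?_⟩
  have hall : ∀ᶠ T : ℝ in atTop, ∀ i, ∀ (u lam : ℝ) (w : ℂ),
      |u + a / Real.log T / 2 - T| ≤ 1 / 4 * T →
      (∀ z ∈ closedBall (pp (u + a / Real.log T / 2)) ((K + 1) * (a / Real.log T)),
        ‖riemannZeta z‖ ≤ lam) → ‖w‖ ≤ a / Real.log T / 4 →
      (∃ x ∈ Icc u (u + a / Real.log T), η * lam < ‖riemannZeta (pp x)‖) →
      volume {x ∈ Icc u (u + a / Real.log T) | ‖dz (P i) (Real.log T) (pp x + w)‖ ≤ δ i * lam} <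
        ENNReal.ofReal (1 / (2 * n) * (a / Real.log T)) := eventually_all.mpr hδ
  filter_upwards [hall, Real.tendsto_log_atTop.eventually (eventually_ge_atTop 1)]
    with T k1 hL u lam w hu hlam hw hex
  set L := Real.log T with hLd
  have hL0 : 0 < L := by linarith
  have ha0 : 0 < a := by linarith
  have hK0 : 0 ≤ K := le_trans (by positivity) hK
  set h := a / L with hh'
  have hh : 0 < h := by positivity
  have hlam0 : 0 ≤ lam := (norm_nonneg _).trans (hlam _ (mem_closedBall_self (by positivity)))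
  set W := {x ∈ Ico u (u + h) | ∀ i, δ i0 * lam < ‖dz (P i) L (pp x + w i)‖} with hW
  set S : Fin n → Set ℝ := fun i =>
    {x ∈ Icc u (u + h) | ‖dz (P i) L (pp x + w i)‖ ≤ δ i * lam} with hS
  have hSv : ∀ i, volume (S i) ≤ ENNReal.ofReal (1 / (2 * n) * h) := fun i =>
    (k1 i u lam (w i) hu hlam (hw i) hex).le
  have hsub : Ico u (u + h) ⊆ W ∪ ⋃ i, S i := by
    intro x hx
    by_cases hall : ∀ i, δ i0 * lam < ‖dz (P i) L (pp x + w i)‖
    · exact Or.inl ⟨hx, hall⟩
    · push Not at hall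
      obtain ⟨i, hi⟩ := hall
      refine Or.inr (mem_iUnion.mpr ⟨i, Ico_subset_Icc_self hx, hi.trans ?_⟩)
      have := hi0 i (Finset.mem_univ i)
      gcongr
  have h6 : ENNReal.ofReal (1 / 2 * h) + ENNReal.ofReal (1 / 2 * h) ≤
      volume W + ENNReal.ofReal (1 / 2 * h) := by
    rw [← ENNReal.ofReal_add (by positivity) (by positivity)]
    calc ENNReal.ofReal (1 / 2 * h + 1 / 2 * h) = volume (Ico u (u + h)) := by
          rw [Real.volume_Ico]
          congr 1
          ring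
      _ ≤ volume W + volume (⋃ i, S i) := (measure_mono hsub).trans (measure_union_le _ _)
      _ ≤ volume W + ∑ i : Fin n, ENNReal.ofReal (1 / (2 * n) * h) := by
          gcongr
          refine (measure_iUnion_fintype_le _ _).trans ?_
          exact Finset.sum_le_sum fun i _ => hSv i
      _ = _ := by
          rw [Finset.sum_const, Finset.card_univ, Fintype.card_fin, nsmul_eq_mul,
            ← ENNReal.ofReal_natCast, ← ENNReal.ofReal_mul (by positivity)]
          congr 2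
          field_simp
  exact (ENNReal.add_le_add_iff_right ENNReal.ofReal_ne_top).mp h6

/-- the product of powers of the functions `P_i(D/L) ζ` at the shifted points -/
def pd {n : ℕ} (P : Fin n → ℂ[X]) (β : Fin n → ℝ) (w : Fin n → ℂ) (L t : ℝ) : ℝ :=
  ∏ i, ‖dz (P i) L (pp t + w i)‖ ^ β i

theorem pd_nonneg {n : ℕ} (P : Fin n → ℂ[X]) (β : Fin n → ℝ) (w : Fin n → ℂ) (L t : ℝ) :
    0 ≤ pd P β w L t := Finset.prod_nonneg fun i _ => by positivity

theorem dz_cont (P : ℂ[X]) (L : ℝ) {w : ℂ} (hw : ‖w‖ < 1 / 4) :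
    Continuous (fun x : ℝ => dz P L (pp x + w)) := by
  refine continuous_iff_continuousAt.mpr fun x => ?_
  have h2 : ContinuousAt (dz P L) (pp x + w) := by
    refine (dz_analytic P L x (pp x + w) ?_).continuousAt
    rw [mem_ball, dist_eq_norm, add_sub_cancel_left]
    exact hw
  have h3 : ContinuousAt (fun x : ℝ => pp x + w) x := by
    unfold pp
    fun_prop
  exact ContinuousAt.comp (f := fun x : ℝ => pp x + w) (g := dz P L) h2 h3

theorem pd_cont {n : ℕ} (P : Fin n → ℂ[X]) {β : Fin n → ℝ} (hβ : ∀ i, 0 < β i) {w : Fin n → ℂ}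
    (hw : ∀ i, ‖w i‖ < 1 / 4) (L : ℝ) : Continuous (pd P β w L) := by
  unfold pd
  refine continuous_finsetProd _ fun i _ => ?_
  exact (dz_cont (P i) L (hw i)).norm.rpow_const fun _ => Or.inr (hβ i).le

/-- **Lower bound.** -/
theorem P_low {n : ℕ} (hn : 0 < n) {P : Fin n → ℂ[X]} (hP : ∀ i, Good (P i)) {β : Fin n → ℝ}
    (hβ : ∀ i, 0 < β i) {A : ℝ} (hA : 0 ≤ A) :
    ∃ c : ℝ, 0 < c ∧ ∀ᶠ T : ℝ in atTop, ∀ U : ℝ, Adm T U → ∀ w : Fin n → ℂ,
      (∀ i, ‖w i‖ ≤ A / Real.log T) →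
      ENNReal.ofReal (c * MB (∑ i, β i) T U (1 / 2)) ≤
        ∫⁻ x : ℝ, ENNReal.ofReal (pd P β w (Real.log T) x * wt T U x) := by
  have : Nonempty (Fin n) := ⟨⟨0, hn⟩⟩
  set b := ∑ i, β i with hb
  have hb0 : 0 < b := Finset.sum_pos (fun i _ => hβ i) Finset.univ_nonempty
  have hn' : (1 : ℝ) ≤ n := by exact_mod_cast hn
  have he1 : 1 ≤ Real.exp 1 := Real.one_le_exp (by norm_num)
  set a := 2 + 4 * A with ha'
  set K := 192 * Real.exp 1 * n with hK
  have hK1 : 1 ≤ K := by
    rw [hK]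
    nlinarith
  obtain ⟨η, hη, hcl⟩ := cells_low hb0 (a := a) (K := K) (by linarith) hK1
  obtain ⟨δ, hδ0, hcell⟩ := cell_P hn hP hη (a := a) (K := K) (by linarith) le_rfl
  obtain ⟨c, hc, h1⟩ := hcl (δ ^ b) (by positivity)
  refine ⟨c, hc, ?_⟩
  filter_upwards [h1, hcell, Real.tendsto_log_atTop.eventually (eventually_ge_atTop 1),
    (log_div_tendsto A).eventually (gt_mem_nhds (show (0 : ℝ) < 1 / 4 by norm_num))]
    with T k1 k2 hL k3 U h w hw
  have hL0 : 0 < Real.log T := by linarith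
  rw [abs_of_nonneg (by positivity)] at k3
  refine k1 U h (pd P β w (Real.log T))
    (pd_cont P hβ (fun i => lt_of_le_of_lt (hw i) k3) _).measurable
    (pd_nonneg P β w (Real.log T)) fun u lam hu hlam hex => ?_
  have hUL : U * Real.log T ≤ T := by
    have := h.2.2
    rwa [le_div_iff₀ (by linarith)] at this
  have hT3 := h.1
  have k4 := k2 u lam w (hu.trans (by nlinarith)) hlam (fun i => (hw i).trans (by
    have : A ≤ a / 4 := by rw [ha']; linarith
    calc A / Real.log T ≤ a / 4 / Real.log T := by gcongr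
      _ = _ := by ring)) hex
  refine k4.trans (measure_mono fun x hx => ⟨hx.1, ?_⟩)
  have hlam0 : 0 ≤ lam := by
    refine (norm_nonneg _).trans (hlam _ (mem_closedBall_self ?_))
    have : 0 ≤ a := by rw [ha']; linarith
    positivity
  unfold pd
  have e1 : δ ^ b * lam ^ b = ∏ i, (δ * lam) ^ β i := by
    rw [← Real.mul_rpow hδ0.le hlam0, hb,
      Real.rpow_sum_of_nonneg (by positivity) (fun i _ => (hβ i).le)]
  rw [e1]
  refine Finset.prod_le_prod (fun i _ => by positivity) fun i _ => ?_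
  exact Real.rpow_le_rpow (by positivity) (hx.2 i).le (hβ i).le

/-- **Upper bound.** -/
theorem P_up {n : ℕ} (hn : 0 < n) (P : Fin n → ℂ[X]) {β : Fin n → ℝ}
    (hβ : ∀ i, 0 < β i) {A : ℝ} (hA : 0 ≤ A) :
    ∃ C : ℝ, 0 < C ∧ ∀ᶠ T : ℝ in atTop, ∀ U : ℝ, Adm T U → ∀ w : Fin n → ℂ,
      (∀ i, ‖w i‖ ≤ A / Real.log T) →
      ∫⁻ x : ℝ, ENNReal.ofReal (pd P β w (Real.log T) x * wt T U x) ≤
        ENNReal.ofReal (C * MB (∑ i, β i) T U (1 / 2)) := by
  have : Nonempty (Fin n) := ⟨⟨0, hn⟩⟩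
  set b := ∑ i, β i with hb
  have hb0 : 0 < b := Finset.sum_pos (fun i _ => hβ i) Finset.univ_nonempty
  obtain ⟨C, hC, h⟩ := zeta_disc hb0 (R := A + 1) (by positivity)
  set Q : ℝ := ∏ i, (nm (P i) 1 + 1) ^ β i with hQ
  have hnm : ∀ i, 0 ≤ nm (P i) 1 := fun i => nm_nonneg (P i) one_pos
  have hQ0 : 0 < Q := by
    refine Finset.prod_pos fun i _ => ?_
    have := hnm i
    positivity
  refine ⟨Q * C, by positivity, ?_⟩
  filter_upwards [h, (log_div_tendsto (A + 1)).eventually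
    (gt_mem_nhds (show (0 : ℝ) < 1 / 8 by norm_num))] with T h1 h2 U hAdm w hw
  have hL := hAdm.log
  have hL0 : 0 < Real.log T := by linarith
  rw [abs_of_nonneg (by positivity)] at h2
  set L := Real.log T with hLd
  -- the point of maximum
  have hex : ∀ x : ℝ, ∃ p : ℂ, ‖p - pp x‖ ≤ (A + 1) / L ∧
      ∀ z ∈ closedBall (pp x) ((A + 1) / L), ‖riemannZeta z‖ ≤ ‖riemannZeta p‖ := by
    intro x
    have hcont : ContinuousOn (fun z => ‖riemannZeta z‖) (closedBall (pp x) ((A + 1) / L)) := by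
      refine ((zeta_diff_ball (pp_re x) le_rfl).continuousOn.mono ?_).norm
      exact closedBall_subset_ball (by linarith)
    obtain ⟨p, hp, hmax⟩ := (isCompact_closedBall (pp x) ((A + 1) / L)).exists_isMaxOn
      ⟨_, mem_closedBall_self (by positivity)⟩ hcont
    refine ⟨p, ?_, fun z hz => hmax hz⟩
    rwa [mem_closedBall, dist_eq_norm] at hp
  choose p hp hpm using hex
  have hone : ∀ (x : ℝ) (i : Fin n), ‖dz (P i) L (pp x + w i)‖ ^ β i ≤
      (nm (P i) 1 + 1) ^ β i * ‖riemannZeta (p x)‖ ^ β i := by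
    intro x i
    have hsub : closedBall (pp x + w i) (1 / L) ⊆ closedBall (pp x) ((A + 1) / L) := by
      apply closedBall_subset_closedBall'
      rw [dist_eq_norm, add_sub_cancel_left, add_div]
      linarith [hw i]
    have h3 := dz_le (P i) (t := x) hL0 (hsub.trans (closedBall_subset_ball (by linarith)))
      (fun z hz => hpm x z (hsub hz))
    have h4 := hnm i
    have h5 := norm_nonneg (riemannZeta (p x))
    calc ‖dz (P i) L (pp x + w i)‖ ^ β i
        ≤ ((nm (P i) 1 + 1) * ‖riemannZeta (p x)‖) ^ β i :=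
          Real.rpow_le_rpow (norm_nonneg _) (h3.trans (by nlinarith)) (hβ i).le
      _ = _ := Real.mul_rpow (by positivity) h5
  have hpt : ∀ x : ℝ, ENNReal.ofReal (pd P β w L x * wt T U x) ≤ ENNReal.ofReal Q *
      ENNReal.ofReal (‖riemannZeta (p x)‖ ^ b * wt T U x) := by
    intro x
    have hwt := wt_pos T U x
    rw [← ENNReal.ofReal_mul (by positivity)]
    apply ENNReal.ofReal_le_ofReal
    unfold pd
    calc (∏ i, ‖dz (P i) L (pp x + w i)‖ ^ β i) * wt T U x
        ≤ (∏ i, ((nm (P i) 1 + 1) ^ β i * ‖riemannZeta (p x)‖ ^ β i)) * wt T U x := by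
          gcongr with i
          exact hone x i
      _ = _ := by
          rw [Finset.prod_mul_distrib, hb,
            Real.rpow_sum_of_nonneg (norm_nonneg _) (fun i _ => (hβ i).le)]
          ring
  refine (lintegral_mono hpt).trans ?_
  rw [lintegral_const_mul' _ _ ENNReal.ofReal_ne_top]
  calc ENNReal.ofReal Q * ∫⁻ x : ℝ, ENNReal.ofReal (‖riemannZeta (p x)‖ ^ b * wt T U x)
      ≤ ENNReal.ofReal Q * ENNReal.ofReal (C * MB b T U (1 / 2)) := by
        gcongr
        exact h1 U hAdm p hp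
    _ = _ := by
        rw [← ENNReal.ofReal_mul (by positivity)]
        congr 1
        ring

end

end Q97.RF
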