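import Pool.Agent.Q97.RF.Lh
import Pool.Agent.Q97.RF.Dm
import Pool.Agent.Q97.RF.Sp

set_option autoImplicit false

open Filter MeasureTheory Metric Set Topology Polynomial
open scoped ENNReal Nat ComplexConjugate

namespace Q97.RF

open Q97.RB Q97.RD Q97.MM

noncomputable section

/-- the positive part of the logarithm of a quotient -/
def lq (x y : ℝ) : ℝ := max 0 (Real.log (x / y))

theorem lq_le {x y Λ : ℝ} (hx : 0 ≤ x) (hy : 0 < y) (hxΛ : x ≤ Λ) (hyΛ : y ≤ Λ) :
    lq x y ≤ Real.log (Λ / y) := by
  unfold lq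
  have h1 : 0 ≤ Real.log (Λ / y) := Real.log_nonneg (by rwa [le_div_iff₀ hy, one_mul])
  refine max_le h1 ?_
  rcases eq_or_lt_of_le hx with h | h
  · rw [← h, zero_div, Real.log_zero]
    exact h1
  · apply Real.log_le_log (by positivity)
    gcongr

/-- **The quotients of the functions `P(D/log T) ζ`** under the moment measure. -/
theorem log_P (P₁ : ℂ[X]) {P₂ : ℂ[X]} (hP : Good P₂) {β q A : ℝ} (hβ : 0 < β) (hq : 1 ≤ q)
    (hA : 0 ≤ A) :
    ∃ C : ℝ, 0 < C ∧ ∀ᶠ T : ℝ in atTop, ∀ U : ℝ, Adm T U → ∀ (z v z' : ℝ → ℂ) (y : ℝ),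
      (∀ t, ‖z t - pp t‖ ≤ A / Real.log T) → (∀ t, ‖z' t - pp t‖ ≤ A / Real.log T) →
      |y| ≤ A / Real.log T → (∀ t, (v t).im = t + y) →
      (∀ t, |(v t).re - 1 / 2| ≤ A / Real.log T) →
      ∫⁻ t in {t : ℝ | |t - T| ≤ 1 / 16 * (U * Real.log T)},
        ENNReal.ofReal (lq ‖dz P₁ (Real.log T) (z t)‖ ‖dz P₂ (Real.log T) (v t)‖ ^ q *
          (‖riemannZeta (z' t)‖ ^ β * wt T U t)) ≤
      ENNReal.ofReal (C * MB β T U (1 / 2)) := by
  have hq0 : 0 < q := by linarith
  set a₀ := 2 * A + 2 with ha₀
  have ha₀0 : 0 < a₀ := by positivity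
  obtain ⟨C₀, hC₀, hbig⟩ := bigP' hP.1 hP.2 ha₀0
  obtain ⟨Cq, hCq, hlp⟩ := lp_int hq
  obtain ⟨C₁, hC₁, hpe⟩ := pow_exp hq0 hβ
  set R₂ := 9 * a₀ + 1 with hR₂
  have hR₂0 : 0 < R₂ := by positivity
  obtain ⟨C₂, hC₂, hcells⟩ := zeta_cells hβ (a := 1) one_pos hR₂0.le
  have hn1 := nm_nonneg P₁ one_pos
  have hn2 := nm_nonneg P₂ one_pos
  set n := nm P₁ 1 + nm P₂ 1 + 1 with hn
  have hn0 : 0 < n := by positivity
  set E := Real.exp (2 * 1) with hE
  have hE0 : 0 < E := Real.exp_pos _
  set D₀ := 4 * Cq * a₀ + 1 with hD₀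
  have hD₀0 : 0 < D₀ := by positivity
  set C₃ := 5 ^ q * C₁ * n ^ β * C₀ ^ β * E * D₀ with hC₃
  have hC₃0 : 0 < C₃ := by positivity
  refine ⟨C₃ * C₂, by positivity, ?_⟩
  filter_upwards [hbig, hcells, eventually_ge_atTop 3,
    Real.tendsto_log_atTop.eventually (eventually_ge_atTop (16 + 8 * R₂))]
    with T k1 k2 hT hL U h z v z' y hz hz' hy hvi hvr
  set L := Real.log T with hLd
  have hL0 : 0 < L := by linarith
  have hL1 : 1 ≤ L := by linarith
  have hT0 : 0 < T := by linarith
  have hU := h.pos
  have hU1 := h.2.1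
  have hUL : U * L ≤ T := by
    have := h.2.2
    rwa [le_div_iff₀ (by linarith)] at this
  have hLUL : L ≤ U * L := by nlinarith
  set g := dz P₂ L with hg
  set ρ := a₀ / L with hρ
  have hρ0 : 0 < ρ := by positivity
  set hh := 1 / L with hhd
  have hh0 : 0 < hh := by positivity
  have hhs : hh ≤ 1 / 16 := by
    rw [hhd, div_le_iff₀ hL0]
    linarith
  have hR₂L : 9 * ρ + hh = R₂ / L := by rw [hρ, hhd, hR₂]; ring
  have hR₂s : R₂ / L ≤ 1 / 8 := by
    rw [div_le_iff₀ hL0]
    linarith
  have hρs : 9 * ρ < 1 / 4 := by linarith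
  -- the maxima of zeta
  have hmax : ∀ j : ℤ, ∃ w : ℂ, ‖w - pp ((j : ℝ) * hh + hh / 2)‖ ≤ R₂ / L ∧
      ∀ x : ℂ, ‖x - pp ((j : ℝ) * hh + hh / 2)‖ ≤ R₂ / L → ‖riemannZeta x‖ ≤ ‖riemannZeta w‖ := by
    intro j
    have hcont : ContinuousOn (fun z => ‖riemannZeta z‖)
        (closedBall (pp ((j : ℝ) * hh + hh / 2)) (R₂ / L)) := by
      refine ((zeta_diff_ball (pp_re ((j : ℝ) * hh + hh / 2)) (le_refl (1 / 4))).continuousOn.mono
        ?_).norm
      apply closedBall_subset_ball
      linarith
    obtain ⟨w, hw, hmax⟩ := (isCompact_closedBall (pp ((j : ℝ) * hh + hh / 2))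
      (R₂ / L)).exists_isMaxOn ⟨_, mem_closedBall_self (by positivity)⟩ hcont
    refine ⟨w, by rwa [mem_closedBall, dist_eq_norm] at hw, fun x hx => ?_⟩
    exact hmax (by rw [mem_closedBall, dist_eq_norm]; exact hx)
  choose w hw hwmax using hmax
  have hRh : R₂ * hh = R₂ / L := by rw [hhd]; ring
  have k3 := k2 U h w (fun j => by rw [hRh]; exact hw j)
  set near : Set ℤ := {j : ℤ | |(j : ℝ) * hh + hh / 2 - T| ≤ 1 / 8 * (U * L)} with hnear
  set sj : ℤ → ℝ≥0∞ := near.indicator (fun j : ℤ => ENNReal.ofReal (hh *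
    wt T U ((j : ℝ) * hh + hh / 2) * ‖riemannZeta (w j)‖ ^ β)) with hsj
  set S : Set ℝ := {t : ℝ | |t - T| ≤ 1 / 16 * (U * L)} with hS
  have hSm : MeasurableSet S := by
    apply measurableSet_le <;> fun_prop
  set F : ℝ → ℝ≥0∞ := fun t => ENNReal.ofReal (lq ‖dz P₁ L (z t)‖ ‖g (v t)‖ ^ q *
    (‖riemannZeta (z' t)‖ ^ β * wt T U t)) with hF
  have hcell : ∀ j : ℤ, ∫⁻ t in Ij hh j, S.indicator F t ≤ ENNReal.ofReal C₃ * sj j := by
    intro j
    set cj := (j : ℝ) * hh + hh / 2 with hcj
    have hvol : volume (Ij hh j) = ENNReal.ofReal hh := by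
      unfold Ij
      rw [Real.volume_Ico]
      congr 1
      ring
    have htc : ∀ t ∈ Ij hh j, |t - cj| ≤ hh := by
      intro t ht
      have h1 : (j : ℝ) * hh ≤ t := ht.1
      have h2 : t < (j : ℝ) * hh + hh := ht.2
      rw [abs_le]
      constructor <;> linarith
    by_cases hj : j ∈ near
    · have hj' : |cj - T| ≤ 1 / 8 * (U * L) := hj
      have hsjj : sj j = ENNReal.ofReal (hh * wt T U cj * ‖riemannZeta (w j)‖ ^ β) := by
        rw [hsj, indicator_of_mem hj]
      set Λ := ‖riemannZeta (w j)‖ with hΛ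
      have hΛ0 : 0 ≤ Λ := norm_nonneg _
      -- the maximum of g
      have hgcont : ContinuousOn (fun x => ‖g x‖) (closedBall (pp cj) ρ) := by
        refine ((dz_analytic P₂ L cj).continuousOn.mono ?_).norm
        exact closedBall_subset_ball (by linarith)
      obtain ⟨p, hp, hpmax⟩ := (isCompact_closedBall (pp cj) ρ).exists_isMaxOn
        ⟨_, mem_closedBall_self hρ0.le⟩ hgcont
      rw [mem_closedBall, dist_eq_norm] at hp
      have hζg : ∀ x : ℂ, ‖x - pp cj‖ ≤ ρ → ‖riemannZeta x‖ ≤ C₀ * ‖g p‖ := by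
        intro x hx
        refine k1 cj (hj'.trans (by linarith)) ‖g p‖ (fun s hs => ?_) x hx
        exact hpmax (by rw [mem_closedBall, dist_eq_norm]; exact hs)
      have hztj : ∀ (f : ℝ → ℂ), (∀ t, ‖f t - pp t‖ ≤ A / L) → ∀ t ∈ Ij hh j,
          ‖f t - pp cj‖ ≤ ρ := by
        intro f hf t ht
        calc ‖f t - pp cj‖ = ‖(f t - pp t) + (pp t - pp cj)‖ := by ring_nf
          _ ≤ A / L + hh := by
              refine (norm_add_le _ _).trans (add_le_add (hf t) ?_)
              rw [pp_sub_norm]
              exact htc t ht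
          _ ≤ ρ := by
              rw [hρ, ha₀, hhd, ← add_div]
              exact div_le_div_of_nonneg_right (by linarith) hL0.le
      have hvj : ∀ t ∈ Ij hh j, ‖v t - pp cj‖ ≤ ρ := by
        intro t ht
        have h1 : |(v t).im - cj| ≤ hh + A / L := by
          rw [hvi t]
          calc |t + y - cj| = |(t - cj) + y| := by ring_nf
            _ ≤ hh + A / L := (abs_add_le _ _).trans (add_le_add (htc t ht) hy)
        calc ‖v t - pp cj‖ ≤ |(v t - pp cj).re| + |(v t - pp cj).im| :=
              Complex.norm_le_abs_re_add_abs_im _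
          _ ≤ A / L + (hh + A / L) := by
              rw [Complex.sub_re, Complex.sub_im, pp_re, pp_im]
              exact add_le_add (hvr t) h1
          _ ≤ ρ := by
              rw [hρ, ha₀, hhd]
              have : 0 < 1 / L := by positivity
              have e1 : (2 * A + 2) / L = A / L + (1 / L + A / L) + 1 / L := by ring
              rw [e1]
              linarith
      have hwt : ∀ t ∈ Ij hh j, wt T U t ≤ E * wt T U cj := fun t ht =>
        wt_cmp' hU1 hL1 zero_le_one (hj'.trans (by linarith)) (htc t ht)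
      have hsub : ∫⁻ t in Ij hh j, S.indicator F t ≤ ∫⁻ t in Ij hh j, F t :=
        lintegral_mono fun t => indicator_le_self _ _ _
      refine hsub.trans ?_
      by_cases hgp : g p = 0
      · have hz0 : ∀ t ∈ Ij hh j, F t = 0 := by
          intro t ht
          have h1 := hζg (z' t) (hztj z' hz' t ht)
          rw [hgp, norm_zero, mul_zero] at h1
          have h2 : ‖riemannZeta (z' t)‖ = 0 := le_antisymm h1 (norm_nonneg _)
          simp only [hF]
          rw [h2, Real.zero_rpow hβ.ne', zero_mul, mul_zero, ENNReal.ofReal_zero]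
        rw [setLIntegral_congr_fun (Ij_meas hh j) hz0]
        simp
      · have hgp0 : 0 < ‖g p‖ := norm_pos_iff.mpr hgp
        have hball : closedBall p (8 * ρ) ⊆ closedBall (pp cj) (9 * ρ) := by
          apply closedBall_subset_closedBall'
          rw [dist_eq_norm]
          linarith
        have hga : AnalyticOnNhd ℂ g (closedBall p (8 * ρ)) :=
          (dz_analytic P₂ L cj).mono (hball.trans (closedBall_subset_ball hρs))
        have hdzb : ∀ (Q : ℂ[X]), nm Q 1 ≤ n → ∀ x ∈ closedBall (pp cj) (9 * ρ),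
            ‖dz Q L x‖ ≤ n * Λ := by
          intro Q hQ x hx
          rw [mem_closedBall, dist_eq_norm] at hx
          have hsub : closedBall x (1 / L) ⊆ closedBall (pp cj) (R₂ / L) := by
            apply closedBall_subset_closedBall'
            rw [dist_eq_norm, ← hR₂L]
            linarith
          have h1 := dz_le Q (t := cj) hL0 (hsub.trans (closedBall_subset_ball (by linarith)))
            (M := Λ) (fun u hu => hwmax j u (by
              have := hsub hu
              rwa [mem_closedBall, dist_eq_norm] at this))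
          exact h1.trans (mul_le_mul_of_nonneg_right hQ hΛ0)
        have hn2' : nm P₂ 1 ≤ n := by rw [hn]; linarith
        have hn1' : nm P₁ 1 ≤ n := by rw [hn]; linarith
        obtain ⟨s, hcard, hs⟩ := low_point hρ0 hga hgp
          (fun x hx => hdzb P₂ hn2' x (hball hx))
        set B := Real.log (n * Λ / ‖g p‖) with hB
        have hpΛ : ‖g p‖ ≤ n * Λ := hdzb P₂ hn2' p (hball (mem_closedBall_self (by positivity)))
        have hB0 : 0 ≤ B := Real.log_nonneg (by rw [le_div_iff₀ hgp0]; linarith)
        have hΛp : 0 < n * Λ := hgp0.trans_le hpΛ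
        -- almost everywhere bound
        have hae : ∀ᵐ t ∂(volume.restrict (Ij hh j)), F t ≤
            ENNReal.ofReal ((s.map fun γ => lp (4 * ρ) (t + y - γ)).sum + 3 * (B + 1)) ^ q *
            ENNReal.ofReal ((C₀ * ‖g p‖) ^ β * (E * wt T U cj)) := by
          rw [ae_restrict_iff' (Ij_meas hh j)]
          have hnull : ∀ᵐ t : ℝ, t + y ∉ s := by
            have h1 : {t : ℝ | t + y ∈ s} ⊆ ((s.map fun x => x - y).toFinset : Set ℝ) := by
              intro t ht
              rw [Finset.mem_coe, Multiset.mem_toFinset, Multiset.mem_map]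
              exact ⟨t + y, ht, by ring⟩
            have h2 : volume {t : ℝ | t + y ∈ s} = 0 :=
              measure_mono_null h1 (Finset.measure_zero _ _)
            exact compl_mem_ae_iff.mpr h2
          filter_upwards [hnull] with t ht htj
          obtain ⟨e1, e2⟩ := hs (v t) (by
            rw [mem_closedBall, dist_eq_norm]
            calc ‖v t - p‖ = ‖(v t - pp cj) - (p - pp cj)‖ := by ring_nf
              _ ≤ ρ + ρ := (norm_sub_le _ _).trans (add_le_add (hvj t htj) hp)
              _ = 2 * ρ := by ring) (by rw [hvi t]; exact ht)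
          rw [hvi t] at e2
          have hgv0 : 0 < ‖g (v t)‖ := norm_pos_iff.mpr e1
          have e3 : lq ‖dz P₁ L (z t)‖ ‖g (v t)‖ ≤ Real.log (n * Λ / ‖g (v t)‖) := by
            refine lq_le (norm_nonneg _) hgv0 (hdzb P₁ hn1' _ ?_) (hdzb P₂ hn2' _ ?_)
            · rw [mem_closedBall, dist_eq_norm]
              linarith [hztj z hz t htj]
            · rw [mem_closedBall, dist_eq_norm]
              linarith [hvj t htj]
          have e4 := e3.trans e2
          have e5 : 0 ≤ lq ‖dz P₁ L (z t)‖ ‖g (v t)‖ := le_max_left _ _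
          have hwtp := (wt_pos T U t).le
          have hwcp := (wt_pos T U cj).le
          rw [ENNReal.ofReal_rpow_of_nonneg (e5.trans e4) hq0.le,
            ← ENNReal.ofReal_mul (by
              have := e5.trans e4
              positivity)]
          apply ENNReal.ofReal_le_ofReal
          have e6 := hζg (z' t) (hztj z' hz' t htj)
          have e7 := hwt t htj
          have e8 : 0 ≤ C₀ * ‖g p‖ := by positivity
          refine mul_le_mul (Real.rpow_le_rpow e5 e4 hq0.le) ?_ (by positivity)
            (Real.rpow_nonneg (e5.trans e4) _)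
          exact mul_le_mul (Real.rpow_le_rpow (norm_nonneg _) e6 hβ.le) e7 hwtp (by positivity)
        calc ∫⁻ t in Ij hh j, F t
            ≤ ∫⁻ t in Ij hh j,
              ENNReal.ofReal ((s.map fun γ => lp (4 * ρ) (t + y - γ)).sum + 3 * (B + 1)) ^ q *
              ENNReal.ofReal ((C₀ * ‖g p‖) ^ β * (E * wt T U cj)) := lintegral_mono_ae hae
          _ = (∫⁻ t in Ij hh j,
              ENNReal.ofReal ((s.map fun γ => lp (4 * ρ) (t + y - γ)).sum + 3 * (B + 1)) ^ q) *
              ENNReal.ofReal ((C₀ * ‖g p‖) ^ β * (E * wt T U cj)) :=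
              lintegral_mul_const' _ _ ENNReal.ofReal_ne_top
          _ ≤ (ENNReal.ofReal (((Multiset.card s : ℝ) + 3 * (B + 1))) ^ q *
              ENNReal.ofReal (D₀ / L)) *
              ENNReal.ofReal ((C₀ * ‖g p‖) ^ β * (E * wt T U cj)) := by
              gcongr
              refine lp_sum hq hlp (by positivity) (by positivity) ?_ ?_ s
              · rw [hρ, hD₀]
                have : Cq * (4 * (a₀ / L)) = 4 * Cq * a₀ / L := by ring
                rw [this]
                gcongr
                linarith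
              · rw [hvol]
                apply ENNReal.ofReal_le_ofReal
                rw [hhd, hD₀]
                gcongr
                have : 0 ≤ 4 * Cq * a₀ := by positivity
                linarith
          _ ≤ ENNReal.ofReal C₃ * sj j := by
              rw [hsjj]
              have hcard' : (Multiset.card s : ℝ) + 3 * (B + 1) ≤ 5 * (B + 1) := by
                have hl2 : (1 : ℝ) / 2 ≤ Real.log 2 := by
                  have := Real.log_two_gt_d9
                  linarith
                have : B / Real.log 2 ≤ 2 * B := by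
                  rw [div_le_iff₀ (by linarith)]
                  nlinarith
                linarith
              have hcn : (0 : ℝ) ≤ (Multiset.card s : ℝ) + 3 * (B + 1) := by positivity
              have hwcp := (wt_pos T U cj).le
              rw [ENNReal.ofReal_rpow_of_nonneg hcn hq0.le, ← ENNReal.ofReal_mul (by positivity),
                ← ENNReal.ofReal_mul (by positivity), ← ENNReal.ofReal_mul hC₃0.le]
              apply ENNReal.ofReal_le_ofReal
              have h1 : ((Multiset.card s : ℝ) + 3 * (B + 1)) ^ q ≤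
                  5 ^ q * (C₁ * ((n * Λ) ^ β / ‖g p‖ ^ β)) := by
                calc ((Multiset.card s : ℝ) + 3 * (B + 1)) ^ q ≤ (5 * (B + 1)) ^ q :=
                      Real.rpow_le_rpow hcn hcard' hq0.le
                  _ = 5 ^ q * (B + 1) ^ q := Real.mul_rpow (by norm_num) (by positivity)
                  _ ≤ 5 ^ q * (C₁ * Real.exp (β * B)) := by
                      gcongr
                      exact hpe B hB0
                  _ = _ := by
                      rw [mul_comm β B, Real.exp_mul, hB, Real.exp_log (by positivity),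
                        Real.div_rpow hΛp.le hgp0.le]
              have hgpβ : 0 < ‖g p‖ ^ β := by positivity
              calc ((Multiset.card s : ℝ) + 3 * (B + 1)) ^ q * (D₀ / L) *
                    ((C₀ * ‖g p‖) ^ β * (E * wt T U cj))
                  ≤ (5 ^ q * (C₁ * ((n * Λ) ^ β / ‖g p‖ ^ β))) * (D₀ / L) *
                    ((C₀ * ‖g p‖) ^ β * (E * wt T U cj)) := by gcongr
                _ = C₃ * (hh * wt T U cj * Λ ^ β) := by
                    rw [Real.mul_rpow hn0.le hΛ0, Real.mul_rpow hC₀.le hgp0.le, hC₃, hhd]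
                    generalize wt T U cj = W
                    field_simp
    · have hj' : 1 / 8 * (U * L) < |cj - T| := by
        rw [hnear, mem_ofPred_eq, not_le] at hj
        exact hj
      have hz0 : ∀ t ∈ Ij hh j, S.indicator F t = 0 := by
        intro t ht
        apply indicator_of_notMem
        rw [hS, mem_ofPred_eq, not_le]
        have h2 : |cj - T| ≤ |t - T| + hh := by
          calc |cj - T| = |(t - T) - (t - cj)| := by ring_nf
            _ ≤ _ := (abs_sub _ _).trans (add_le_add le_rfl (htc t ht))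
        linarith
      rw [setLIntegral_congr_fun (Ij_meas hh j) hz0]
      simp
  calc ∫⁻ t in S, F t = ∫⁻ t, S.indicator F t := (lintegral_indicator hSm F).symm
    _ = ∑' j : ℤ, ∫⁻ t in Ij hh j, S.indicator F t := lint_grid hh0 _
    _ ≤ ∑' j : ℤ, ENNReal.ofReal C₃ * sj j := ENNReal.tsum_le_tsum hcell
    _ = ENNReal.ofReal C₃ * ∑' j : ℤ, sj j := ENNReal.tsum_mul_left
    _ ≤ ENNReal.ofReal C₃ * ENNReal.ofReal (C₂ * MB β T U (1 / 2)) := by gcongr
    _ = _ := by
        rw [← ENNReal.ofReal_mul (by positivity)]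
        congr 1
        ring

end

end Q97.RF
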