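import Pool.Agent.Q97.RB.Tz

set_option autoImplicit false

open Filter MeasureTheory Metric Real Set Topology MeromorphicOn

namespace Q97.RF

open Q97.RB

noncomputable section

variable {f : ℂ → ℂ} {c : ℂ} {r : ℝ}

/-- the number of zeros of `f` in a closed disc, with multiplicities -/
def cnt (f : ℂ → ℂ) (c : ℂ) (r : ℝ) : ℕ :=
  ∑ᶠ (ρ : ℂ) (_ : ρ ∈ closedBall c r), analyticOrderNatAt f ρ

theorem ord_ne_top (hr : 0 ≤ r) (hA : AnalyticOnNhd ℂ f (closedBall c r)) (hc : f c ≠ 0) {u : ℂ}
    (hu : u ∈ closedBall c r) : analyticOrderAt f u ≠ ⊤ := by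
  intro h7
  rw [analyticOrderAt_eq_top] at h7
  have h8 := hA.eqOn_zero_of_preconnected_of_eventuallyEq_zero
    (convex_closedBall c r).isPreconnected hu h7
  exact hc (h8 (mem_closedBall_self hr))

theorem ne_zero_loc (hr : 0 ≤ r) (hA : AnalyticOnNhd ℂ f (closedBall c r)) (hc : f c ≠ 0) :
    ∀ᶠ z in codiscreteWithin (closedBall c r), f z ≠ 0 := by
  have h := hA.eqOn_zero_or_eventually_ne_zero_of_preconnected (convex_closedBall c r).isPreconnected
  rcases h with h | h
  · exact absurd (h (mem_closedBall_self hr)) hc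
  · exact h

/-- Jensen's inequality on a disc. -/
theorem jensen_loc (hr : 0 < r) (hA : AnalyticOnNhd ℂ f (closedBall c r)) (hc : f c ≠ 0) :
    ‖f c‖ * exp (NN f c r) ≤ circleAverage (fun z => ‖f z‖) c r := by
  have habs : |r| = r := abs_of_pos hr
  have hAs : AnalyticOnNhd ℂ f (sphere c |r|) := hA.mono (by rw [habs]; exact sphere_subset_closedBall)
  have hci : CircleIntegrable (fun z => ‖f z‖) c r := by
    apply ContinuousOn.circleIntegrable hr.le
    rw [← habs]
    exact hAs.continuousOn.norm
  have hm : MeromorphicOn f (closedBall c |r|) := by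
    rw [habs]
    exact hA.meromorphicOn
  have hm' : MeromorphicOn f (sphere c |r|) := hAs.meromorphicOn
  have hJ := MeromorphicOn.circleAverage_log_norm hr.ne' hm
  have hcB : c ∈ closedBall c |r| := mem_closedBall_self (abs_nonneg r)
  have hA' : AnalyticOnNhd ℂ f (closedBall c |r|) := by rwa [habs]
  have hac : AnalyticAt ℂ f c := hA' c hcB
  have hd : divisor f (closedBall c |r|) c = 0 := by
    rw [MeromorphicOn.AnalyticOnNhd.divisor_apply hA' hcB, hac.analyticOrderAt_eq_zero.mpr hc]
    simp
  rw [hd, hac.meromorphicTrailingCoeffAt_of_ne_zero hc] at hJ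
  simp only [Int.cast_zero, zero_mul, add_zero] at hJ
  change circleAverage (log ‖f ·‖) c r = NN f c r + log ‖f c‖ at hJ
  have hne : ∀ᶠ z in codiscreteWithin (sphere c |r|), f z ≠ 0 :=
    (ne_zero_loc hr.le hA hc).filter_mono (codiscreteWithin_mono (by
      rw [habs]
      exact sphere_subset_closedBall))
  set m := NN f c r + log ‖f c‖ with hmdef
  have hlog : CircleIntegrable (log ‖f ·‖) c r := hm'.circleIntegrable_log_norm
  have e1 : ‖f c‖ * exp (NN f c r) = exp m := by
    rw [hmdef, exp_add, exp_log (norm_pos_iff.mpr hc), mul_comm]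
  have e2 : circleAverage (fun z => ‖f z‖) c r = circleAverage (fun z => exp (log ‖f z‖)) c r := by
    apply circleAverage_congr_codiscreteWithin _ hr.ne'
    filter_upwards [hne] with z hz
    rw [exp_log (norm_pos_iff.mpr hz)]
  have hci2 : CircleIntegrable (fun z => exp (log ‖f z‖)) c r := by
    refine hci.congr_codiscreteWithin ?_
    filter_upwards [hne] with z hz
    rw [exp_log (norm_pos_iff.mpr hz)]
  have hlin : CircleIntegrable (fun z => exp m * (1 + (log ‖f z‖ - m))) c r := by
    have h2 : CircleIntegrable (fun z => log ‖f z‖ - m) c r := hlog.sub (circleIntegrable_const m c r)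
    have h3 : CircleIntegrable (fun z => 1 + (log ‖f z‖ - m)) c r :=
      (circleIntegrable_const 1 c r).add h2
    exact h3.const_mul (exp m)
  have e3 : circleAverage (fun z => exp m * (1 + (log ‖f z‖ - m))) c r = exp m := by
    have e4 : (fun z => exp m * (1 + (log ‖f z‖ - m))) =
        fun z => exp m • log ‖f z‖ + (exp m * (1 - m)) := by
      funext z
      rw [smul_eq_mul]
      ring
    have h6 : CircleIntegrable (fun z => exp m • log ‖f z‖) c r := hlog.const_smul
    rw [e4, circleAverage_fun_add h6 (circleIntegrable_const _ c r), circleAverage_fun_smul,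
      circleAverage_const, hJ, smul_eq_mul]
    ring
  rw [e1, e2, ← e3]
  refine circleAverage_mono hlin hci2 fun z _ => ?_
  have h5 := add_one_le_exp (log ‖f z‖ - m)
  calc exp m * (1 + (log ‖f z‖ - m)) ≤ exp m * exp (log ‖f z‖ - m) := by
        gcongr
        linarith
    _ = exp (log ‖f z‖) := by
        rw [← exp_add]
        congr 1
        ring

theorem fin_supp' (hA : AnalyticOnNhd ℂ f (closedBall c r)) (hr : 0 ≤ r) (hc : f c ≠ 0) :
    {ρ : ℂ | ρ ∈ closedBall c r ∧ analyticOrderNatAt f ρ ≠ 0}.Finite := by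
  refine ((divisor f (closedBall c r)).finiteSupport (isCompact_closedBall c r)).subset
    fun ρ hρ => ?_
  rw [Function.mem_support, MeromorphicOn.AnalyticOnNhd.divisor_apply hA hρ.1]
  have h1 := ord_ne_top hr hA hc hρ.1
  have h2 := hρ.2
  unfold analyticOrderNatAt at h2
  rcases h3 : analyticOrderAt f ρ with _ | k
  · exact absurd h3 h1
  · rw [h3] at h2
    intro h4
    apply h2
    simpa using h4

/-- The number of zeros is bounded by the growth. -/
theorem cnt_le {q Λ : ℝ} (hr : 0 < r) (hq : 0 ≤ q)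
    (hA : AnalyticOnNhd ℂ f (closedBall c (r * exp q))) (hc : f c ≠ 0)
    (hΛ : ∀ z ∈ sphere c (r * exp q), ‖f z‖ ≤ Λ) :
    exp (q * cnt f c r) * ‖f c‖ ≤ Λ := by
  set r' := r * exp q with hr'
  have hE : 1 ≤ exp q := one_le_exp hq
  have hrr : r ≤ r' := le_mul_of_one_le_right hr.le hE
  have hr'0 : 0 < r' := by positivity
  have habs : |r'| = r' := abs_of_pos hr'0
  have hJ := jensen_loc hr'0 hA hc
  have hci : CircleIntegrable (fun z => ‖f z‖) c r' := by
    apply ContinuousOn.circleIntegrable hr'0.le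
    exact (hA.mono sphere_subset_closedBall).continuousOn.norm
  have hJ2 : circleAverage (fun z => ‖f z‖) c r' ≤ Λ := by
    apply circleAverage_mono_on_of_le_circle hci
    intro z hz
    rw [habs] at hz
    exact hΛ z hz
  have hfin := fin_supp' hA hr'0.le hc
  have hcount : cnt f c r = ∑ ρ ∈ hfin.toFinset,
      (closedBall c r).indicator (analyticOrderNatAt f) ρ := by
    unfold cnt
    rw [finsum_mem_def]
    refine finsum_eq_sum_of_support_subset _ fun ρ hρ => ?_
    rw [Function.mem_support] at hρ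
    rw [Set.Finite.coe_toFinset]
    by_cases h : ρ ∈ closedBall c r
    · rw [indicator_of_mem h] at hρ
      exact ⟨closedBall_subset_closedBall hrr h, hρ⟩
    · rw [indicator_of_notMem h] at hρ
      exact absurd rfl hρ
  have hdiv : ∀ ρ ∈ closedBall c r', divisor f (closedBall c |r'|) ρ =
      (analyticOrderNatAt f ρ : ℤ) := by
    intro ρ hρ
    rw [habs, MeromorphicOn.AnalyticOnNhd.divisor_apply hA hρ]
    unfold analyticOrderNatAt
    induction analyticOrderAt f ρ using WithTop.recTopCoe with
    | top => rfl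
    | coe n => rfl
  have hNN : NN f c r' = ∑ ρ ∈ hfin.toFinset, (analyticOrderNatAt f ρ : ℝ) *
      log (r' * ‖c - ρ‖⁻¹) := by
    unfold NN
    rw [finsum_eq_sum_of_support_subset (s := hfin.toFinset)]
    · refine Finset.sum_congr rfl fun ρ hρ => ?_
      rw [Set.Finite.mem_toFinset] at hρ
      rw [hdiv ρ hρ.1]
      norm_cast
    · intro ρ hρ
      rw [Function.mem_support] at hρ
      rw [Set.Finite.coe_toFinset]
      have h1 : divisor f (closedBall c |r'|) ρ ≠ 0 := by
        intro h
        apply hρ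
        rw [h, Int.cast_zero, zero_mul]
      have h2 : ρ ∈ closedBall c r' := by
        by_contra h3
        apply h1
        rw [habs]
        exact Function.locallyFinsuppWithin.apply_eq_zero_of_notMem _ h3
      refine ⟨h2, fun h4 => h1 ?_⟩
      rw [hdiv ρ h2, h4]
      rfl
  have hle : q * cnt f c r ≤ NN f c r' := by
    rw [hcount, hNN, Nat.cast_sum, Finset.mul_sum]
    refine Finset.sum_le_sum fun ρ hρ => ?_
    rw [Set.Finite.mem_toFinset] at hρ
    have hρc : ρ ≠ c := by
      rintro rfl
      apply hρ.2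
      unfold analyticOrderNatAt
      rw [(hA ρ hρ.1).analyticOrderAt_eq_zero.mpr hc]
      rfl
    have hn : 0 < ‖c - ρ‖ := norm_pos_iff.mpr (sub_ne_zero.mpr hρc.symm)
    have hle : ‖c - ρ‖ ≤ r' := by
      have := hρ.1
      rwa [mem_closedBall, dist_comm, dist_eq_norm] at this
    by_cases h : ρ ∈ closedBall c r
    · rw [indicator_of_mem h]
      have h1 : ‖c - ρ‖ ≤ r := by rwa [mem_closedBall, dist_comm, dist_eq_norm] at h
      have h2 : q ≤ log (r' * ‖c - ρ‖⁻¹) := by
        rw [← div_eq_mul_inv, le_log_iff_exp_le (by positivity), le_div_iff₀ hn, hr', mul_comm r]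
        gcongr
      rw [mul_comm]
      gcongr
    · rw [indicator_of_notMem h, Nat.cast_zero, mul_zero]
      apply mul_nonneg (Nat.cast_nonneg _)
      apply log_nonneg
      rw [← div_eq_mul_inv, le_div_iff₀ hn, one_mul]
      exact hle
  calc exp (q * cnt f c r) * ‖f c‖ ≤ exp (NN f c r') * ‖f c‖ := by gcongr
    _ = ‖f c‖ * exp (NN f c r') := mul_comm _ _
    _ ≤ _ := hJ.trans hJ2

theorem cnt_mono {c' : ℂ} {r' : ℝ} (hsub : closedBall c r ⊆ closedBall c' r')
    (hfin : {ρ : ℂ | ρ ∈ closedBall c' r' ∧ analyticOrderNatAt f ρ ≠ 0}.Finite) :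
    cnt f c r ≤ cnt f c' r' := by
  have h1 : ∀ (c₁ : ℂ) (r₁ : ℝ), closedBall c₁ r₁ ⊆ closedBall c' r' →
      cnt f c₁ r₁ = ∑ ρ ∈ hfin.toFinset, (closedBall c₁ r₁).indicator (analyticOrderNatAt f) ρ := by
    intro c₁ r₁ hs
    unfold cnt
    rw [finsum_mem_def]
    refine finsum_eq_sum_of_support_subset _ fun ρ hρ => ?_
    rw [Function.mem_support] at hρ
    rw [Set.Finite.coe_toFinset]
    by_cases h : ρ ∈ closedBall c₁ r₁
    · rw [indicator_of_mem h] at hρ
      exact ⟨hs h, hρ⟩
    · rw [indicator_of_notMem h] at hρ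
      exact absurd rfl hρ
  rw [h1 c r hsub, h1 c' r' subset_rfl]
  refine Finset.sum_le_sum fun ρ _ => ?_
  exact indicator_le_indicator_of_subset hsub (fun _ => Nat.zero_le _) ρ

end

end Q97.RF
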