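import Mathlib

/-!
# Differential operators with constant coefficients acting on analytic functions
-/

set_option autoImplicit false

open Filter Metric Set Topology Polynomial
open scoped Nat ComplexConjugate

namespace Q97.RF

noncomputable section

/-- the operator `P(D)` -/
def op (P : ℂ[X]) (f : ℂ → ℂ) (z : ℂ) : ℂ := P.sum fun k a => a * iteratedDeriv k f z

theorem op_add (P Q : ℂ[X]) (f : ℂ → ℂ) (z : ℂ) : op (P + Q) f z = op P f z + op Q f z :=
  Polynomial.sum_add_index _ _ _ (fun _ => zero_mul _) (fun _ _ _ => add_mul _ _ _)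

theorem op_monomial (k : ℕ) (a : ℂ) (f : ℂ → ℂ) (z : ℂ) :
    op (monomial k a) f z = a * iteratedDeriv k f z :=
  Polynomial.sum_monomial_index _ _ (zero_mul _)

theorem op_C (a : ℂ) (f : ℂ → ℂ) (z : ℂ) : op (C a) f z = a * f z := by
  rw [← monomial_zero_left, op_monomial, iteratedDeriv_zero]

theorem op_one (f : ℂ → ℂ) (z : ℂ) : op 1 f z = f z := by
  rw [← C_1, op_C, one_mul]

theorem op_zero (f : ℂ → ℂ) (z : ℂ) : op 0 f z = 0 := by
  rw [← C_0, op_C, zero_mul]

theorem op_X (f : ℂ → ℂ) (z : ℂ) : op X f z = deriv f z := by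
  rw [X, op_monomial, iteratedDeriv_one, one_mul]

theorem id_analytic {f : ℂ → ℂ} {z : ℂ} (hf : AnalyticAt ℂ f z) (k : ℕ) :
    AnalyticAt ℂ (iteratedDeriv k f) z := by
  rw [iteratedDeriv_eq_iterate]
  exact hf.iterated_deriv k

theorem op_fun_add (P Q : ℂ[X]) (f : ℂ → ℂ) : op (P + Q) f = op P f + op Q f := by
  funext z
  exact op_add P Q f z

theorem op_fun_monomial (k : ℕ) (a : ℂ) (f : ℂ → ℂ) :
    op (monomial k a) f = fun z => a * iteratedDeriv k f z := by
  funext z
  exact op_monomial k a f z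

theorem op_analytic {f : ℂ → ℂ} {z : ℂ} (hf : AnalyticAt ℂ f z) (P : ℂ[X]) :
    AnalyticAt ℂ (op P f) z := by
  induction P using Polynomial.induction_on' with
  | add p q hp hq =>
    rw [op_fun_add]
    exact hp.add hq
  | monomial k a =>
    rw [op_fun_monomial]
    exact analyticAt_const.mul (id_analytic hf k)

theorem id_add {f g : ℂ → ℂ} {z : ℂ} (hf : AnalyticAt ℂ f z) (hg : AnalyticAt ℂ g z) (k : ℕ) :
    iteratedDeriv k (f + g) z = iteratedDeriv k f z + iteratedDeriv k g z :=
  iteratedDeriv_add hf.contDiffAt hg.contDiffAt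

theorem id_cmul {f : ℂ → ℂ} {z : ℂ} (_hf : AnalyticAt ℂ f z) (a : ℂ) (k : ℕ) :
    iteratedDeriv k (fun z => a * f z) z = a * iteratedDeriv k f z :=
  iteratedDeriv_const_mul_field a f

theorem id_id (f : ℂ → ℂ) (k j : ℕ) : iteratedDeriv k (iteratedDeriv j f) = iteratedDeriv (k + j) f := by
  rw [iteratedDeriv_eq_iterate, iteratedDeriv_eq_iterate, iteratedDeriv_eq_iterate,
    Function.iterate_add_apply]

/-- `P(D)` is a homomorphism. -/
theorem op_mul {f : ℂ → ℂ} {z : ℂ} (hf : AnalyticAt ℂ f z) (P Q : ℂ[X]) :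
    op (P * Q) f z = op P (op Q f) z := by
  induction P using Polynomial.induction_on' with
  | add p q hp hq => rw [add_mul, op_add, op_add, hp, hq]
  | monomial k a =>
    rw [op_monomial]
    induction Q using Polynomial.induction_on' with
    | add p q hp hq =>
      rw [mul_add, op_add, hp, hq, op_fun_add, id_add (op_analytic hf p) (op_analytic hf q)]
      ring
    | monomial j b =>
      rw [monomial_mul_monomial, op_monomial, op_fun_monomial, id_cmul (id_analytic hf j), id_id]
      ring

/-- `P(D)` is linear. -/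
theorem op_add_fun {f g : ℂ → ℂ} {z : ℂ} (hf : AnalyticAt ℂ f z) (hg : AnalyticAt ℂ g z)
    (P : ℂ[X]) : op P (f + g) z = op P f z + op P g z := by
  induction P using Polynomial.induction_on' with
  | add p q hp hq =>
    rw [op_add, op_add, op_add, hp, hq]
    ring
  | monomial k a =>
    rw [op_monomial, op_monomial, op_monomial, id_add hf hg]
    ring

theorem op_cmul {f : ℂ → ℂ} {z : ℂ} (hf : AnalyticAt ℂ f z) (a : ℂ) (P : ℂ[X]) :
    op P (fun z => a * f z) z = a * op P f z := by
  induction P using Polynomial.induction_on' with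
  | add p q hp hq =>
    rw [op_add, op_add, hp, hq]
    ring
  | monomial k b =>
    rw [op_monomial, op_monomial, id_cmul hf]
    ring

theorem op_congr {f g : ℂ → ℂ} {z : ℂ} (h : f =ᶠ[𝓝 z] g) (P : ℂ[X]) : op P f z = op P g z := by
  induction P using Polynomial.induction_on' with
  | add p q hp hq => rw [op_add, op_add, hp, hq]
  | monomial k a => rw [op_monomial, op_monomial, h.iteratedDeriv_eq k]

theorem op_deriv {f : ℂ → ℂ} {z : ℂ} (hf : AnalyticAt ℂ f z) (P : ℂ[X]) (a : ℂ) :
    op ((X - C a) * P) f z = deriv (op P f) z - a * op P f z := by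
  rw [op_mul hf, sub_eq_add_neg, ← C_neg, op_add, op_X, op_C]
  ring

/-- The exponential twist. -/
theorem op_exp {f : ℂ → ℂ} (P : ℂ[X]) : ∀ {z : ℂ}, AnalyticAt ℂ f z →
    op P (fun z => Complex.exp z * f z) z = Complex.exp z * op (P.comp (X + 1)) f z := by
  have hk : ∀ k : ℕ, ∀ z : ℂ, AnalyticAt ℂ f z →
      iteratedDeriv k (fun z => Complex.exp z * f z) z = Complex.exp z * op ((X + 1) ^ k) f z := by
    intro k
    induction k with
    | zero =>
      intro z _
      rw [iteratedDeriv_zero, pow_zero, op_one]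
    | succ k ih =>
      intro z hf
      rw [iteratedDeriv_succ]
      have h1 : iteratedDeriv k (fun z => Complex.exp z * f z) =ᶠ[𝓝 z]
          fun z => Complex.exp z * op ((X + 1) ^ k) f z := by
        filter_upwards [hf.eventually_analyticAt] with y hy
        exact ih y hy
      rw [h1.deriv_eq]
      have h2 := (Complex.hasDerivAt_exp z).mul
        (op_analytic hf ((X + 1 : ℂ[X]) ^ k)).differentiableAt.hasDerivAt
      have h3 : deriv (fun z => Complex.exp z * op ((X + 1) ^ k) f z) z =
          Complex.exp z * op ((X + 1) ^ k) f z + Complex.exp z * deriv (op ((X + 1) ^ k) f) z :=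
        h2.deriv
      rw [h3, pow_succ', add_mul, op_add, op_mul hf, op_X, one_mul]
      ring
  intro z hf
  induction P using Polynomial.induction_on' with
  | add p q hp hq =>
    rw [op_add, hp, hq, add_comp, op_add]
    ring
  | monomial k a =>
    rw [op_monomial, hk k z hf, monomial_comp, op_mul hf, op_C]
    ring

/-- the norm of `P(D)` from the functions on a disc of radius `δ` to the value at the centre -/
def nm (P : ℂ[X]) (δ : ℝ) : ℝ := P.sum fun k a => ‖a‖ * (k ! / δ ^ k)

theorem nm_nonneg (P : ℂ[X]) {δ : ℝ} (hδ : 0 < δ) : 0 ≤ nm P δ := by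
  unfold nm Polynomial.sum
  exact Finset.sum_nonneg fun k _ => by positivity

theorem op_le {f : ℂ → ℂ} {z : ℂ} {δ M : ℝ} (hδ : 0 < δ) (P : ℂ[X])
    (hf : AnalyticOnNhd ℂ f (closedBall z δ)) (hM : ∀ y ∈ closedBall z δ, ‖f y‖ ≤ M) :
    ‖op P f z‖ ≤ nm P δ * M := by
  unfold op nm Polynomial.sum
  rw [Finset.sum_mul]
  refine (norm_sum_le _ _).trans (Finset.sum_le_sum fun k _ => ?_)
  rw [norm_mul, mul_assoc]
  refine mul_le_mul_of_nonneg_left ?_ (norm_nonneg _)
  have h1 : DiffContOnCl ℂ f (ball z δ) := by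
    refine DifferentiableOn.diffContOnCl_ball (U := closedBall z δ) ?_ subset_rfl
    exact hf.differentiableOn
  have h2 := Complex.norm_iteratedDeriv_le_of_forall_mem_sphere_norm_le k hδ h1
    (fun y hy => hM y (sphere_subset_closedBall hy))
  calc _ ≤ _ := h2
    _ = _ := by ring

/-- **Growth of the solutions of `P(D) f = g`**. -/
theorem grow (s : Multiset ℂ) {r R : ℝ} (hr : 0 < r) (hrR : r ≤ R) : ∃ C : ℝ, 0 < C ∧
    ∀ (f : ℂ → ℂ) (M₁ M₂ : ℝ), AnalyticOnNhd ℂ f (closedBall 0 R) →
      (∀ z ∈ closedBall (0 : ℂ) r, ‖f z‖ ≤ M₁) →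
      (∀ z ∈ closedBall (0 : ℂ) R, ‖op (s.map fun μ => X - Polynomial.C μ).prod f z‖ ≤ M₂) →
      ∀ z ∈ closedBall (0 : ℂ) R, ‖f z‖ ≤ C * (M₁ + M₂) := by
  have hR : 0 < R := hr.trans_le hrR
  induction s using Multiset.induction_on with
  | empty =>
    refine ⟨1, one_pos, fun f M₁ M₂ _ h1 h2 z hz => ?_⟩
    have h3 := h2 z hz
    rw [Multiset.map_zero, Multiset.prod_zero, op_one] at h3
    have h4 := (norm_nonneg _).trans (h1 0 (mem_closedBall_self hr.le))
    linarith
  | cons μ s ih =>
    obtain ⟨C, hC, ih⟩ := ih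
    set Q := (s.map fun μ => X - Polynomial.C μ).prod with hQ
    set E := Real.exp (‖μ‖ * R) with hE
    have hE0 : 0 < E := Real.exp_pos _
    have hnm := nm_nonneg Q hr
    refine ⟨C * (1 + E * nm Q r + E * (E * R)), by positivity, fun f M₁ M₂ hf h1 h2 z hz => ?_⟩
    have hM1 := (norm_nonneg _).trans (h1 0 (mem_closedBall_self hr.le))
    have hM2 := (norm_nonneg _).trans (h2 0 (mem_closedBall_self hR.le))
    have h0R : (0 : ℂ) ∈ closedBall (0 : ℂ) R := mem_closedBall_self hR.le
    have hg0 : ‖op Q f 0‖ ≤ nm Q r * M₁ :=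
      op_le hr Q (hf.mono (closedBall_subset_closedBall hrR)) h1
    have hder : ∀ y ∈ closedBall (0 : ℂ) R, HasDerivWithinAt
        (fun y => Complex.exp (-μ * y) * op Q f y)
        (Complex.exp (-μ * y) * (deriv (op Q f) y - μ * op Q f y)) (closedBall 0 R) y := by
      intro y hy
      apply HasDerivAt.hasDerivWithinAt
      have e1 : HasDerivAt (fun y => Complex.exp (-μ * y)) (Complex.exp (-μ * y) * (-μ)) y := by
        have := ((hasDerivAt_id y).const_mul (-μ)).cexp
        simpa using this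
      have e2 := e1.mul (op_analytic (hf y hy) Q).differentiableAt.hasDerivAt
      refine e2.congr_deriv ?_
      ring
    have hexp : ∀ y ∈ closedBall (0 : ℂ) R, ‖Complex.exp (-μ * y)‖ ≤ E := by
      intro y hy
      rw [mem_closedBall_zero_iff] at hy
      refine (Complex.norm_exp_le_exp_norm _).trans ?_
      rw [norm_mul, norm_neg, hE]
      gcongr
    have hbd : ∀ y ∈ closedBall (0 : ℂ) R,
        ‖Complex.exp (-μ * y) * (deriv (op Q f) y - μ * op Q f y)‖ ≤ E * M₂ := by
      intro y hy
      rw [norm_mul]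
      have e3 := h2 y hy
      rw [Multiset.map_cons, Multiset.prod_cons, op_deriv (hf y hy)] at e3
      exact mul_le_mul (hexp y hy) e3 (norm_nonneg _) hE0.le
    have hg : ∀ y ∈ closedBall (0 : ℂ) R,
        ‖op Q f y‖ ≤ E * (nm Q r * M₁ + E * M₂ * R) := by
      intro y hy
      have e4 := (convex_closedBall (0 : ℂ) R).norm_image_sub_le_of_norm_hasDerivWithin_le hder hbd
        h0R hy
      rw [mul_zero, Complex.exp_zero, one_mul, sub_zero] at e4
      have hy' := hy
      rw [mem_closedBall_zero_iff] at hy'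
      have e5 : ‖Complex.exp (-μ * y) * op Q f y‖ ≤ nm Q r * M₁ + E * M₂ * R := by
        have e6 := norm_sub_norm_le (Complex.exp (-μ * y) * op Q f y) (op Q f 0)
        have e7 : E * M₂ * ‖y‖ ≤ E * M₂ * R := by gcongr
        linarith
      have e8 : op Q f y = Complex.exp (μ * y) * (Complex.exp (-μ * y) * op Q f y) := by
        rw [← mul_assoc, ← Complex.exp_add]
        have : μ * y + -μ * y = 0 := by ring
        rw [this, Complex.exp_zero, one_mul]
      rw [e8, norm_mul]
      refine mul_le_mul ?_ e5 (norm_nonneg _) hE0.le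
      refine (Complex.norm_exp_le_exp_norm _).trans ?_
      rw [norm_mul, hE]
      gcongr
    have h5 := ih f M₁ _ hf h1 hg z hz
    refine h5.trans ?_
    have e1 : 0 ≤ E * nm Q r * M₂ := by positivity
    have e2 : 0 ≤ E * (E * R) * M₁ := by positivity
    calc C * (M₁ + E * (nm Q r * M₁ + E * M₂ * R))
        ≤ C * ((1 + E * nm Q r + E * (E * R)) * (M₁ + M₂)) := by
          refine mul_le_mul_of_nonneg_left ?_ hC.le
          nlinarith
      _ = _ := by ring

end

end Q97.RF
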