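import Pool.Agent.Q97.RF.Nz
import Pool.Agent.Q97.RD.De3
import Pool.Agent.Q97.RD.Sj

set_option autoImplicit false

open Filter MeasureTheory Metric Set Topology Polynomial
open scoped ENNReal Nat ComplexConjugate

namespace Q97.RF

open Q97.RB Q97.RD Q97.MM

noncomputable section

theorem cnt_pow {β lam C n x y : ℝ} (hβ : 0 < β) (hC : 0 < C) (hx : 0 ≤ x) (hy : 0 ≤ y)
    (h : x ≠ 0 → Real.exp (lam / β * n) * x ≤ C * y) :
    Real.exp (lam * n) * x ^ β ≤ C ^ β * y ^ β := by
  by_cases h0 : x = 0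
  · rw [h0, Real.zero_rpow hβ.ne', mul_zero]
    positivity
  · have h1 := Real.rpow_le_rpow (by positivity) (h h0) hβ.le
    rw [Real.mul_rpow (Real.exp_pos _).le hx, Real.mul_rpow hC.le hy, ← Real.exp_mul] at h1
    have h2 : lam / β * n * β = lam * n := by field_simp
    rwa [h2] at h1

/-- **Exponential moments** of the number of zeros of `P(D/log T) ζ` near a point. -/
theorem exp_count {P : ℂ[X]} (hP0 : P ≠ 0)
    (hP : ∀ μ ν : ℂ, P.eval μ = 0 → P.eval ν = 0 → μ + conj ν ≠ -1) {β lam R : ℝ} (hβ : 0 < β)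
    (hlam : 0 ≤ lam) (hR : 0 < R) :
    ∃ C : ℝ, 0 < C ∧ ∀ᶠ T : ℝ in atTop, ∀ U : ℝ, Adm T U →
      ∫⁻ t in {t : ℝ | |t - T| ≤ 1 / 4 * T},
        ENNReal.ofReal (Real.exp (lam * cnt (dz P (Real.log T)) (pp t) (R / Real.log T)) *
          (‖riemannZeta (pp t)‖ ^ β * wt T U t)) ≤ ENNReal.ofReal (C * MB β T U (1 / 2)) := by
  have hq : 0 ≤ lam / β := by positivity
  obtain ⟨C₁, R₂, hC₁, hR₂, h1⟩ := zeros_P hP0 hP (A := 0) le_rfl hR hq
  obtain ⟨C₂, hC₂, h2⟩ := zeta_disc hβ hR₂.le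
  refine ⟨C₁ ^ β * C₂, by positivity, ?_⟩
  filter_upwards [h1, h2, Real.tendsto_log_atTop.eventually (eventually_ge_atTop 1)]
    with T k1 k2 hL U h
  have hL0 : 0 < Real.log T := by linarith
  choose! p hp using k1
  set z : ℝ → ℂ := fun t => if |t - T| ≤ 1 / 4 * T then p t else pp t with hz
  have hzd : ∀ t, ‖z t - pp t‖ ≤ R₂ / Real.log T := by
    intro t
    simp only [hz]
    split_ifs with ht
    · exact (hp t ht).1
    · rw [sub_self, norm_zero]
      positivity
  have k3 := k2 U h z hzd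
  set S : Set ℝ := {t : ℝ | |t - T| ≤ 1 / 4 * T} with hS
  have hSm : MeasurableSet S := by
    apply measurableSet_le
    · fun_prop
    · fun_prop
  calc _ ≤ ∫⁻ t in S, ENNReal.ofReal (C₁ ^ β) *
        ENNReal.ofReal (‖riemannZeta (z t)‖ ^ β * wt T U t) := by
        refine setLIntegral_mono' hSm fun t ht => ?_
        rw [← ENNReal.ofReal_mul (by positivity)]
        apply ENNReal.ofReal_le_ofReal
        have hzt : z t = p t := by
          simp only [hz]
          exact if_pos ht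
        rw [hzt]
        obtain ⟨_, _, e3⟩ := hp t ht
        have e4 : riemannZeta (pp t) ≠ 0 → _ := fun h0 => (e3 (pp t) (by simp) h0).2
        have hn : ‖riemannZeta (pp t)‖ ≠ 0 → riemannZeta (pp t) ≠ 0 := norm_ne_zero_iff.mp
        have e5 := cnt_pow (lam := lam) hβ hC₁ (norm_nonneg (riemannZeta (pp t)))
          (norm_nonneg (riemannZeta (p t))) (fun h0 => e4 (hn h0))
        have hw := (wt_pos T U t).le
        calc _ = Real.exp (lam * cnt (dz P (Real.log T)) (pp t) (R / Real.log T)) *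
              ‖riemannZeta (pp t)‖ ^ β * wt T U t := by ring
          _ ≤ C₁ ^ β * ‖riemannZeta (p t)‖ ^ β * wt T U t := by gcongr
          _ = _ := by ring
    _ ≤ ∫⁻ t, ENNReal.ofReal (C₁ ^ β) *
        ENNReal.ofReal (‖riemannZeta (z t)‖ ^ β * wt T U t) := setLIntegral_le_lintegral _ _
    _ = ENNReal.ofReal (C₁ ^ β) *
        ∫⁻ t, ENNReal.ofReal (‖riemannZeta (z t)‖ ^ β * wt T U t) :=
        lintegral_const_mul' _ _ ENNReal.ofReal_ne_top
    _ ≤ ENNReal.ofReal (C₁ ^ β) * ENNReal.ofReal (C₂ * MB β T U (1 / 2)) := by gcongr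
    _ = _ := by
        rw [← ENNReal.ofReal_mul (by positivity)]
        congr 1
        ring

theorem cnt_tsum {g : ℂ → ℂ} {c : ℂ} {r : ℝ} {X : Type*} (i : X → ℂ) (hi : Function.Injective i)
    (hmem : ∀ x, i x ∈ closedBall c r)
    (hfin : {ρ : ℂ | ρ ∈ closedBall c r ∧ analyticOrderNatAt g ρ ≠ 0}.Finite) :
    ∑' x : X, (analyticOrderNatAt g (i x) : ℝ≥0∞) ≤ (cnt g c r : ℝ≥0∞) := by
  classical
  rw [ENNReal.tsum_eq_iSup_sum]
  refine iSup_le fun s => ?_
  rw [← Nat.cast_sum, Nat.cast_le]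
  have hcnt : cnt g c r = ∑ ρ ∈ hfin.toFinset, analyticOrderNatAt g ρ := by
    unfold cnt
    rw [finsum_mem_def, finsum_eq_sum_of_support_subset (s := hfin.toFinset)]
    · refine Finset.sum_congr rfl fun ρ hρ => ?_
      rw [Set.Finite.mem_toFinset] at hρ
      exact indicator_of_mem hρ.1 _
    · intro ρ hρ
      rw [Function.mem_support] at hρ
      rw [Set.Finite.coe_toFinset]
      by_cases h : ρ ∈ closedBall c r
      · rw [indicator_of_mem h] at hρ
        exact ⟨h, hρ⟩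
      · rw [indicator_of_notMem h] at hρ
        exact absurd rfl hρ
  rw [hcnt, ← Finset.sum_image (f := fun ρ => analyticOrderNatAt g ρ) (s := s) (g := i)
    (fun x _ y _ h => hi h)]
  refine Finset.sum_le_sum_of_ne_zero fun ρ hρ h0 => ?_
  rw [Set.Finite.mem_toFinset]
  obtain ⟨x, _, rfl⟩ := Finset.mem_image.mp hρ
  exact ⟨hmem x, h0⟩

/-- **Sums over the zeros** of `P(D/log T) ζ` near the line. -/
theorem sum_zeros {P : ℂ[X]} (hP0 : P ≠ 0)
    (hP : ∀ μ ν : ℂ, P.eval μ = 0 → P.eval ν = 0 → μ + conj ν ≠ -1) {β A a : ℝ} (hβ : 0 < β)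
    (hA : 0 ≤ A) (ha : 0 ≤ a) :
    ∃ C : ℝ, 0 < C ∧ ∀ᶠ T : ℝ in atTop, ∀ U : ℝ, Adm T U → ∀ (Z : Set ℂ) (z : ℂ → ℂ),
      (∀ ρ ∈ Z, |ρ.re - 1 / 2| ≤ A / Real.log T ∧ |ρ.im - T| ≤ 1 / 16 * (U * Real.log T) ∧
        ‖z ρ - ρ‖ ≤ a / Real.log T) →
      ∑' ρ : Z, (analyticOrderNatAt (dz P (Real.log T)) ρ : ℝ≥0∞) *
        ENNReal.ofReal (‖riemannZeta (z ρ)‖ ^ β * wt T U (z ρ).im) ≤
      ENNReal.ofReal (C * Real.log T * MB β T U (1 / 2)) := by
  have hq : 0 ≤ 1 / β := by positivity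
  set A' := A + 1 + a with hA'
  have hA'0 : 0 < A' := by positivity
  obtain ⟨C₁, R₂, hC₁, hR₂, h1⟩ := zeros_P hP0 hP (A := A') hA'0.le (show 0 < A + 1 by linarith) hq
  obtain ⟨C₂, hC₂, h2⟩ := zeta_cells hβ (a := 1) one_pos hR₂.le
  set E := Real.exp (2 * A') with hE
  have hE0 : 0 < E := Real.exp_pos _
  refine ⟨E * C₁ ^ β * C₂, by positivity, ?_⟩
  filter_upwards [h1, h2, Real.tendsto_log_atTop.eventually (eventually_ge_atTop (8 + 8 * A'))]
    with T k1 k2 hL U h Z z hz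
  have hL0 : 0 < Real.log T := by linarith
  have hL1 : 1 ≤ Real.log T := by linarith
  set L := Real.log T with hLd
  set g := dz P L with hg
  have hU := h.2.1
  have hUL : U * L ≤ T := by
    have := h.2.2
    rwa [le_div_iff₀ (by linarith)] at this
  have hULL : L ≤ U * L := by nlinarith
  -- the cells
  set c : ℤ → ℝ := fun j => (j : ℝ) * (1 / L) + 1 / L / 2 with hc
  have hcell : ∀ ρ ∈ Z, ‖ρ - pp (c ⌊ρ.im * L⌋)‖ ≤ (A + 1) / L ∧
      |c ⌊ρ.im * L⌋ - T| ≤ 1 / 8 * (U * L) := by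
    intro ρ hρ
    obtain ⟨r1, r2, r3⟩ := hz ρ hρ
    have f1 := Int.floor_le (ρ.im * L)
    have f2 := Int.lt_floor_add_one (ρ.im * L)
    have f3 : |ρ.im - c ⌊ρ.im * L⌋| ≤ 1 / L := by
      have e1 : ρ.im - c ⌊ρ.im * L⌋ = (ρ.im * L - (⌊ρ.im * L⌋ + 1 / 2)) / L := by
        simp only [hc]
        field_simp
      rw [e1, abs_div, abs_of_pos hL0]
      gcongr
      rw [abs_le]
      constructor <;> linarith
    constructor
    · calc ‖ρ - pp (c ⌊ρ.im * L⌋)‖ ≤ |(ρ - pp (c ⌊ρ.im * L⌋)).re| + |(ρ - pp (c ⌊ρ.im * L⌋)).im| :=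
            Complex.norm_le_abs_re_add_abs_im _
        _ ≤ A / L + 1 / L := by
            rw [Complex.sub_re, Complex.sub_im, pp_re, pp_im]
            exact add_le_add r1 f3
        _ = _ := by ring
    · calc |c ⌊ρ.im * L⌋ - T| = |(ρ.im - T) - (ρ.im - c ⌊ρ.im * L⌋)| := by ring_nf
        _ ≤ 1 / 16 * (U * L) + 1 / L := (abs_sub _ _).trans (add_le_add r2 f3)
        _ ≤ 1 / 8 * (U * L) := by
            have : 1 / L ≤ 1 / 8 := by
              rw [div_le_div_iff₀ hL0 (by norm_num)]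
              linarith
            linarith
  have hcT : ∀ j : ℤ, |c j - T| ≤ 1 / 8 * (U * L) → |c j - T| ≤ 1 / 4 * T := fun j hj => by
    refine hj.trans ?_
    have := h.1
    nlinarith
  -- the maxima
  have hmax : ∀ j : ℤ, ∃ w : ℂ, ‖w - pp (c j)‖ ≤ A' / L ∧
      ∀ y : ℂ, ‖y - pp (c j)‖ ≤ A' / L → ‖riemannZeta y‖ ≤ ‖riemannZeta w‖ := by
    intro j
    have hcont : ContinuousOn (fun z => ‖riemannZeta z‖) (closedBall (pp (c j)) (A' / L)) := by
      refine ((zeta_diff_ball (pp_re (c j)) (le_refl (1 / 4))).continuousOn.mono ?_).norm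
      apply closedBall_subset_ball
      rw [div_lt_iff₀ hL0]
      linarith
    obtain ⟨w, hw, hmax⟩ := (isCompact_closedBall (pp (c j)) (A' / L)).exists_isMaxOn
      ⟨_, mem_closedBall_self (by positivity)⟩ hcont
    refine ⟨w, by rwa [mem_closedBall, dist_eq_norm] at hw, fun y hy => ?_⟩
    exact hmax (by rw [mem_closedBall, dist_eq_norm]; exact hy)
  choose w hw hwmax using hmax
  choose! p hp using k1
  set pj : ℤ → ℂ := fun j => if |c j - T| ≤ 1 / 4 * T then p (c j) else pp (c j) with hpj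
  have hpjd : ∀ j : ℤ, ‖pj j - pp ((j : ℝ) * (1 / L) + 1 / L / 2)‖ ≤ R₂ * (1 / L) := by
    intro j
    simp only [hpj]
    split_ifs with ht
    · have := (hp (c j) ht).1
      rwa [← mul_one_div] at this
    · rw [sub_self, norm_zero]
      positivity
  have k3 := k2 U h pj hpjd
  -- one cell
  set f : Z → ℝ≥0∞ := fun ρ => (analyticOrderNatAt g ρ : ℝ≥0∞) *
    ENNReal.ofReal (‖riemannZeta (z ρ)‖ ^ β * wt T U (z ρ).im) with hf
  set κ : Z → ℤ := fun ρ => ⌊(ρ : ℂ).im * L⌋ with hκ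
  have hinner : ∀ j : ℤ, ∑' x : {x : Z // κ x = j}, f x ≤
      ENNReal.ofReal (L * E * C₁ ^ β) * {j : ℤ | |(j : ℝ) * (1 / L) + 1 / L / 2 - T| ≤
          1 / 8 * (U * L)}.indicator (fun j : ℤ => ENNReal.ofReal (1 / L *
          wt T U ((j : ℝ) * (1 / L) + 1 / L / 2) * ‖riemannZeta (pj j)‖ ^ β)) j := by
    intro j
    by_cases hj : |c j - T| ≤ 1 / 8 * (U * L)
    · rw [indicator_of_mem (show j ∈ {j : ℤ | |(j : ℝ) * (1 / L) + 1 / L / 2 - T| ≤
        1 / 8 * (U * L)} from hj)]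
      have hmemc : ∀ x : {x : Z // κ x = j}, ‖((x : Z) : ℂ) - pp (c j)‖ ≤ (A + 1) / L := by
        rintro ⟨x, hx⟩
        have := (hcell x x.2).1
        simp only [hκ] at hx
        rwa [hx] at this
      have hzx : ∀ x : {x : Z // κ x = j}, ‖z (x : Z) - pp (c j)‖ ≤ A' / L := by
        intro x
        calc ‖z (x : Z) - pp (c j)‖ = ‖(z (x : Z) - (x : Z)) + (((x : Z) : ℂ) - pp (c j))‖ := by
              ring_nf
          _ ≤ a / L + (A + 1) / L := (norm_add_le _ _).trans
              (add_le_add (hz _ (x : Z).2).2.2 (hmemc x))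
          _ = A' / L := by rw [hA']; ring
      have hterm : ∀ x : {x : Z // κ x = j}, f x ≤ (analyticOrderNatAt g ((x : Z) : ℂ) : ℝ≥0∞) *
          ENNReal.ofReal (E * wt T U (c j) * ‖riemannZeta (w j)‖ ^ β) := by
        intro x
        simp only [hf]
        refine mul_le_mul' le_rfl (ENNReal.ofReal_le_ofReal ?_)
        have e1 := hwmax j _ (hzx x)
        have e2 : |(z (x : Z)).im - c j| ≤ A' / L := by
          have := (Complex.abs_im_le_norm _).trans (hzx x)
          rwa [Complex.sub_im, pp_im] at this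
        have e3 := wt_cmp' hU hL1 hA'0.le (hj.trans (by nlinarith)) e2
        have hw0 := (wt_pos T U (c j)).le
        calc ‖riemannZeta (z (x : Z))‖ ^ β * wt T U (z (x : Z)).im
            ≤ ‖riemannZeta (w j)‖ ^ β * (E * wt T U (c j)) := by
              have := (wt_pos T U (z (x : Z)).im).le
              gcongr
          _ = _ := by ring
      have hbd : ∑' x : {x : Z // κ x = j}, f x ≤
          (∑' x : {x : Z // κ x = j}, (analyticOrderNatAt g ((x : Z) : ℂ) : ℝ≥0∞)) *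
          ENNReal.ofReal (E * wt T U (c j) * ‖riemannZeta (w j)‖ ^ β) := by
        rw [← ENNReal.tsum_mul_right]
        exact ENNReal.tsum_le_tsum hterm
      refine hbd.trans ?_
      by_cases hw0 : riemannZeta (w j) = 0
      · rw [hw0, norm_zero, Real.zero_rpow hβ.ne', mul_zero, ENNReal.ofReal_zero, mul_zero]
        exact zero_le
      · obtain ⟨_, _, e3⟩ := hp (c j) (hcT j hj)
        obtain ⟨e4, e5⟩ := e3 (w j) (hw j) hw0
        have e6 := cnt_tsum (g := g) (c := pp (c j)) (r := (A + 1) / L)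
          (fun x : {x : Z // κ x = j} => ((x : Z) : ℂ))
          (fun x y hxy => Subtype.ext (Subtype.ext hxy))
          (fun x => by rw [mem_closedBall, dist_eq_norm]; exact hmemc x) e4
        have e7 := cnt_pow (lam := 1) hβ hC₁ (norm_nonneg (riemannZeta (w j)))
          (norm_nonneg (riemannZeta (p (c j)))) (fun _ => e5)
        rw [one_mul] at e7
        have e8 : (cnt g (pp (c j)) ((A + 1) / L) : ℝ) * ‖riemannZeta (w j)‖ ^ β ≤
            C₁ ^ β * ‖riemannZeta (p (c j))‖ ^ β := by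
          refine le_trans ?_ e7
          gcongr
          have := Real.add_one_le_exp (cnt g (pp (c j)) ((A + 1) / L) : ℝ)
          linarith
        have hpjj : pj j = p (c j) := by
          simp only [hpj]
          exact if_pos (hcT j hj)
        refine (mul_le_mul_left e6 _).trans ?_
        rw [← ENNReal.ofReal_natCast, ← ENNReal.ofReal_mul (Nat.cast_nonneg _),
          ← ENNReal.ofReal_mul (by positivity), hpjj]
        apply ENNReal.ofReal_le_ofReal
        have hwp := (wt_pos T U (c j)).le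
        calc (cnt g (pp (c j)) ((A + 1) / L) : ℝ) * (E * wt T U (c j) * ‖riemannZeta (w j)‖ ^ β)
            = E * wt T U (c j) * ((cnt g (pp (c j)) ((A + 1) / L) : ℝ) *
              ‖riemannZeta (w j)‖ ^ β) := by ring
          _ ≤ E * wt T U (c j) * (C₁ ^ β * ‖riemannZeta (p (c j))‖ ^ β) := by gcongr
          _ = _ := by
              have hcj : (j : ℝ) * (1 / L) + 1 / L / 2 = c j := rfl
              rw [hcj]
              generalize wt T U (c j) = W
              field_simp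
    · have : IsEmpty {x : Z // κ x = j} := by
        refine ⟨fun x => hj ?_⟩
        have := (hcell (x : Z) (x : Z).2).2
        have hx := x.2
        simp only [hκ] at hx
        rwa [hx] at this
      rw [tsum_empty]
      exact zero_le
  calc ∑' ρ : Z, f ρ = ∑' j : ℤ, ∑' x : {x : Z // κ x = j}, f x := by
        rw [← (Equiv.sigmaFiberEquiv κ).tsum_eq f, ENNReal.tsum_sigma']
        rfl
    _ ≤ ∑' j : ℤ, ENNReal.ofReal (L * E * C₁ ^ β) *
          {j : ℤ | |(j : ℝ) * (1 / L) + 1 / L / 2 - T| ≤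
          1 / 8 * (U * L)}.indicator (fun j : ℤ => ENNReal.ofReal (1 / L *
          wt T U ((j : ℝ) * (1 / L) + 1 / L / 2) * ‖riemannZeta (pj j)‖ ^ β)) j :=
        ENNReal.tsum_le_tsum hinner
    _ ≤ ENNReal.ofReal (L * E * C₁ ^ β) * ENNReal.ofReal (C₂ * MB β T U (1 / 2)) := by
        rw [ENNReal.tsum_mul_left]
        gcongr
    _ = _ := by
        rw [← ENNReal.ofReal_mul (by positivity)]
        congr 1
        ring

end

end Q97.RF
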