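import Pool.Agent.Q97.RF.Zj

set_option autoImplicit false

open Filter MeasureTheory Metric Set Topology Polynomial
open scoped ENNReal Nat ComplexConjugate

namespace Q97.RF

open Q97.RB Q97.RD Q97.MM

noncomputable section

/-- The zeros of `P(D/log T) ζ` near the line are isolated. -/
theorem zero_finite {P : ℂ[X]} (hP0 : P ≠ 0)
    (hP : ∀ μ ν : ℂ, P.eval μ = 0 → P.eval ν = 0 → μ + conj ν ≠ -1) {R : ℝ} (hR : 0 < R) :
    ∀ᶠ T : ℝ in atTop, ∀ t : ℝ, |t - T| ≤ 1 / 4 * T →
      {ρ ∈ closedBall (pp t) (R / Real.log T) | dz P (Real.log T) ρ = 0}.Finite := by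
  obtain ⟨C, hC, h1⟩ := bigP hP0 hP (a := 3) le_rfl
  filter_upwards [h1, (log_div_tendsto 3).eventually (gt_mem_nhds (show (0 : ℝ) < 1 / 8 by norm_num)),
    (log_div_tendsto R).eventually (gt_mem_nhds (show (0 : ℝ) < 1 / 8 by norm_num)),
    eventually_ge_atTop 3, Real.tendsto_log_atTop.eventually (eventually_ge_atTop 1)]
    with T k1 k2 k3 hT hL t ht
  have hL0 : 0 < Real.log T := by linarith
  rw [abs_of_nonneg (by positivity)] at k2 k3
  set L := Real.log T with hLd
  -- zeta does not vanish identically on the disc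
  have hζ : ∃ s : ℂ, ‖s - pp t‖ ≤ 3 / L ∧ riemannZeta s ≠ 0 := by
    by_contra hcon
    push Not at hcon
    have hA : AnalyticOnNhd ℂ riemannZeta {1}ᶜ := by
      refine DifferentiableOn.analyticOnNhd (fun s hs => ?_) isOpen_compl_singleton
      exact (differentiableAt_riemannZeta hs).differentiableWithinAt
    have hne : pp t ≠ 1 := pp_ne t
    have hev : riemannZeta =ᶠ[𝓝 (pp t)] 0 := by
      have hb : ball (pp t) (3 / L) ∈ 𝓝 (pp t) := ball_mem_nhds _ (by positivity)
      filter_upwards [hb] with s hs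
      rw [mem_ball, dist_eq_norm] at hs
      exact hcon s hs.le
    have hconn : IsPreconnected ({1}ᶜ : Set ℂ) :=
      (isConnected_compl_singleton_of_one_lt_rank (by simp) 1).isPreconnected
    have h2 := hA.eqOn_zero_of_preconnected_of_eventuallyEq_zero hconn hne hev
    have h3 : riemannZeta 2 = 0 := h2 (show (2 : ℂ) ∈ ({1}ᶜ : Set ℂ) by simp)
    exact riemannZeta_ne_zero_of_one_le_re (by simp) h3
  obtain ⟨s, hs, hs0⟩ := hζ
  have hg : ∃ z : ℂ, ‖z - pp t‖ ≤ 3 / L ∧ dz P L z ≠ 0 := by
    by_contra hcon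
    push Not at hcon
    have := k1 t ht 0 (fun z hz => by rw [hcon z hz, norm_zero]) s hs
    rw [mul_zero] at this
    exact hs0 (norm_le_zero_iff.mp this)
  obtain ⟨z, hz, hz0⟩ := hg
  have hA := dz_analytic P L t
  have hconn : IsPreconnected (ball (pp t) (1 / 4 : ℝ)) := (convex_ball _ _).isPreconnected
  have hzb : z ∈ ball (pp t) (1 / 4 : ℝ) := by
    rw [mem_ball, dist_eq_norm]
    linarith
  have hsub : closedBall (pp t) (R / L) ⊆ ball (pp t) (1 / 4) := closedBall_subset_ball (by linarith)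
  rcases hA.eqOn_zero_or_eventually_ne_zero_of_preconnected hconn with h | h
  · exact absurd (h hzb) hz0
  · have h4 := h.filter_mono (codiscreteWithin_mono hsub)
    rw [Filter.Eventually, mem_codiscreteWithin_iff_forall_mem_nhdsNE] at h4
    by_contra hinf
    have hinf' : {ρ ∈ closedBall (pp t) (R / L) | dz P L ρ = 0}.Infinite := hinf
    obtain ⟨x, hx, hacc⟩ := hinf'.exists_accPt_of_subset_isCompact
      (isCompact_closedBall (pp t) (R / L)) (fun y hy => hy.1)
    have h5 := h4 x hx
    rw [accPt_iff_frequently_nhdsNE] at hacc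
    refine hacc ?_
    filter_upwards [h5] with y hy hy2
    rcases hy with hy | hy
    · exact hy hy2.2
    · exact hy hy2.1

end

end Q97.RF
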